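import Mathlib

/-!
# Definitions for MP_ab0522_gt, in the case `X = ℙ¹`, `L = O(1)`

Everything is written in the affine coordinate `z` of `ℙ¹`, together with the coordinate
`w = 1 / z` at infinity.  A section of `k L = O(k)` is a polynomial of degree at most `k`.
-/

namespace Pool.Agent.Lib.MP_ab0522

open Polynomial MeasureTheory Filter Topology

/-- `V_k = H⁰(ℙ¹, O(k))`: complex polynomials in the affine coordinate of degree at most `k`. -/
noncomputable def V (k : ℕ) : Submodule ℂ ℂ[X] := degreeLE ℂ k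

/-- The sub-mean value property on all circles.  For a continuous function this is
plurisubharmonicity (subharmonicity) on the whole plane. -/
def SubMean (u : ℂ → ℝ) : Prop := ∀ z : ℂ, ∀ r : ℝ, 0 < r → u z ≤ Real.circleAverage u z r

/-- A continuous positive metric on `O(1) → ℙ¹`, given by its local weights: `wt` in the chart `z`
and `wtInf` in the chart `w = 1 / z`.  A section `s` of `O(k)`, that is a polynomial `s` of degree
at most `k`, has squared pointwise norm `|s(z)|² e^{-k wt(z)}`, which is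
`|w ^ k s(1 / w)|² e^{-k wtInf(w)}` in the other chart. -/
structure PositiveMetric where
  wt : ℂ → ℝ
  wtInf : ℂ → ℝ
  continuous_wt : Continuous wt
  continuous_wtInf : Continuous wtInf
  subMean_wt : SubMean wt
  subMean_wtInf : SubMean wtInf
  compat : ∀ z : ℂ, z ≠ 0 → wt z = wtInf z⁻¹ + Real.log (‖z‖ ^ 2)

/-- A continuous, everywhere positive volume form on `ℙ¹`: its densities with respect to Lebesgue
measure in the two charts. -/
structure VolumeForm where
  dens : ℂ → ℝ
  densInf : ℂ → ℝ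
  continuous_dens : Continuous dens
  continuous_densInf : Continuous densInf
  dens_pos : ∀ z, 0 < dens z
  densInf_pos : ∀ w, 0 < densInf w
  compat : ∀ z : ℂ, z ≠ 0 → dens z = densInf z⁻¹ / ‖z‖ ^ 4

/-- The Hermitian inner product of `V_k` attached to `k φ` and `dV`. -/
noncomputable def innerProd (φ : PositiveMetric) (dV : VolumeForm) (k : ℕ) (s t : ℂ[X]) : ℂ :=
  ∫ z : ℂ, s.eval z * (starRingEnd ℂ) (t.eval z) *
    ((Real.exp (-(k * φ.wt z)) * dV.dens z : ℝ) : ℂ)

/-- A bounded graded filtration of `⨁ V_k`: decreasing, left-continuous, submultiplicative and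
linearly bounded. -/
structure GradedFiltration where
  F : ℕ → ℝ → Submodule ℂ ℂ[X]
  le_V : ∀ k t, F k t ≤ V k
  antitone : ∀ k, Antitone (F k)
  left_continuous : ∀ k t, F k t = ⨅ t' : {t' : ℝ // t' < t}, F k t'
  mul_mem : ∀ k m t t' s s', s ∈ F k t → s' ∈ F m t' → s * s' ∈ F (k + m) (t + t')
  bounded : ∃ C : ℝ, ∀ k : ℕ, (∀ t, t ≤ -(C * k) → F k t = V k) ∧ (∀ t, C * k < t → F k t = ⊥)

/-- `lam` lists, in increasing order and with multiplicity, the jumping numbers of
`t ↦ F k t`. -/
def IsJumping (F : GradedFiltration) (k : ℕ) (lam : Fin (k + 1) → ℝ) : Prop :=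
  Monotone lam ∧
    ∀ t : ℝ, Module.finrank ℂ (F.F k t) = (Finset.univ.filter fun i => t ≤ lam i).card

/-- `σ` is the Duistermaat-Heckman measure of `F`: the weak limit of
`k⁻¹ ∑ i, δ_{λ_{i,k} / k}`. -/
def IsDuistermaatHeckman (F : GradedFiltration) (σ : Measure ℝ) : Prop :=
  IsFiniteMeasure σ ∧ ∀ lam : (k : ℕ) → Fin (k + 1) → ℝ, (∀ k, IsJumping F k (lam k)) →
    ∀ g : BoundedContinuousFunction ℝ ℝ,
      Tendsto (fun k : ℕ => (k : ℝ)⁻¹ * ∑ i, g (lam k i / k)) atTop (𝓝 (∫ x, g x ∂σ))

/-- The class `C(F)` of bounded, convex, decreasing functions on `supp σ`.  A few jumping numbers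
(`o(k)` of them) may give `λ_{i,k} / k` outside `supp σ`, so `f` has to be given a value there: we
allow every extension of `f` to the real line which is nonincreasing and which is continuous from
the left at the left end point of `supp σ` (for instance the constant one). -/
structure IsInC (σ : Measure ℝ) (f : ℝ → ℝ) : Prop where
  convex : ConvexOn ℝ σ.support f
  bounded : ∃ B : ℝ, ∀ x ∈ σ.support, |f x| ≤ B
  antitone : Antitone f
  left_continuous : ∀ a, IsLeast σ.support a → ContinuousWithinAt f (Set.Iic a) a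

/-- A basis of `V_k`, orthonormal for `‖·‖_{kφ}` and adapted to `F`, with the jumping numbers. -/
structure AdaptedBasis (φ : PositiveMetric) (dV : VolumeForm) (F : GradedFiltration) (k : ℕ) where
  lam : Fin (k + 1) → ℝ
  s : Fin (k + 1) → ℂ[X]
  jumping : IsJumping F k lam
  orthonormal : ∀ i j, innerProd φ dV k (s i) (s j) = if i = j then 1 else 0
  adapted : ∀ t : ℝ, F.F k t = Submodule.span ℂ (s '' {j | t ≤ lam j})

/-- `φ_k^f = (1/k) log ∑ i, |s_{k,i}|² e^{- k f(λ_{i,k} / k)}`, as a weight in the affine chart.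

The sign in the exponent is the one for which decreasing convex functions `f` give the flat cone:
for `f_t(x) = - t x` it is the Phong-Sturm and Ross-Witt Nyström geodesic ray
`(1/k) log ∑ i, |s_{k,i}|² e^{t λ_{i,k}}`, and `f ↦ φ^f` is an isometric embedding.  (Neither would
hold with `e^{+ k f}`.) -/
noncomputable def phiK {φ : PositiveMetric} {dV : VolumeForm} {F : GradedFiltration} {k : ℕ}
    (B : AdaptedBasis φ dV F k) (f : ℝ → ℝ) (z : ℂ) : ℝ :=
  (k : ℝ)⁻¹ * Real.log (∑ i, ‖(B.s i).eval z‖ ^ 2 * Real.exp (-(k * f (B.lam i / k))))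

/-- `v` is the upper limit of the real sequence `x`.  If `x` converges to `v` then this holds. -/
def IsUpperLimit (x : ℕ → ℝ) (v : ℝ) : Prop :=
  ∀ ε : ℝ, 0 < ε → (∀ᶠ k in atTop, x k < v + ε) ∧ (∃ᶠ k in atTop, v - ε < x k)

/-- `u` is the upper semicontinuous regularisation of `v`: `u z = limsup_{w → z} v w`
(where `w = z` is allowed). -/
def IsUscRegularisation (v u : ℂ → ℝ) : Prop :=
  ∀ z : ℂ, ∀ ε : ℝ, 0 < ε → (∀ᶠ w in 𝓝 z, v w < u z + ε) ∧ (∃ᶠ w in 𝓝 z, u z - ε < v w)

/-- `φ₀ = φ^f`, that is `φ₀ = E_{φ,F}(f)`: on the affine chart, the weight of `φ₀` is the upper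
semicontinuous regularisation of the pointwise upper limit (so of the pointwise limit, when it
exists) of the `φ_k^f`, for some choice of adapted orthonormal bases. -/
def IsPhiF (φ : PositiveMetric) (dV : VolumeForm) (F : GradedFiltration) (f : ℝ → ℝ)
    (φ₀ : PositiveMetric) : Prop :=
  ∃ B : (k : ℕ) → AdaptedBasis φ dV F k, ∃ ψ : ℂ → ℝ,
    (∀ z, IsUpperLimit (fun k => phiK (B k) f z) (ψ z)) ∧ IsUscRegularisation ψ φ₀.wt

/-- `φ₀` and `φ₁` lie in the image of one map `E_{φ,F} : C(F) → {positive metrics}`. -/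
def InCommonFlatCone (dV : VolumeForm) (φ₀ φ₁ : PositiveMetric) : Prop :=
  ∃ (φ : PositiveMetric) (F : GradedFiltration) (σ : Measure ℝ) (f₀ f₁ : ℝ → ℝ),
    IsDuistermaatHeckman F σ ∧ IsInC σ f₀ ∧ IsInC σ f₁ ∧
      IsPhiF φ dV F f₀ φ₀ ∧ IsPhiF φ dV F f₁ φ₁

end Pool.Agent.Lib.MP_ab0522
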