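import Mathlib
import Pool.Agent.Lib.MP_ab0522.Defs

/-!
# Superadditivity of the dimension of the filtration
-/

namespace Pool.Agent.Lib.MP_ab0522

open Polynomial MeasureTheory Filter Topology Pointwise

lemma mem_V {k : ℕ} {p : ℂ[X]} : p ∈ V k ↔ p.natDegree ≤ k := by
  rw [V, mem_degreeLE, natDegree_le_iff_degree_le]

lemma V_eq_degreeLT (k : ℕ) : V k = degreeLT ℂ (k + 1) := by
  rw [V]; exact degreeLT_succ_eq_degreeLE.symm

instance V_finite (k : ℕ) : Module.Finite ℂ (V k) := by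
  rw [V_eq_degreeLT]
  exact Module.Finite.equiv (degreeLTEquiv ℂ (k + 1)).symm

lemma finrank_V (k : ℕ) : Module.finrank ℂ (V k) = k + 1 := by
  rw [V_eq_degreeLT, (degreeLTEquiv ℂ (k + 1)).finrank_eq]
  simp

lemma finite_of_le_V {W : Submodule ℂ ℂ[X]} {k : ℕ} (hW : W ≤ V k) : Module.Finite ℂ W :=
  Submodule.finiteDimensional_of_le hW

open Classical in
/-- degrees of nonzero elements of a space of polynomials of degree at most `k` -/
noncomputable def degs (W : Submodule ℂ ℂ[X]) (k : ℕ) : Finset ℕ :=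
  (Finset.range (k + 1)).filter fun n => ∃ p ∈ W, p ≠ 0 ∧ p.natDegree = n

lemma mem_degs {W : Submodule ℂ ℂ[X]} {k n : ℕ} (hW : W ≤ V k) :
    n ∈ degs W k ↔ ∃ p ∈ W, p ≠ 0 ∧ p.natDegree = n := by
  classical
  rw [degs, Finset.mem_filter, Finset.mem_range]
  constructor
  · exact fun h => h.2
  · rintro ⟨p, hp, h0, hn⟩
    refine ⟨?_, p, hp, h0, hn⟩
    have := mem_V.1 (hW hp)
    omega

lemma finrank_le_card_degs {W : Submodule ℂ ℂ[X]} {k : ℕ} (hW : W ≤ V k) :
    Module.finrank ℂ W ≤ (degs W k).card := by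
  classical
  let f : W →ₗ[ℂ] (degs W k → ℂ) := LinearMap.pi fun n => (lcoeff ℂ n.1).comp W.subtype
  have hf : Function.Injective f := by
    rw [injective_iff_map_eq_zero]
    rintro ⟨p, hp⟩ h0
    by_contra hne
    have hp0 : p ≠ 0 := by
      intro h; apply hne; ext1; simpa using h
    have hmem : p.natDegree ∈ degs W k := (mem_degs hW).2 ⟨p, hp, hp0, rfl⟩
    have := congrFun h0 ⟨p.natDegree, hmem⟩
    simp only [LinearMap.pi_apply, LinearMap.comp_apply, Submodule.subtype_apply, lcoeff_apply,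
      Pi.zero_apply, f] at this
    exact hp0 (leadingCoeff_eq_zero.1 this)
  have := LinearMap.finrank_le_finrank_of_injective hf
  simpa using this

lemma card_degs_le_finrank {W : Submodule ℂ ℂ[X]} {k : ℕ} (hW : W ≤ V k) :
    (degs W k).card ≤ Module.finrank ℂ W := by
  classical
  have := finite_of_le_V hW
  have hex : ∀ n : ℕ, ∃ p : ℂ[X], p.degree = n ∧ (n ∈ degs W k → p ∈ W) := by
    intro n
    by_cases hn : n ∈ degs W k
    · obtain ⟨p, hp, h0, hn'⟩ := (mem_degs hW).1 hn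
      exact ⟨p, by rw [degree_eq_natDegree h0, hn'], fun _ => hp⟩
    · exact ⟨X ^ n, by simp, fun h => absurd h hn⟩
  choose p hp hp' using hex
  let Sq : Polynomial.Sequence ℂ := ⟨p, hp⟩
  have hli : LinearIndependent ℂ (fun n : ℕ => p n) := Sq.linearIndependent
  have hli2 : LinearIndependent ℂ (fun n : degs W k => p n) :=
    hli.comp (fun n : degs W k => (n : ℕ)) Subtype.val_injective
  have hli3 : LinearIndependent ℂ (fun n : degs W k => (⟨p n, hp' n n.2⟩ : W)) := by
    apply LinearIndependent.of_comp W.subtype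
    exact hli2
  have := hli3.fintype_card_le_finrank
  simpa using this

/-- Superadditivity of dimensions of products of spaces of polynomials. -/
lemma finrank_mul_ge {A B C : Submodule ℂ ℂ[X]} {k m : ℕ} (hA : A ≤ V k) (hB : B ≤ V m)
    (hC : C ≤ V (k + m)) (h : ∀ a ∈ A, ∀ b ∈ B, a * b ∈ C) (hA0 : A ≠ ⊥) (hB0 : B ≠ ⊥) :
    Module.finrank ℂ A + Module.finrank ℂ B ≤ Module.finrank ℂ C + 1 := by
  classical
  have hne : ∀ {W : Submodule ℂ ℂ[X]} {k : ℕ}, W ≤ V k → W ≠ ⊥ → (degs W k).Nonempty := by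
    intro W k hW hW0
    obtain ⟨p, hp, hp0⟩ := Submodule.exists_mem_ne_zero_of_ne_bot hW0
    exact ⟨p.natDegree, (mem_degs hW).2 ⟨p, hp, hp0, rfl⟩⟩
  have hsub : degs A k + degs B m ⊆ degs C (k + m) := by
    intro n hn
    obtain ⟨a, ha, b, hb, rfl⟩ := Finset.mem_add.1 hn
    obtain ⟨p, hp, hp0, rfl⟩ := (mem_degs hA).1 ha
    obtain ⟨q, hq, hq0, rfl⟩ := (mem_degs hB).1 hb
    exact (mem_degs hC).2 ⟨p * q, h p hp q hq, mul_ne_zero hp0 hq0, natDegree_mul hp0 hq0⟩
  have hcd := cauchy_davenport_add_of_linearOrder_isCancelAdd (hne hA hA0) (hne hB hB0)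
  have h1 := Finset.card_le_card hsub
  have h2 := finrank_le_card_degs hA
  have h3 := finrank_le_card_degs hB
  have h4 := card_degs_le_finrank hC
  omega

end Pool.Agent.Lib.MP_ab0522
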