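import Mathlib
import Pool.Agent.Lib.MP_ab0522.Defs

/-!
# Abstract system extracted from a metric, a volume form, a filtration and adapted bases
-/

namespace Pool.Agent.Lib.MP_ab0522

open Polynomial MeasureTheory Filter Topology

/-- The facts about adapted orthonormal bases which are used in the proof. -/
structure Sys where
  φ : ℂ → ℝ
  A : ℝ
  growth : ∀ z : ℂ, 1 + ‖z‖ ^ 2 ≤ Real.exp A * Real.exp (φ z)
  F : GradedFiltration
  lam : (k : ℕ) → Fin (k + 1) → ℝ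
  s : (k : ℕ) → Fin (k + 1) → ℂ[X]
  jumping : ∀ k, IsJumping F k (lam k)
  adapted : ∀ k t, F.F k t = Submodule.span ℂ (s k '' {j | t ≤ lam k j})
  bm : ∀ ε : ℝ, 0 < ε → ∃ C : ℝ, 0 < C ∧ ∀ k i z,
    ‖(s k i).eval z‖ ^ 2 ≤ C * Real.exp (ε * k) * Real.exp (k * φ z)
  C₀ : ℝ
  C₀_pos : 0 < C₀
  dual : ∀ k (u : ℂ[X]), u ∈ V k → (∀ z, ‖u.eval z‖ ^ 2 ≤ Real.exp (k * φ z)) →
    ∃ a : Fin (k + 1) → ℂ, u = ∑ i, a i • s k i ∧ (∀ i, ‖a i‖ ^ 2 ≤ C₀) ∧
      ∀ t, u ∈ F.F k t → ∀ i, lam k i < t → a i = 0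

namespace Sys

variable (S : Sys)

/-- the weighted sum of squares -/
noncomputable def K (k : ℕ) (f : ℝ → ℝ) (z : ℂ) : ℝ :=
  ∑ i, ‖(S.s k i).eval z‖ ^ 2 * Real.exp (-(k * f (S.lam k i / k)))

/-- `φ_k^f` -/
noncomputable def phi (k : ℕ) (f : ℝ → ℝ) (z : ℂ) : ℝ := (k : ℝ)⁻¹ * Real.log (S.K k f z)

/-- `ψ` is the upper limit of `φ_k^f` -/
def Conv (f : ℝ → ℝ) (ψ : ℂ → ℝ) : Prop := ∀ z, IsUpperLimit (fun k => S.phi k f z) (ψ z)

lemma K_nonneg (k : ℕ) (f : ℝ → ℝ) (z : ℂ) : 0 ≤ S.K k f z :=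
  Finset.sum_nonneg fun _ _ => by positivity

end Sys

lemma tendsto_log_div_nat {C : ℝ} (hC : 0 < C) :
    Tendsto (fun n : ℕ => Real.log (((n : ℝ) + 1) * C) / n) atTop (𝓝 0) := by
  have h1 : Tendsto (fun x : ℝ => Real.log x / x) atTop (𝓝 0) := by
    simpa using (Real.isLittleO_log_id_atTop.tendsto_div_nhds_zero)
  have h2 : Tendsto (fun n : ℕ => Real.log ((n : ℝ) + 1) / n) atTop (𝓝 0) := by
    have h3 : Tendsto (fun n : ℕ => (n : ℝ) + 1) atTop atTop :=
      tendsto_atTop_add_const_right _ _ tendsto_natCast_atTop_atTop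
    have h4 := h1.comp h3
    have h5 : Tendsto (fun n : ℕ => ((n : ℝ) + 1) / n) atTop (𝓝 1) := by
      have : Tendsto (fun n : ℕ => 1 + 1 / (n : ℝ)) atTop (𝓝 (1 + 0)) :=
        tendsto_const_nhds.add tendsto_one_div_atTop_nhds_zero_nat
      rw [add_zero] at this
      refine this.congr' ?_
      filter_upwards [eventually_gt_atTop 0] with n hn
      have : (n : ℝ) ≠ 0 := by positivity
      field_simp
    have h6 := h4.mul h5
    rw [zero_mul] at h6
    refine h6.congr' ?_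
    filter_upwards [eventually_gt_atTop 0] with n hn
    have : (n : ℝ) ≠ 0 := by positivity
    simp only [Function.comp]
    field_simp
  have h7 : Tendsto (fun n : ℕ => Real.log C / (n : ℝ)) atTop (𝓝 0) :=
    tendsto_const_div_atTop_nhds_zero_nat _
  have h8 := h2.add h7
  rw [add_zero] at h8
  refine h8.congr fun n => ?_
  rw [Real.log_mul (by positivity) hC.ne', add_div]

lemma F_pow_mem (F : GradedFiltration) {k : ℕ} {t : ℝ} {u : ℂ[X]} (hu : u ∈ F.F k t) (m : ℕ)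
    (hm : 1 ≤ m) : u ^ m ∈ F.F (k * m) (m * t) := by
  induction m, hm using Nat.le_induction with
  | base => simpa using hu
  | succ m hm ih =>
    have := F.mul_mem _ _ _ _ _ _ ih hu
    rw [pow_succ]
    have e1 : k * m + k = k * (m + 1) := by ring
    have e2 : (m : ℝ) * t + t = ((m + 1 : ℕ) : ℝ) * t := by push_cast; ring
    rwa [e1, e2] at this

namespace Sys

variable (S : Sys)

/-- For a nonzero value of an admissible section of `F^t V_k` the sum `K` is positive, and we get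
the basic estimate. -/
lemma value_le {k : ℕ} (hk : 1 ≤ k) {f : ℝ → ℝ} (hf : Antitone f) {t : ℝ} {u : ℂ[X]}
    (hu : u ∈ S.F.F k t) (hb : ∀ z, ‖u.eval z‖ ^ 2 ≤ Real.exp (k * S.φ z)) (z : ℂ) :
    ‖u.eval z‖ ^ 2 ≤ ((k : ℝ) + 1) * S.C₀ * Real.exp (k * f (t / k)) * S.K k f z := by
  obtain ⟨a, hua, ha, hat⟩ := S.dual k u (S.F.le_V _ _ hu) hb
  have hk' : (0 : ℝ) < k := by exact_mod_cast hk
  have h1 : u.eval z = ∑ i, a i * (S.s k i).eval z := by
    conv_lhs => rw [hua]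
    simp [eval_finsetSum]
  have h2 : ‖u.eval z‖ ^ 2 ≤ ((k : ℝ) + 1) * ∑ i, ‖a i‖ ^ 2 * ‖(S.s k i).eval z‖ ^ 2 := by
    rw [h1]
    calc ‖∑ i, a i * (S.s k i).eval z‖ ^ 2 ≤ (∑ i, ‖a i * (S.s k i).eval z‖) ^ 2 := by
          gcongr; exact norm_sum_le _ _
      _ ≤ (Finset.univ : Finset (Fin (k + 1))).card * ∑ i, ‖a i * (S.s k i).eval z‖ ^ 2 :=
          sq_sum_le_card_mul_sum_sq
      _ = ((k : ℝ) + 1) * ∑ i, ‖a i‖ ^ 2 * ‖(S.s k i).eval z‖ ^ 2 := by
          simp [mul_pow]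
  refine h2.trans ?_
  rw [mul_assoc, mul_assoc]
  gcongr
  rw [K, Finset.mul_sum, Finset.mul_sum]
  refine Finset.sum_le_sum fun i _ => ?_
  by_cases hi : S.lam k i < t
  · rw [hat t hu i hi]
    simp only [norm_zero, ne_eq, OfNat.ofNat_ne_zero, not_false_eq_true, zero_pow, zero_mul]
    have := S.C₀_pos
    positivity
  · push Not at hi
    have h3 : f (S.lam k i / k) ≤ f (t / k) := hf (by gcongr)
    have h4 : (1 : ℝ) ≤ Real.exp (k * f (t / k)) * Real.exp (-(k * f (S.lam k i / k))) := by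
      rw [← Real.exp_add]
      apply Real.one_le_exp
      nlinarith
    calc ‖a i‖ ^ 2 * ‖(S.s k i).eval z‖ ^ 2 ≤ S.C₀ * ‖(S.s k i).eval z‖ ^ 2 := by
          gcongr; exact ha i
      _ ≤ S.C₀ * ‖(S.s k i).eval z‖ ^ 2 *
          (Real.exp (k * f (t / k)) * Real.exp (-(k * f (S.lam k i / k)))) := by
          have := S.C₀_pos
          exact le_mul_of_one_le_right (by positivity) h4
      _ = _ := by ring

/-- The power trick: admissible sections of `F^t V_k` are bounded by the limit `ψ`. -/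
lemma atom_le {f : ℝ → ℝ} (hf : Antitone f) {ψ : ℂ → ℝ} (hψ : S.Conv f ψ) {k : ℕ} (hk : 1 ≤ k)
    {t : ℝ} {u : ℂ[X]} (hu : u ∈ S.F.F k t)
    (hb : ∀ z, ‖u.eval z‖ ^ 2 ≤ Real.exp (k * S.φ z)) (z : ℂ) :
    ‖u.eval z‖ ^ 2 ≤ Real.exp (k * (f (t / k) + ψ z)) := by
  by_cases hz : u.eval z = 0
  · rw [hz]; simp only [norm_zero, ne_eq, OfNat.ofNat_ne_zero, not_false_eq_true, zero_pow]
    positivity
  have hk' : (0 : ℝ) < k := by exact_mod_cast hk
  have hpos : 0 < ‖u.eval z‖ ^ 2 := by positivity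
  have key : ∀ m : ℕ, 1 ≤ m → Real.log (‖u.eval z‖ ^ 2) / k ≤
      Real.log ((((k * m : ℕ) : ℝ) + 1) * S.C₀) / ((k * m : ℕ) : ℝ) + f (t / k) +
        S.phi (k * m) f z := by
    intro m hm
    have hm' : (0 : ℝ) < m := by exact_mod_cast hm
    have hkm : 1 ≤ k * m := Nat.one_le_iff_ne_zero.mpr (by positivity)
    have hkm' : (0 : ℝ) < ((k * m : ℕ) : ℝ) := by exact_mod_cast hkm
    have hb' : ∀ z, ‖(u ^ m).eval z‖ ^ 2 ≤ Real.exp (((k * m : ℕ) : ℝ) * S.φ z) := by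
      intro z
      rw [eval_pow, norm_pow, ← pow_mul, mul_comm m 2, pow_mul]
      calc (‖u.eval z‖ ^ 2) ^ m ≤ (Real.exp (k * S.φ z)) ^ m := by gcongr; exact hb z
        _ = Real.exp (((k * m : ℕ) : ℝ) * S.φ z) := by
          rw [← Real.exp_nat_mul]; congr 1; push_cast; ring
    have h1 := S.value_le hkm hf (F_pow_mem S.F hu m hm) hb' z
    rw [eval_pow, norm_pow, ← pow_mul, mul_comm m 2, pow_mul] at h1
    have e1 : (m : ℝ) * t / ((k * m : ℕ) : ℝ) = t / k := by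
      push_cast; field_simp
    rw [e1] at h1
    have hK : 0 < S.K (k * m) f z := by
      by_contra hK
      push Not at hK
      have : S.K (k * m) f z = 0 := le_antisymm hK (S.K_nonneg _ _ _)
      rw [this, mul_zero] at h1
      have : 0 < (‖u.eval z‖ ^ 2) ^ m := by positivity
      linarith
    have hC := S.C₀_pos
    have h2 := Real.log_le_log (by positivity) h1
    rw [Real.log_pow, Real.log_mul (by positivity) hK.ne', Real.log_mul (by positivity)
      (by positivity), Real.log_exp] at h2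
    have h3 : Real.log (S.K (k * m) f z) = ((k * m : ℕ) : ℝ) * S.phi (k * m) f z := by
      rw [phi]; field_simp
    rw [h3] at h2
    have h4 : Real.log (‖u.eval z‖ ^ 2) / k = (m * Real.log (‖u.eval z‖ ^ 2)) / ((k * m : ℕ) : ℝ) := by
      push_cast; field_simp
    rw [h4, div_le_iff₀ hkm']
    have h5 : (Real.log ((((k * m : ℕ) : ℝ) + 1) * S.C₀) / ((k * m : ℕ) : ℝ) + f (t / k) +
        S.phi (k * m) f z) * ((k * m : ℕ) : ℝ) = Real.log ((((k * m : ℕ) : ℝ) + 1) * S.C₀) +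
        ((k * m : ℕ) : ℝ) * f (t / k) + ((k * m : ℕ) : ℝ) * S.phi (k * m) f z := by
      field_simp
    rw [h5]
    exact h2
  have h6 : Real.log (‖u.eval z‖ ^ 2) / k ≤ f (t / k) + ψ z := by
    refine le_of_forall_pos_le_add fun ε hε => ?_
    have hkm : Tendsto (fun m : ℕ => k * m) atTop atTop :=
      tendsto_id.const_mul_atTop' (by omega)
    have e1 := ((tendsto_log_div_nat S.C₀_pos).comp hkm).eventually
      (gt_mem_nhds (show 0 < ε / 2 by positivity))
    have e2 := hkm.eventually (hψ z (ε / 2) (by positivity)).1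
    obtain ⟨m, hm1, hm2, hm3⟩ := (e1.and (e2.and (eventually_ge_atTop 1))).exists
    have := key m hm3
    simp only [Function.comp] at hm1
    linarith
  rw [div_le_iff₀ hk'] at h6
  rw [← Real.log_le_iff_le_exp hpos]
  linarith

end Sys

end Pool.Agent.Lib.MP_ab0522
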