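import Mathlib
import Pool.Agent.Lib.MP_ab0522.Sys
import Pool.Agent.Lib.MP_ab0522.Super

/-!
# Counting jumping numbers with the Duistermaat-Heckman measure
-/

namespace Pool.Agent.Lib.MP_ab0522

open Polynomial MeasureTheory Filter Topology

open Classical in
/-- number of indices with `λ_{i,k} / k ∈ P` -/
noncomputable def cnt (lam : (k : ℕ) → Fin (k + 1) → ℝ) (k : ℕ) (P : Set ℝ) : ℕ :=
  (Finset.univ.filter fun i : Fin (k + 1) => lam k i / k ∈ P).card

lemma cnt_le (lam : (k : ℕ) → Fin (k + 1) → ℝ) (k : ℕ) (P : Set ℝ) : cnt lam k P ≤ k + 1 := by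
  classical
  rw [cnt]
  refine (Finset.card_filter_le _ _).trans ?_
  simp

lemma cnt_mono (lam : (k : ℕ) → Fin (k + 1) → ℝ) (k : ℕ) {P Q : Set ℝ} (h : P ⊆ Q) :
    cnt lam k P ≤ cnt lam k Q := by
  classical
  rw [cnt, cnt]
  refine Finset.card_le_card ?_
  intro i hi
  rw [Finset.mem_filter] at hi ⊢
  exact ⟨hi.1, h hi.2⟩

lemma cnt_eq_zero {lam : (k : ℕ) → Fin (k + 1) → ℝ} {k : ℕ} {P : Set ℝ}
    (h : ∀ i, lam k i / k ∉ P) : cnt lam k P = 0 := by
  classical
  rw [cnt, Finset.card_eq_zero, Finset.filter_eq_empty_iff]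
  intro i _
  exact h i

lemma cnt_compl (lam : (k : ℕ) → Fin (k + 1) → ℝ) (k : ℕ) (P : Set ℝ) :
    cnt lam k P + cnt lam k Pᶜ = k + 1 := by
  classical
  rw [cnt, cnt]
  have := Finset.card_filter_add_card_filter_not (s := (Finset.univ : Finset (Fin (k + 1))))
    (fun i : Fin (k + 1) => lam k i / k ∈ P)
  simp only [Finset.card_univ, Fintype.card_fin] at this
  simpa using this

/-- weak convergence of the normalised counting measures -/
def WeakLim (lam : (k : ℕ) → Fin (k + 1) → ℝ) (σ : Measure ℝ) : Prop :=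
  ∀ g : BoundedContinuousFunction ℝ ℝ,
      Tendsto (fun k : ℕ => (k : ℝ)⁻¹ * ∑ i, g (lam k i / k)) atTop (𝓝 (∫ x, g x ∂σ))

/-- the normalised empirical measure -/
noncomputable def emp (lam : (k : ℕ) → Fin (k + 1) → ℝ) (k : ℕ) : Measure ℝ :=
  ((k + 1 : ℕ) : ENNReal)⁻¹ • ∑ i : Fin (k + 1), Measure.dirac (lam k i / k)

lemma emp_apply (lam : (k : ℕ) → Fin (k + 1) → ℝ) (k : ℕ) {P : Set ℝ} (hP : MeasurableSet P) :
    emp lam k P = ((k + 1 : ℕ) : ENNReal)⁻¹ * cnt lam k P := by
  classical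
  rw [emp, Measure.smul_apply, Measure.finsetSum_apply, smul_eq_mul, cnt,
    Finset.card_filter]
  congr 1
  push_cast
  refine Finset.sum_congr rfl fun i _ => ?_
  rw [Measure.dirac_apply' _ hP]
  by_cases h : lam k i / k ∈ P <;> simp [h]

instance emp_prob (lam : (k : ℕ) → Fin (k + 1) → ℝ) (k : ℕ) : IsProbabilityMeasure (emp lam k) := by
  constructor
  rw [emp_apply _ _ MeasurableSet.univ]
  have : cnt lam k Set.univ = k + 1 := by
    classical
    rw [cnt]; simp
  rw [this]
  exact ENNReal.inv_mul_cancel (by positivity) (by finiteness)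

lemma integral_emp (lam : (k : ℕ) → Fin (k + 1) → ℝ) (k : ℕ) (g : BoundedContinuousFunction ℝ ℝ) :
    ∫ x, g x ∂(emp lam k) = ((k : ℝ) + 1)⁻¹ * ∑ i, g (lam k i / k) := by
  rw [emp, integral_smul_measure, integral_finsetSum_measure]
  · simp only [integral_dirac, smul_eq_mul]
    congr 1
    simp
    norm_cast
  · intro i _
    exact integrable_dirac (by simp)

lemma measure_univ_eq_one {lam : (k : ℕ) → Fin (k + 1) → ℝ} {σ : Measure ℝ} [IsFiniteMeasure σ]
    (h : WeakLim lam σ) : IsProbabilityMeasure σ := by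
  have h1 := h (BoundedContinuousFunction.const ℝ 1)
  simp only [BoundedContinuousFunction.const_apply, Finset.sum_const, Finset.card_univ,
    Fintype.card_fin, nsmul_eq_mul, mul_one, integral_const, smul_eq_mul] at h1
  have h2 : Tendsto (fun k : ℕ => (k : ℝ)⁻¹ * ((k + 1 : ℕ) : ℝ)) atTop (𝓝 1) := by
    have : Tendsto (fun n : ℕ => 1 + 1 / (n : ℝ)) atTop (𝓝 (1 + 0)) :=
      tendsto_const_nhds.add tendsto_one_div_atTop_nhds_zero_nat
    rw [add_zero] at this
    refine this.congr' ?_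
    filter_upwards [eventually_gt_atTop 0] with n hn
    have : (n : ℝ) ≠ 0 := by positivity
    push_cast
    field_simp
  have h3 := tendsto_nhds_unique h1 h2
  constructor
  have h4 : σ.real Set.univ = 1 := by linarith
  rw [Measure.real, ENNReal.toReal_eq_one_iff] at h4
  exact h4

/-- the empirical measure as a bundled probability measure -/
noncomputable def empP (lam : (k : ℕ) → Fin (k + 1) → ℝ) (k : ℕ) : ProbabilityMeasure ℝ :=
  ⟨emp lam k, emp_prob lam k⟩

/-- bundling a probability measure -/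
noncomputable def toP (σ : Measure ℝ) [h : IsProbabilityMeasure σ] : ProbabilityMeasure ℝ := ⟨σ, h⟩

lemma tendsto_emp {lam : (k : ℕ) → Fin (k + 1) → ℝ} {σ : Measure ℝ} [IsProbabilityMeasure σ]
    (h : WeakLim lam σ) : Tendsto (empP lam) atTop (𝓝 (toP σ)) := by
  rw [ProbabilityMeasure.tendsto_iff_forall_integral_tendsto]
  intro g
  simp only [empP, toP, ProbabilityMeasure.coe_mk, integral_emp]
  have h1 := h g
  have h2 : Tendsto (fun k : ℕ => (k : ℝ) / ((k : ℝ) + 1)) atTop (𝓝 1) :=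
    tendsto_natCast_div_add_atTop 1
  have h3 := h2.mul h1
  rw [one_mul] at h3
  refine h3.congr' ?_
  filter_upwards [eventually_gt_atTop 0] with n hn
  have : (n : ℝ) ≠ 0 := by positivity
  field_simp

lemma cnt_open {lam : (k : ℕ) → Fin (k + 1) → ℝ} {σ : Measure ℝ} [IsProbabilityMeasure σ]
    (h : WeakLim lam σ) {O : Set ℝ} (hO : IsOpen O) {ε : ℝ} (hε : 0 < ε) :
    ∀ᶠ k : ℕ in atTop, (σ.real O - ε) * k ≤ cnt lam k O := by
  have h1 := ProbabilityMeasure.le_liminf_measure_open_of_tendsto (tendsto_emp h) hO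
  simp only [empP, toP, ProbabilityMeasure.coe_mk] at h1
  by_cases h0 : σ.real O ≤ ε
  · filter_upwards with k
    have : (σ.real O - ε) * k ≤ 0 := mul_nonpos_of_nonpos_of_nonneg (by linarith) (by positivity)
    exact this.trans (by positivity)
  · push Not at h0
    have h2 : ENNReal.ofReal (σ.real O - ε) < liminf (fun i => (emp lam i) O) atTop := by
      refine lt_of_lt_of_le ?_ h1
      rw [ENNReal.ofReal_lt_iff_lt_toReal (by linarith) (measure_ne_top _ _)]
      change σ.real O - ε < σ.real O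
      linarith
    filter_upwards [eventually_lt_of_lt_liminf h2] with k hk
    rw [emp_apply _ _ hO.measurableSet] at hk
    rw [ENNReal.ofReal_lt_iff_lt_toReal (by linarith) (by finiteness)] at hk
    rw [ENNReal.toReal_mul, ENNReal.toReal_inv, ENNReal.toReal_natCast, ENNReal.toReal_natCast] at hk
    have hk1 : (0 : ℝ) < ((k + 1 : ℕ) : ℝ) := by positivity
    rw [inv_mul_eq_div, lt_div_iff₀ hk1] at hk
    push_cast at hk
    nlinarith

lemma cnt_closed {lam : (k : ℕ) → Fin (k + 1) → ℝ} {σ : Measure ℝ} [IsProbabilityMeasure σ]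
    (h : WeakLim lam σ) {P : Set ℝ} (hP : IsClosed P) {ε : ℝ} (hε : 0 < ε) :
    ∀ᶠ k : ℕ in atTop, (cnt lam k P : ℝ) ≤ (σ.real P + ε) * k := by
  have h1 := cnt_open h hP.isOpen_compl (half_pos hε)
  have h2 : σ.real Pᶜ = 1 - σ.real P := by
    rw [measureReal_compl hP.measurableSet]; simp
  have h3 : ∀ᶠ k : ℕ in atTop, 1 ≤ ε / 2 * k := by
    have : Tendsto (fun k : ℕ => ε / 2 * (k : ℝ)) atTop atTop :=
      tendsto_natCast_atTop_atTop.const_mul_atTop (by positivity)
    exact this.eventually_ge_atTop 1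
  filter_upwards [h1, h3] with k hk hk3
  have h4 := cnt_compl lam k P
  have h5 : (cnt lam k P : ℝ) + cnt lam k Pᶜ = k + 1 := by exact_mod_cast h4
  rw [h2] at hk
  linarith

end Pool.Agent.Lib.MP_ab0522
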