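import Mathlib
import Pool.Agent.Lib.MP_ab0522.DH

/-!
# Concavity of the survival function of the Duistermaat-Heckman measure and consequences
-/

namespace Pool.Agent.Lib.MP_ab0522

open Polynomial MeasureTheory Filter Topology

namespace Sys

variable (S : Sys)

lemma finrank_eq_cnt {k : ℕ} (hk : 1 ≤ k) (x : ℝ) :
    Module.finrank ℂ (S.F.F k (k * x)) = cnt S.lam k (Set.Ici x) := by
  classical
  rw [(S.jumping k).2, cnt]
  congr 1
  ext i
  simp only [Finset.mem_filter, Finset.mem_univ, true_and, Set.mem_Ici]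
  have hk' : (0 : ℝ) < k := by exact_mod_cast hk
  rw [le_div_iff₀ hk', mul_comm]

lemma F_ne_bot_of_cnt {k : ℕ} (hk : 1 ≤ k) {x : ℝ} (h : 0 < cnt S.lam k (Set.Ici x)) :
    S.F.F k (k * x) ≠ ⊥ := by
  intro h0
  have := S.finrank_eq_cnt hk x
  rw [h0, finrank_bot] at this
  omega

/-- Superadditivity in terms of counts. -/
lemma cnt_superadd {k m : ℕ} (hk : 1 ≤ k) (hm : 1 ≤ m) {x y : ℝ}
    (hx : S.F.F k (k * x) ≠ ⊥) (hy : S.F.F m (m * y) ≠ ⊥) :
    cnt S.lam k (Set.Ici x) + cnt S.lam m (Set.Ici y) ≤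
      cnt S.lam (k + m) (Set.Ici ((k * x + m * y) / (k + m))) + 1 := by
  rw [← S.finrank_eq_cnt hk, ← S.finrank_eq_cnt hm, ← S.finrank_eq_cnt (by omega)]
  have e : (((k + m : ℕ) : ℝ)) * ((k * x + m * y) / (k + m)) = k * x + m * y := by
    have : ((k : ℝ) + m) ≠ 0 := by positivity
    push_cast
    field_simp
  rw [e]
  exact finrank_mul_ge (S.F.le_V _ _) (S.F.le_V _ _) (S.F.le_V _ _)
    (fun a ha b hb => S.F.mul_mem _ _ _ _ _ _ ha hb) hx hy

lemma F_pow_ne_bot {k : ℕ} {t : ℝ} (h : S.F.F k t ≠ ⊥) (m : ℕ) (hm : 1 ≤ m) :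
    S.F.F (k * m) (m * t) ≠ ⊥ := by
  obtain ⟨u, hu, hu0⟩ := Submodule.exists_mem_ne_zero_of_ne_bot h
  intro h0
  have h1 := F_pow_mem S.F hu m hm
  rw [h0, Submodule.mem_bot] at h1
  exact hu0 (pow_eq_zero_iff (by omega) |>.1 h1)

/-- The basic inequality. -/
lemma key_ineq {σ : Measure ℝ} [IsProbabilityMeasure σ] (hσ : WeakLim S.lam σ) {t l : ℝ} {k₀ : ℕ}
    (hk₀ : 1 ≤ k₀) (ht : S.F.F k₀ (k₀ * t) ≠ ⊥) (hl : σ.real (Set.Ioi l) = 1) {p r : ℕ}
    (hp : 1 ≤ p) (hr : 1 ≤ r) :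
    (p + r * σ.real (Set.Ioi t)) / (p + r) ≤ σ.real (Set.Ici ((p * l + r * t) / (p + r))) := by
  set μ := ((p : ℝ) * l + r * t) / (p + r) with hμ
  have hpr : (0 : ℝ) < (p : ℝ) + r := by positivity
  refine le_of_forall_pos_le_add fun ε hε => ?_
  set η := ε / 4 with hη
  have hηpos : 0 < η := by positivity
  set D : ℕ := (p + r) * k₀ with hD
  have hk1 : Tendsto (fun m : ℕ => p * k₀ * m) atTop atTop :=
    tendsto_id.const_mul_atTop' (by positivity)
  have hk2 : Tendsto (fun m : ℕ => r * k₀ * m) atTop atTop :=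
    tendsto_id.const_mul_atTop' (by positivity)
  have hk3 : Tendsto (fun m : ℕ => (p + r) * k₀ * m) atTop atTop :=
    tendsto_id.const_mul_atTop' (by positivity)
  have e1 := hk1.eventually (cnt_open hσ isOpen_Ioi (O := Set.Ioi l) hηpos)
  have e2 := hk2.eventually (cnt_open hσ isOpen_Ioi (O := Set.Ioi t) hηpos)
  have e3 := hk3.eventually (cnt_closed hσ isClosed_Ici (P := Set.Ici μ) hηpos)
  have e4 : ∀ᶠ m : ℕ in atTop, 1 ≤ η * (((p + r) * k₀ * m : ℕ) : ℝ) := by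
    have : Tendsto (fun m : ℕ => η * (((p + r) * k₀ * m : ℕ) : ℝ)) atTop atTop :=
      (tendsto_natCast_atTop_atTop.comp hk3).const_mul_atTop hηpos
    exact this.eventually_ge_atTop 1
  have e5 : ∀ᶠ m : ℕ in atTop, 1 < (1 - 1 / 2 : ℝ) * ((p * k₀ * m : ℕ) : ℝ) := by
    have : Tendsto (fun m : ℕ => (1 - 1 / 2 : ℝ) * (((p * k₀ * m : ℕ) : ℝ))) atTop atTop :=
      (tendsto_natCast_atTop_atTop.comp hk1).const_mul_atTop (by norm_num)
    exact this.eventually_gt_atTop 1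
  have e6 := hk1.eventually (cnt_open hσ isOpen_Ioi (O := Set.Ioi l) (ε := 1 / 2) (by norm_num))
  obtain ⟨m, h1, h2, h3, h4, h5, h6, hm⟩ := (e1.and (e2.and (e3.and (e4.and (e5.and (e6.and
    (eventually_ge_atTop 1))))))).exists
  rw [hl] at h1 h6
  have hm' : (0 : ℝ) < m := by exact_mod_cast hm
  have hk₀' : (0 : ℝ) < k₀ := by exact_mod_cast hk₀
  have hn1 : 1 ≤ p * k₀ * m := Nat.one_le_iff_ne_zero.mpr (by positivity)
  have hn2 : 1 ≤ r * k₀ * m := Nat.one_le_iff_ne_zero.mpr (by positivity)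
  have c1 : 0 < cnt S.lam (p * k₀ * m) (Set.Ici l) := by
    have : (0 : ℝ) < cnt S.lam (p * k₀ * m) (Set.Ioi l) := by linarith
    have h7 : 0 < cnt S.lam (p * k₀ * m) (Set.Ioi l) := by exact_mod_cast this
    exact h7.trans_le (cnt_mono _ _ Set.Ioi_subset_Ici_self)
  have hne1 := S.F_ne_bot_of_cnt hn1 c1
  have hne2 : S.F.F (r * k₀ * m) (((r * k₀ * m : ℕ) : ℝ) * t) ≠ ⊥ := by
    have := S.F_pow_ne_bot ht (r * m) (Nat.one_le_iff_ne_zero.mpr (by positivity))
    have e1 : k₀ * (r * m) = r * k₀ * m := by ring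
    have e2 : ((r * m : ℕ) : ℝ) * ((k₀ : ℝ) * t) = ((r * k₀ * m : ℕ) : ℝ) * t := by
      push_cast; ring
    rwa [e1, e2] at this
  have hsup := S.cnt_superadd hn1 hn2 hne1 hne2
  have e7 : p * k₀ * m + r * k₀ * m = (p + r) * k₀ * m := by ring
  have e8 : ((((p * k₀ * m : ℕ) : ℝ) * l + ((r * k₀ * m : ℕ) : ℝ) * t) /
      (((p * k₀ * m : ℕ) : ℝ) + ((r * k₀ * m : ℕ) : ℝ))) = μ := by
    rw [hμ]; push_cast; field_simp
  rw [e7, e8] at hsup
  have hsup' : (cnt S.lam (p * k₀ * m) (Set.Ici l) : ℝ) + cnt S.lam (r * k₀ * m) (Set.Ici t) ≤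
      cnt S.lam ((p + r) * k₀ * m) (Set.Ici μ) + 1 := by exact_mod_cast hsup
  have m1 : (cnt S.lam (p * k₀ * m) (Set.Ioi l) : ℝ) ≤ cnt S.lam (p * k₀ * m) (Set.Ici l) := by
    exact_mod_cast cnt_mono _ _ Set.Ioi_subset_Ici_self
  have m2 : (cnt S.lam (r * k₀ * m) (Set.Ioi t) : ℝ) ≤ cnt S.lam (r * k₀ * m) (Set.Ici t) := by
    exact_mod_cast cnt_mono _ _ Set.Ioi_subset_Ici_self
  have h8 : (1 - η) * ((p * k₀ * m : ℕ) : ℝ) + (σ.real (Set.Ioi t) - η) * ((r * k₀ * m : ℕ) : ℝ) ≤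
      (σ.real (Set.Ici μ) + η) * (((p + r) * k₀ * m : ℕ) : ℝ) + 1 := by
    linarith
  push_cast at h8 h4
  rw [div_le_iff₀ hpr]
  have hX : (0 : ℝ) < (k₀ : ℝ) * m := by positivity
  have h9 : ((p : ℝ) + r * σ.real (Set.Ioi t)) * (k₀ * m) ≤
      ((σ.real (Set.Ici μ) + ε) * (p + r)) * (k₀ * m) := by
    rw [hη] at h8 h4
    nlinarith
  exact le_of_mul_le_mul_right h9 hX

lemma real_Ioi_eq_one {σ : Measure ℝ} [IsProbabilityMeasure σ] {a l : ℝ}
    (ha : a ∈ lowerBounds σ.support) (hl : l < a) : σ.real (Set.Ioi l) = 1 := by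
  have h1 : σ (Set.Iio a) = 0 := by
    have : Set.Iio a ⊆ σ.supportᶜ := fun x hx hx' => absurd (ha hx') (not_le.2 hx)
    refine measure_mono_null this ?_
    exact Measure.measure_compl_support
  have h2 : σ (Set.Ioi l)ᶜ = 0 := by
    rw [Set.compl_Ioi]
    exact measure_mono_null (Set.Iic_subset_Iio.2 hl) h1
  have h3 := prob_compl_eq_zero_iff (μ := σ) (measurableSet_Ioi (a := l))
  rw [Measure.real, h3.1 h2]
  simp

lemma real_Ioi_eq_zero {σ : Measure ℝ} [IsProbabilityMeasure σ] {b : ℝ}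
    (hb : b ∈ upperBounds σ.support) : σ.real (Set.Ioi b) = 0 := by
  have h1 : σ (Set.Ioi b) = 0 := by
    have : Set.Ioi b ⊆ σ.supportᶜ := fun x hx hx' => absurd (hb hx') (not_le.2 hx)
    exact measure_mono_null this Measure.measure_compl_support
  rw [Measure.real, h1]; simp

lemma real_Ioi_pos {σ : Measure ℝ} [IsProbabilityMeasure σ] {b t : ℝ}
    (hb : b ∈ σ.support) (ht : t < b) : 0 < σ.real (Set.Ioi t) := by
  have := (Measure.mem_support_iff_forall b).1 hb (Set.Ioi t) (Ioi_mem_nhds ht)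
  exact ENNReal.toReal_pos this.ne' (measure_ne_top _ _)

lemma real_Iio_pos {σ : Measure ℝ} [IsProbabilityMeasure σ] {a t : ℝ}
    (ha : a ∈ σ.support) (ht : a < t) : 0 < σ.real (Set.Iio t) := by
  have := (Measure.mem_support_iff_forall a).1 ha (Set.Iio t) (Iio_mem_nhds ht)
  exact ENNReal.toReal_pos this.ne' (measure_ne_top _ _)

/-- nonvanishing of the filtration below the top of the support -/
lemma exists_F_ne_bot {σ : Measure ℝ} [IsProbabilityMeasure σ] (hσ : WeakLim S.lam σ) {b t : ℝ}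
    (hb : b ∈ σ.support) (ht : t < b) : ∃ k₀ : ℕ, 1 ≤ k₀ ∧ S.F.F k₀ (k₀ * t) ≠ ⊥ := by
  have hpos := real_Ioi_pos hb ht
  obtain ⟨k, hk, hk1⟩ := ((cnt_open hσ isOpen_Ioi (O := Set.Ioi t) (half_pos hpos)).and
    (eventually_ge_atTop 1)).exists
  refine ⟨k, hk1, S.F_ne_bot_of_cnt hk1 ?_⟩
  have hk' : (0 : ℝ) < k := by exact_mod_cast hk1
  have h1 : (0 : ℝ) < cnt S.lam k (Set.Ioi t) := by
    refine lt_of_lt_of_le ?_ hk
    have : σ.real (Set.Ioi t) - σ.real (Set.Ioi t) / 2 = σ.real (Set.Ioi t) / 2 := by ring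
    rw [this]; positivity
  have h2 : 0 < cnt S.lam k (Set.Ioi t) := by exact_mod_cast h1
  exact h2.trans_le (cnt_mono _ _ Set.Ioi_subset_Ici_self)

/-- (W1) no jumping number beyond the support -/
lemma lam_le {σ : Measure ℝ} [IsProbabilityMeasure σ] (hσ : WeakLim S.lam σ) {a b : ℝ}
    (ha : IsLeast σ.support a) (hb : IsGreatest σ.support b) {k : ℕ} (hk : 1 ≤ k)
    (i : Fin (k + 1)) : S.lam k i / k ≤ b := by
  by_contra hcon
  push Not at hcon
  set t := S.lam k i / k with ht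
  have hk' : (0 : ℝ) < k := by exact_mod_cast hk
  have hne : S.F.F k (k * t) ≠ ⊥ := by
    apply S.F_ne_bot_of_cnt hk
    classical
    rw [cnt, Finset.card_pos]
    exact ⟨i, by simp [ht]⟩
  -- choose `r` large
  obtain ⟨r, hr⟩ := exists_nat_gt ((b - (a - 1)) / (t - b))
  have htb : 0 < t - b := by linarith
  have hab : a ≤ b := ha.2 hb.1
  have hr1 : 1 ≤ r := by
    rw [Nat.one_le_iff_ne_zero]
    rintro rfl
    have : 0 < (b - (a - 1)) / (t - b) := div_pos (by linarith) htb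
    simp only [Nat.cast_zero] at hr
    linarith
  rw [div_lt_iff₀ htb] at hr
  have hkey := S.key_ineq hσ hk hne (real_Ioi_eq_one ha.2 (l := a - 1) (by linarith))
    (p := 1) le_rfl hr1
  have hr0 : (0 : ℝ) < r := by exact_mod_cast hr1
  have hμ : b < ((1 : ℕ) * (a - 1) + r * t) / ((1 : ℕ) + r) := by
    rw [lt_div_iff₀ (by positivity)]
    push_cast
    nlinarith
  have h0 : σ.real (Set.Ici (((1 : ℕ) * (a - 1) + r * t) / ((1 : ℕ) + r))) = 0 := by
    have h1 := real_Ioi_eq_zero (σ := σ) hb.2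
    have h2 : σ.real (Set.Ici (((1 : ℕ) * (a - 1) + r * t) / ((1 : ℕ) + r))) ≤
        σ.real (Set.Ioi b) := measureReal_mono (Set.Ici_subset_Ioi.2 hμ)
    exact le_antisymm (by linarith) (by positivity)
  rw [h0] at hkey
  have : (0 : ℝ) < ((1 : ℕ) + r * σ.real (Set.Ioi t)) / ((1 : ℕ) + r) := by positivity
  linarith

/-- (W2) few jumping numbers near the bottom of the support -/
lemma exists_low {σ : Measure ℝ} [IsProbabilityMeasure σ] (hσ : WeakLim S.lam σ) {a b : ℝ}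
    (ha : IsLeast σ.support a) (hb : IsGreatest σ.support b) (hab : a < b) {κ x : ℝ} (hκ : 0 < κ)
    (hx : a < x) :
    ∃ c, a < c ∧ c < b ∧ c < x ∧ ∀ᶠ k : ℕ in atTop, (cnt S.lam k (Set.Iio c) : ℝ) ≤ κ * k := by
  set t := (a + b) / 2 with ht
  obtain ⟨k₀, hk₀, hne⟩ := S.exists_F_ne_bot hσ hb.1 (t := t) (by rw [ht]; linarith)
  obtain ⟨p, hp⟩ := exists_nat_gt (2 / κ)
  have hp1 : 1 ≤ p := by
    rw [Nat.one_le_iff_ne_zero]
    rintro rfl
    have : 0 < 2 / κ := by positivity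
    simp only [Nat.cast_zero] at hp
    linarith
  have hp0 : (0 : ℝ) < p := by exact_mod_cast hp1
  rw [div_lt_iff₀ hκ] at hp
  set ξ := (t - a) / (2 * p) with hξ
  have hta : 0 < t - a := by rw [ht]; linarith
  have hξ0 : 0 < ξ := by positivity
  have hkey := S.key_ineq hσ hk₀ hne (real_Ioi_eq_one ha.2 (l := a - ξ) (by linarith))
    (p := p) (r := 1) hp1 le_rfl
  set μ := (p * (a - ξ) + (1 : ℕ) * t) / ((p : ℝ) + (1 : ℕ)) with hμ
  have hμa : a < μ := by
    rw [hμ, lt_div_iff₀ (by positivity)]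
    have : (p : ℝ) * ξ = (t - a) / 2 := by rw [hξ]; field_simp
    push_cast
    nlinarith
  have hμt : μ < b := by
    rw [hμ, div_lt_iff₀ (by positivity)]
    have h1 : (p : ℝ) * (a - ξ) < p * b := by
      apply mul_lt_mul_of_pos_left _ hp0; linarith
    have h2 : t < b := by rw [ht]; linarith
    push_cast
    nlinarith
  have hc1 : a < min ((a + μ) / 2) ((a + x) / 2) := by
    rw [lt_min_iff]; constructor <;> linarith
  have hc2 : min ((a + μ) / 2) ((a + x) / 2) ≤ (a + μ) / 2 := min_le_left _ _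
  have hc3 : min ((a + μ) / 2) ((a + x) / 2) ≤ (a + x) / 2 := min_le_right _ _
  refine ⟨min ((a + μ) / 2) ((a + x) / 2), hc1, by linarith, by linarith, ?_⟩
  set c := min ((a + μ) / 2) ((a + x) / 2) with hc
  have h1 := cnt_closed hσ isClosed_Iic (P := Set.Iic c) (ε := κ / 2) (by positivity)
  have h2 : σ.real (Set.Iic c) ≤ κ / 2 := by
    have h3 : σ.real (Set.Ici μ) ≤ 1 - σ.real (Set.Iic c) := by
      have : σ.real (Set.Iic c)ᶜ = 1 - σ.real (Set.Iic c) := by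
        rw [measureReal_compl measurableSet_Iic]; simp
      rw [← this, Set.compl_Iic]
      exact measureReal_mono (Set.Ici_subset_Ioi.2 (by linarith))
    have h4 : (p : ℝ) / (p + 1) ≤ (p + (1 : ℕ) * σ.real (Set.Ioi t)) / ((p : ℝ) + (1 : ℕ)) := by
      push_cast
      gcongr
      have : 0 ≤ σ.real (Set.Ioi t) := by positivity
      linarith
    have h5 : 1 - κ / 2 ≤ (p : ℝ) / (p + 1) := by
      rw [le_div_iff₀ (by positivity)]
      nlinarith
    linarith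
  filter_upwards [h1] with k hk
  have h3 : (cnt S.lam k (Set.Iio c) : ℝ) ≤ cnt S.lam k (Set.Iic c) := by
    exact_mod_cast cnt_mono _ _ Set.Iio_subset_Iic_self
  have h4 : (0 : ℝ) ≤ k := by positivity
  nlinarith

/-- (W2') the same when the support is reduced to one point -/
lemma low_of_eq {σ : Measure ℝ} [IsProbabilityMeasure σ] (hσ : WeakLim S.lam σ) {b c : ℝ}
    (hb : IsLeast σ.support b) (hc : c < b) {κ : ℝ} (hκ : 0 < κ) :
    ∀ᶠ k : ℕ in atTop, (cnt S.lam k (Set.Iio c) : ℝ) ≤ κ * k := by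
  have h1 := cnt_closed hσ isClosed_Iic (P := Set.Iic c) (ε := κ) hκ
  have h2 : σ.real (Set.Iic c) = 0 := by
    have h3 := real_Ioi_eq_one hb.2 hc
    have : σ.real (Set.Iic c)ᶜ = 1 - σ.real (Set.Iic c) := by
      rw [measureReal_compl measurableSet_Iic]; simp
    rw [Set.compl_Iic] at this
    linarith
  filter_upwards [h1] with k hk
  have h3 : (cnt S.lam k (Set.Iio c) : ℝ) ≤ cnt S.lam k (Set.Iic c) := by
    exact_mod_cast cnt_mono _ _ Set.Iio_subset_Iic_self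
  rw [h2] at hk
  linarith

/-- (W3) a positive proportion of jumping numbers just below any point above the bottom -/
lemma exists_window {σ : Measure ℝ} [IsProbabilityMeasure σ] (hσ : WeakLim S.lam σ) {a b : ℝ}
    (ha : IsLeast σ.support a) (hb : IsGreatest σ.support b) {x : ℝ} (hax : a < x)
    (hxb : x ≤ b) :
    ∃ c₂ > 0, ∃ δ₀ > 0, ∀ δ, 0 < δ → δ < δ₀ →
      ∀ᶠ k : ℕ in atTop, c₂ * δ * k ≤ cnt S.lam k (Set.Ioo (x - δ) x) := by
  set x₁ := (a + x) / 2 with hx₁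
  set m₁ := σ.real (Set.Iio x₁) with hm₁
  have hm₁pos : 0 < m₁ := real_Iio_pos ha.1 (by rw [hx₁]; linarith)
  have hab : a < b := lt_of_lt_of_le hax hxb
  refine ⟨m₁ / (8 * (b - a + 1)), by have : 0 < b - a + 1 := by linarith
                                     positivity, min 1 (x - a), lt_min one_pos (by linarith), ?_⟩
  intro δ hδ hδ0
  have hδ1 : δ < 1 := hδ0.trans_le (min_le_left _ _)
  have hδ2 : δ < x - a := hδ0.trans_le (min_le_right _ _)
  have hba : 0 < b - a + 1 := by linarith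
  set γ := x - δ / 4 with hγ
  have hγb : γ < b := by rw [hγ]; linarith
  have hγx₁ : x₁ ≤ γ := by rw [hγ, hx₁]; linarith
  obtain ⟨k₀, hk₀, hne⟩ := S.exists_F_ne_bot hσ hb.1 hγb
  set θ₀ := (δ / 2) / (b - a + 1) with hθ₀
  have hθ₀pos : 0 < θ₀ := by positivity
  have hθ₀1 : θ₀ ≤ 1 / 2 := by
    rw [hθ₀, div_le_iff₀ hba]; nlinarith
  obtain ⟨r, hr1, hr2⟩ : ∃ r : ℕ, 1 / θ₀ ≤ 1 + r ∧ (1 + r : ℝ) ≤ 2 / θ₀ := by
    refine ⟨⌈1 / θ₀⌉₊ - 1, ?_⟩
    have h1 : 1 / θ₀ ≤ ⌈1 / θ₀⌉₊ := Nat.le_ceil _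
    have h2 : (⌈1 / θ₀⌉₊ : ℝ) < 1 / θ₀ + 1 := Nat.ceil_lt_add_one (by positivity)
    have h3 : 1 ≤ ⌈1 / θ₀⌉₊ := Nat.one_le_iff_ne_zero.mpr (by
      have : 0 < ⌈1 / θ₀⌉₊ := Nat.ceil_pos.2 (by positivity)
      omega)
    have h4 : (1 : ℝ) + ((⌈1 / θ₀⌉₊ - 1 : ℕ) : ℝ) = ⌈1 / θ₀⌉₊ := by
      rw [Nat.cast_sub h3]; push_cast; ring
    rw [h4]
    refine ⟨h1, ?_⟩
    have h5 : (1 : ℝ) ≤ 1 / θ₀ := by
      rw [le_div_iff₀ hθ₀pos]; linarith
    have h6 : 2 / θ₀ = 1 / θ₀ + 1 / θ₀ := by ring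
    rw [h6]; linarith
  have hr0 : 1 ≤ r := by
    by_contra hr
    have : r = 0 := by omega
    subst this
    have h5 : (2 : ℝ) ≤ 1 / θ₀ := by
      rw [le_div_iff₀ hθ₀pos]; linarith
    simp only [Nat.cast_zero, add_zero] at hr1
    linarith
  have hrpos : (0 : ℝ) < r := by exact_mod_cast hr0
  have hkey := S.key_ineq hσ hk₀ hne (real_Ioi_eq_one ha.2 (l := a - 1) (by linarith))
    (p := 1) le_rfl hr0
  set μ := ((1 : ℕ) * (a - 1) + r * γ) / (((1 : ℕ) : ℝ) + r) with hμ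
  -- location of `μ`
  have hθinv : 1 / (1 + (r : ℝ)) ≤ θ₀ := by
    rw [div_le_iff₀ (by positivity)]
    rw [div_le_iff₀ hθ₀pos] at hr1
    linarith
  have hθinv2 : θ₀ / 2 ≤ 1 / (1 + (r : ℝ)) := by
    rw [le_div_iff₀ (by positivity)]
    rw [le_div_iff₀ hθ₀pos] at hr2
    linarith
  have hμeq : μ = γ - 1 / (1 + (r : ℝ)) * (γ - (a - 1)) := by
    rw [hμ]; push_cast; field_simp; ring
  have hμ1 : x - δ < μ := by
    have h1 : 1 / (1 + (r : ℝ)) * (γ - (a - 1)) ≤ θ₀ * (b - a + 1) := by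
      apply mul_le_mul hθinv (by linarith) (by linarith) hθ₀pos.le
    have h2 : θ₀ * (b - a + 1) = δ / 2 := by rw [hθ₀]; field_simp
    rw [hμeq]; rw [hγ] at *; linarith
  have hμ2 : σ.real (Set.Ici μ) ≤ σ.real (Set.Ioo (x - δ) x) + σ.real (Set.Ioi γ) := by
    have hsub : Set.Ici μ ⊆ Set.Ioo (x - δ) x ∪ Set.Ioi γ := by
      intro y hy
      by_cases hyγ : γ < y
      · exact Or.inr hyγ
      · left
        push Not at hyγ
        exact ⟨lt_of_lt_of_le hμ1 hy, lt_of_le_of_lt hyγ (by rw [hγ]; linarith)⟩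
    exact (measureReal_mono hsub).trans (measureReal_union_le _ _)
  have hγm : m₁ ≤ 1 - σ.real (Set.Ioi γ) := by
    have : σ.real (Set.Ioi γ)ᶜ = 1 - σ.real (Set.Ioi γ) := by
      rw [measureReal_compl measurableSet_Ioi]; simp
    rw [← this, Set.compl_Ioi, hm₁]
    exact measureReal_mono (fun y hy => (lt_of_lt_of_le hy hγx₁).le)
  have hlow : θ₀ / 2 * m₁ ≤ σ.real (Set.Ioo (x - δ) x) := by
    have h1 : (((1 : ℕ) : ℝ) + r * σ.real (Set.Ioi γ)) / (((1 : ℕ) : ℝ) + r) =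
        σ.real (Set.Ioi γ) + 1 / (1 + (r : ℝ)) * (1 - σ.real (Set.Ioi γ)) := by
      push_cast; field_simp; ring
    rw [h1] at hkey
    have h2 : θ₀ / 2 * m₁ ≤ 1 / (1 + (r : ℝ)) * (1 - σ.real (Set.Ioi γ)) :=
      mul_le_mul hθinv2 hγm hm₁pos.le (by positivity)
    linarith
  have hfin := cnt_open hσ isOpen_Ioo (O := Set.Ioo (x - δ) x) (ε := θ₀ / 4 * m₁) (by positivity)
  filter_upwards [hfin] with k hk
  refine le_trans ?_ hk
  have h1 : m₁ / (8 * (b - a + 1)) * δ = θ₀ / 4 * m₁ := by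
    rw [hθ₀]; field_simp; ring
  rw [h1]
  have h2 : (0 : ℝ) ≤ k := by positivity
  apply mul_le_mul_of_nonneg_right _ h2
  linarith

lemma exists_lam_bound : ∃ C : ℝ, 0 < C ∧ ∀ k i, |S.lam k i| ≤ C * k := by
  obtain ⟨C, hC⟩ := S.F.bounded
  refine ⟨max C 1, by positivity, fun k i => ?_⟩
  obtain ⟨h1, h2⟩ := hC k
  have hj := (S.jumping k).2
  classical
  have hlow : -(C * k) ≤ S.lam k i := by
    have h3 := hj (-(C * k))
    rw [h1 _ le_rfl, finrank_V] at h3
    have h4 : (Finset.univ.filter fun i => -(C * (k : ℝ)) ≤ S.lam k i) = Finset.univ := by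
      apply Finset.eq_univ_of_card
      rw [← h3]; simp
    have : i ∈ (Finset.univ.filter fun i => -(C * (k : ℝ)) ≤ S.lam k i) := by
      rw [h4]; exact Finset.mem_univ _
    simpa using this
  have hhigh : S.lam k i ≤ C * k := by
    by_contra hcon
    push Not at hcon
    have h3 := hj (S.lam k i)
    rw [h2 _ hcon, finrank_bot] at h3
    have h4 : i ∈ (Finset.univ.filter fun j => S.lam k i ≤ S.lam k j) := by simp
    rw [Finset.card_eq_zero.1 h3.symm] at h4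
    simp at h4
  have hk : (0 : ℝ) ≤ k := by positivity
  have h5 : C * k ≤ max C 1 * k := mul_le_mul_of_nonneg_right (le_max_left _ _) hk
  rw [abs_le]
  constructor <;> linarith

lemma support_compact {σ : Measure ℝ} [IsProbabilityMeasure σ] (hσ : WeakLim S.lam σ) :
    (∃ a, IsLeast σ.support a) ∧ (∃ b, IsGreatest σ.support b) := by
  obtain ⟨C, hC0, hC⟩ := S.exists_lam_bound
  have hsub : σ.support ⊆ Set.Icc (-C) C := by
    refine Measure.support_subset_of_isClosed isClosed_Icc ?_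
    rw [mem_ae_iff]
    have hreal : σ.real (Set.Icc (-C) C)ᶜ = 0 := by
      refine le_antisymm (le_of_forall_pos_le_add fun ε hε => ?_) (by positivity)
      obtain ⟨k, hk, hk1⟩ := ((cnt_open hσ isClosed_Icc.isOpen_compl
        (O := (Set.Icc (-C) C)ᶜ) hε).and (eventually_ge_atTop 1)).exists
      have hk' : (0 : ℝ) < k := by exact_mod_cast hk1
      have h0 : cnt S.lam k (Set.Icc (-C) C)ᶜ = 0 := by
        refine cnt_eq_zero fun i h2 => h2 ?_
        rw [Set.mem_Icc]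
        have := abs_le.1 (hC k i)
        constructor
        · rw [le_div_iff₀ hk']; linarith [this.1]
        · rw [div_le_iff₀ hk']; exact this.2
      rw [h0] at hk
      simp only [Nat.cast_zero] at hk
      by_contra hcon
      push Not at hcon
      have : 0 < (σ.real (Set.Icc (-C) C)ᶜ - ε) * k := mul_pos (by linarith) hk'
      linarith
    rw [Measure.real, ENNReal.toReal_eq_zero_iff] at hreal
    exact hreal.resolve_right (measure_ne_top _ _)
  have hcpt : IsCompact σ.support :=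
    isCompact_Icc.of_isClosed_subset Measure.isClosed_support hsub
  have hne : σ.support.Nonempty := by
    rw [Set.nonempty_iff_ne_empty]
    intro h0
    have : σ σ.supportᶜ = 0 := Measure.measure_compl_support
    rw [h0] at this
    simp at this
  exact ⟨hcpt.exists_isLeast hne, hcpt.exists_isGreatest hne⟩

end Sys

end Pool.Agent.Lib.MP_ab0522
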