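import Mathlib
import Pool.Agent.Lib.MP_ab0522.Super

/-!
# Elementary estimates for polynomials
-/

namespace Pool.Agent.Lib.MP_ab0522

open Polynomial MeasureTheory Filter Topology

lemma sq_norm_le_circleAverage (p : ℂ[X]) (z : ℂ) (r : ℝ) :
    ‖p.eval z‖ ^ 2 ≤ Real.circleAverage (fun w => ‖p.eval w‖ ^ 2) z r := by
  have h1 := (p.comp (C (r : ℂ) * X + C z)).sum_sq_norm_coeff_eq_circleAverage
  have h2 : Real.circleAverage (fun w => ‖p.eval w‖ ^ 2) z r =
      Real.circleAverage (fun θ ↦ ‖(p.comp (C (r : ℂ) * X + C z)).eval θ‖ ^ 2) 0 1 := by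
    rw [Real.circleAverage_eq_circleAverage_zero_one]
    simp [eval_comp]
  rw [h2, ← h1]
  have h3 : (p.comp (C (r : ℂ) * X + C z)).coeff 0 = p.eval z := by
    rw [coeff_zero_eq_eval_zero]; simp [eval_comp]
  by_cases h4 : 0 ∈ (p.comp (C (r : ℂ) * X + C z)).support
  · have := Finset.single_le_sum (f := fun i => ‖(p.comp (C (r : ℂ) * X + C z)).coeff i‖ ^ 2)
      (fun i _ => by positivity) h4
    simpa [h3] using this
  · rw [notMem_support_iff, h3] at h4
    rw [h4]
    simp only [norm_zero, ne_eq, OfNat.ofNat_ne_zero, not_false_eq_true, zero_pow]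
    exact Finset.sum_nonneg fun _ _ => by positivity

lemma coeff_bound {p : ℂ[X]} {R M : ℝ} (hR : 0 < R) (hM : 0 ≤ M)
    (h : ∀ z : ℂ, ‖z‖ = R → ‖p.eval z‖ ≤ M) (c : ℕ) : ‖p.coeff c‖ * R ^ c ≤ M := by
  set q := p.comp (C (R : ℂ) * X) with hq
  have h1 := q.sum_sq_norm_coeff_eq_circleAverage
  have h2 : q.coeff c = p.coeff c * (R : ℂ) ^ c := by
    rw [hq, comp_C_mul_X_coeff]
  have h3 : ‖q.coeff c‖ = ‖p.coeff c‖ * R ^ c := by
    rw [h2, norm_mul, norm_pow, Complex.norm_real, Real.norm_of_nonneg hR.le]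
  rw [← h3]
  by_cases h4 : c ∈ q.support
  · have h5 := Finset.single_le_sum (f := fun i => ‖q.coeff i‖ ^ 2)
      (fun i _ => by positivity) h4
    rw [h1] at h5
    have h6 : Real.circleAverage (fun θ ↦ ‖q.eval θ‖ ^ 2) 0 1 ≤ M ^ 2 := by
      apply Real.circleAverage_mono_on_of_le_circle
      · apply ContinuousOn.circleIntegrable'
        fun_prop
      · intro x hx
        simp only [abs_one, mem_sphere_iff_norm, sub_zero] at hx
        have : ‖q.eval x‖ ≤ M := by
          rw [hq, eval_comp]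
          apply h
          simp [hx, abs_of_pos hR]
        gcongr
    have h7 : ‖q.coeff c‖ ^ 2 ≤ M ^ 2 := h5.trans h6
    exact abs_le_of_sq_le_sq' h7 hM |>.2
  · rw [notMem_support_iff] at h4
    rw [h4]; simpa using hM

/-- A nonzero polynomial can be normalised so that it is `≥ 1` somewhere on a given small disc and
does not grow too fast. -/
lemma exists_normalised {r : ℕ} {q : ℂ[X]} (hq : q ∈ V r) (hq0 : q ≠ 0) (z₀ : ℂ) {ρ : ℝ}
    (hρ : 0 < ρ) : ∃ a : ℂ, a ≠ 0 ∧ (∃ z, ‖z - z₀‖ ≤ ρ ∧ 1 ≤ ‖(C a * q).eval z‖) ∧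
      ∀ z, ‖(C a * q).eval z‖ ≤ (r + 1) * max 1 (‖z - z₀‖ / ρ) ^ r := by
  have hρ' : (ρ : ℂ) ≠ 0 := by exact_mod_cast hρ.ne'
  set p := q.comp (C (ρ : ℂ) * X + C z₀) with hp
  have hdeg : p.natDegree ≤ r := by
    rw [hp]
    refine natDegree_comp_le.trans ?_
    have h1 := mem_V.1 hq
    have h2 : (C (ρ : ℂ) * X + C z₀).natDegree ≤ 1 := natDegree_linear_le
    calc q.natDegree * (C (ρ : ℂ) * X + C z₀).natDegree ≤ r * 1 := Nat.mul_le_mul h1 h2
      _ = r := mul_one r
  have hqp : ∀ z, q.eval z = p.eval ((z - z₀) / ρ) := by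
    intro z
    rw [hp, eval_comp]
    congr 1
    simp only [eval_add, eval_mul, eval_C, eval_X]
    field_simp
    ring
  have hp0 : p ≠ 0 := by
    intro h0
    apply hq0
    apply Polynomial.funext
    intro z
    rw [hqp z, h0]; simp
  obtain ⟨c, hc, hmax⟩ := Finset.exists_max_image (Finset.range (r + 1)) (fun i => ‖p.coeff i‖)
    ⟨0, by simp⟩
  set m := ‖p.coeff c‖ with hm
  have hmpos : 0 < m := by
    rw [hm, norm_pos_iff]
    intro h0
    apply hp0
    ext i
    by_cases hi : i ≤ r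
    · have := hmax i (by simp; omega)
      rw [hm, h0, norm_zero] at this
      simpa using this
    · rw [coeff_eq_zero_of_natDegree_lt (by omega)]; simp
  have hmc : (m : ℂ) ≠ 0 := by exact_mod_cast hmpos.ne'
  refine ⟨(m : ℂ)⁻¹, inv_ne_zero hmc, ?_, ?_⟩
  · by_contra hcon
    push Not at hcon
    -- maximum over the closed disc is attained on the unit circle and `< 1`
    have hcpt : IsCompact (Metric.sphere (0 : ℂ) 1) := isCompact_sphere _ _
    obtain ⟨x, hx, hxmax⟩ := hcpt.exists_isMaxOn ⟨1, by simp⟩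
      (f := fun x => ‖(C (m : ℂ)⁻¹ * p).eval x‖) (by fun_prop)
    have hx1 : ‖x‖ = 1 := by simpa using hx
    have h1 : ‖(C (m : ℂ)⁻¹ * p).eval x‖ < 1 := by
      have := hcon (ρ * x + z₀) (by
        simp [hx1, abs_of_pos hρ])
      rw [eval_mul, hqp] at this
      rw [eval_mul]
      have e : ((ρ : ℂ) * x + z₀ - z₀) / ρ = x := by field_simp; ring
      rw [e] at this
      simpa using this
    have h2 := coeff_bound (p := C (m : ℂ)⁻¹ * p) (R := 1) one_pos (norm_nonneg _)
      (fun z hz => hxmax (by simpa using hz)) c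
    rw [coeff_C_mul, norm_mul, ← hm, one_pow, mul_one, norm_inv, Complex.norm_real,
      Real.norm_of_nonneg hmpos.le, inv_mul_cancel₀ hmpos.ne'] at h2
    linarith
  · intro z
    rw [eval_mul, hqp, eval_C, eval_eq_sum_range' (Nat.lt_succ_of_le hdeg), norm_mul, norm_inv,
      Complex.norm_real, Real.norm_of_nonneg hmpos.le, inv_mul_le_iff₀ hmpos]
    refine (norm_sum_le _ _).trans ?_
    have hb : ∀ i ∈ Finset.range (r + 1), ‖p.coeff i * ((z - z₀) / ρ) ^ i‖ ≤
        m * max 1 (‖z - z₀‖ / ρ) ^ r := by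
      intro i hi
      rw [norm_mul, norm_pow, norm_div, Complex.norm_real, Real.norm_of_nonneg hρ.le]
      apply mul_le_mul (hmax i hi) _ (by positivity) hmpos.le
      calc (‖z - z₀‖ / ρ) ^ i ≤ max 1 (‖z - z₀‖ / ρ) ^ i := by
            gcongr; exact le_max_right _ _
        _ ≤ max 1 (‖z - z₀‖ / ρ) ^ r := by
            apply pow_le_pow_right₀ (le_max_left _ _)
            rw [Finset.mem_range] at hi; omega
    refine (Finset.sum_le_sum hb).trans ?_
    rw [Finset.sum_const, Finset.card_range, nsmul_eq_mul]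
    push_cast
    linarith

end Pool.Agent.Lib.MP_ab0522
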