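import Mathlib
import Pool.Agent.Lib.MP_ab0522.DH2
import Pool.Agent.Lib.MP_ab0522.Poly

/-!
# Sections of a slightly smaller graded linear series with a prescribed large value nearby
-/

namespace Pool.Agent.Lib.MP_ab0522

open Polynomial MeasureTheory Filter Topology

namespace Sys

variable (S : Sys)

lemma exists_mul_mem {n r l : ℕ} (hn : n = l + r) (hn1 : 1 ≤ n) {T : ℂ[X]} (hT : T ∈ V l)
    (hT0 : T ≠ 0) {c : ℝ} (hc : cnt S.lam n (Set.Iio c) ≤ r) :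
    ∃ q ∈ V r, q ≠ 0 ∧ T * q ∈ S.F.F n (n * c) := by
  have hW := S.finrank_eq_cnt hn1 c
  have h1 := cnt_compl S.lam n (Set.Iio c)
  rw [Set.compl_Iio] at h1
  set Tr : Submodule ℂ ℂ[X] := (V r).map (LinearMap.mulLeft ℂ T) with hTr
  have hinj : Function.Injective (LinearMap.mulLeft ℂ T) := by
    intro x y hxy
    simpa [hT0] using hxy
  have hfr : Module.finrank ℂ Tr = r + 1 := by
    rw [hTr, ← finrank_V r]
    exact (Submodule.equivMapOfInjective _ hinj (V r)).finrank_eq.symm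
  have hTle : Tr ≤ V n := by
    rintro _ ⟨q, hq, rfl⟩
    rw [mem_V, LinearMap.mulLeft_apply]
    have := mem_V.1 hq
    have := mem_V.1 hT
    have := natDegree_mul_le (p := T) (q := q)
    omega
  have hWle := S.F.le_V n (n * c)
  have f1 := finite_of_le_V hTle
  have f2 := finite_of_le_V hWle
  have hsum := Submodule.finrank_sup_add_finrank_inf_eq (S.F.F n (n * c)) Tr
  have hsup : Module.finrank ℂ ↥(S.F.F n (n * c) ⊔ Tr) ≤ n + 1 := by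
    rw [← finrank_V n]
    exact Submodule.finrank_mono (sup_le hWle hTle)
  have hinf : 0 < Module.finrank ℂ ↥(S.F.F n (n * c) ⊓ Tr) := by omega
  have hne : S.F.F n (n * c) ⊓ Tr ≠ ⊥ := by
    intro h0
    rw [h0, finrank_bot] at hinf
    exact lt_irrefl _ hinf
  obtain ⟨u, hu, hu0⟩ := Submodule.exists_mem_ne_zero_of_ne_bot hne
  obtain ⟨q, hq, rfl⟩ := hu.2
  refine ⟨q, hq, ?_, hu.1⟩
  rintro rfl
  exact hu0 (by simp)

lemma max_growth (z₀ : ℂ) {ρ : ℝ} (hρ : 0 < ρ) :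
    ∃ C₁ : ℝ, 1 ≤ C₁ ∧ ∀ z, max 1 (‖z - z₀‖ / ρ) ^ 2 ≤ C₁ * Real.exp (S.φ z) := by
  refine ⟨max 1 ((1 + 2 * (1 + ‖z₀‖ ^ 2) / ρ ^ 2) * Real.exp S.A), le_max_left _ _, fun z => ?_⟩
  have h1 : max 1 (‖z - z₀‖ / ρ) ^ 2 ≤ 1 + (‖z - z₀‖ / ρ) ^ 2 := by
    rcases le_total 1 (‖z - z₀‖ / ρ) with h | h
    · rw [max_eq_right h]; linarith
    · rw [max_eq_left h]; nlinarith [sq_nonneg (‖z - z₀‖ / ρ)]
  have h2 : ‖z - z₀‖ ^ 2 ≤ 2 * (‖z‖ ^ 2 + ‖z₀‖ ^ 2) := by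
    have h3 : ‖z - z₀‖ ≤ ‖z‖ + ‖z₀‖ := norm_sub_le _ _
    have h4 : ‖z - z₀‖ ^ 2 ≤ (‖z‖ + ‖z₀‖) ^ 2 := by gcongr
    nlinarith [sq_nonneg (‖z‖ - ‖z₀‖)]
  have h3 : (‖z - z₀‖ / ρ) ^ 2 ≤ 2 * (‖z‖ ^ 2 + ‖z₀‖ ^ 2) / ρ ^ 2 := by
    rw [div_pow]; gcongr
  have h4 : 1 + 2 * (‖z‖ ^ 2 + ‖z₀‖ ^ 2) / ρ ^ 2 ≤
      (1 + 2 * (1 + ‖z₀‖ ^ 2) / ρ ^ 2) * (1 + ‖z‖ ^ 2) := by
    have h5 : 2 * (‖z‖ ^ 2 + ‖z₀‖ ^ 2) / ρ ^ 2 ≤
        2 * (1 + ‖z₀‖ ^ 2) / ρ ^ 2 * (1 + ‖z‖ ^ 2) := by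
      rw [div_mul_eq_mul_div]
      apply div_le_div_of_nonneg_right _ (by positivity)
      nlinarith [sq_nonneg ‖z‖, sq_nonneg ‖z₀‖, mul_nonneg (sq_nonneg ‖z‖) (sq_nonneg ‖z₀‖)]
    nlinarith [sq_nonneg ‖z‖]
  calc max 1 (‖z - z₀‖ / ρ) ^ 2 ≤ (1 + 2 * (1 + ‖z₀‖ ^ 2) / ρ ^ 2) * (1 + ‖z‖ ^ 2) := by linarith
    _ ≤ (1 + 2 * (1 + ‖z₀‖ ^ 2) / ρ ^ 2) * (Real.exp S.A * Real.exp (S.φ z)) := by
        gcongr; exact S.growth z
    _ = ((1 + 2 * (1 + ‖z₀‖ ^ 2) / ρ ^ 2) * Real.exp S.A) * Real.exp (S.φ z) := by ring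
    _ ≤ _ := by gcongr; exact le_max_right _ _

lemma P_lemma {z₀ : ℂ} {n₀ : ℕ} (hn₀ : 1 ≤ n₀) {t : ℂ[X]} (ht : t ∈ V n₀)
    (htb : ∀ z, ‖t.eval z‖ ^ 2 ≤ Real.exp (n₀ * S.φ z)) (ht0 : t.eval z₀ ≠ 0) {ε : ℝ} (hε : 0 < ε)
    {U : Set ℂ} (hU : U ∈ 𝓝 z₀) :
    ∃ κ > 0, ∀ c : ℝ, (∀ᶠ k : ℕ in atTop, (cnt S.lam k (Set.Iio c) : ℝ) ≤ κ * k) →
      ∃ z' ∈ U, ∃ n : ℕ, 1 ≤ n ∧ ∃ u ∈ S.F.F n (n * c),
        (∀ z, ‖u.eval z‖ ^ 2 ≤ Real.exp (n * S.φ z)) ∧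
        Real.exp (n * (Real.log (‖t.eval z₀‖ ^ 2) / n₀ - ε)) ≤ ‖u.eval z'‖ ^ 2 := by
  set L := Real.log (‖t.eval z₀‖ ^ 2) / n₀ with hL
  have hn₀' : (0 : ℝ) < n₀ := by exact_mod_cast hn₀
  have hpos : 0 < ‖t.eval z₀‖ ^ 2 := by positivity
  have hexpL : ‖t.eval z₀‖ ^ 2 = Real.exp (n₀ * L) := by
    rw [hL, mul_div_cancel₀ _ hn₀'.ne', Real.exp_log hpos]
  -- Step 1: the small disc
  obtain ⟨ρ, hρ, hρU⟩ : ∃ ρ > 0, ∀ z, ‖z - z₀‖ ≤ ρ →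
      z ∈ U ∧ Real.exp (n₀ * (L - ε / 4)) ≤ ‖t.eval z‖ ^ 2 := by
    have hcont : ContinuousAt (fun z => ‖t.eval z‖ ^ 2) z₀ := by fun_prop
    have hlt : Real.exp (n₀ * (L - ε / 4)) < ‖t.eval z₀‖ ^ 2 := by
      rw [hexpL]
      apply Real.exp_lt_exp.2
      nlinarith
    have h1 : ∀ᶠ z in 𝓝 z₀, Real.exp (n₀ * (L - ε / 4)) < ‖t.eval z‖ ^ 2 :=
      hcont.eventually (lt_mem_nhds hlt)
    obtain ⟨ρ, hρ, hball⟩ := Metric.mem_nhds_iff.1 (Filter.inter_mem hU h1)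
    refine ⟨ρ / 2, by positivity, fun z hz => ?_⟩
    have : z ∈ Metric.ball z₀ ρ := by
      rw [Metric.mem_ball, dist_eq_norm]; linarith
    have := hball this
    exact ⟨this.1, le_of_lt this.2⟩
  -- Step 2
  obtain ⟨C₁, hC₁1, hC₁⟩ := S.max_growth z₀ hρ
  have hlogC : 0 ≤ Real.log C₁ := Real.log_nonneg hC₁1
  set θ := ε / (4 * (|L| + Real.log C₁ + 1)) with hθ
  have hθpos : 0 < θ := by positivity
  set κ := min (θ / 4) (1 / 2) with hκ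
  have hκpos : 0 < κ := lt_min (by positivity) (by norm_num)
  have hκθ : κ ≤ θ / 4 := min_le_left _ _
  have hκ2 : κ ≤ 1 / 2 := min_le_right _ _
  refine ⟨κ, hκpos, fun c hcnt => ?_⟩
  -- choose `r` large
  obtain ⟨K₀, hK₀⟩ := eventually_atTop.1 hcnt
  have hlog := tendsto_log_div_nat (C := 1) one_pos
  simp only [mul_one] at hlog
  have hlog' : ∀ᶠ r : ℕ in atTop, Real.log ((r : ℝ) + 1) / r < ε / 8 :=
    hlog.eventually (gt_mem_nhds (by positivity))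
  have hr2 : ∀ᶠ r : ℕ in atTop, θ * n₀ ≤ r := tendsto_natCast_atTop_atTop.eventually_ge_atTop _
  obtain ⟨r, hr1, hr2, hr3, hr4⟩ := (hlog'.and (hr2.and ((eventually_ge_atTop K₀).and
    (eventually_ge_atTop 1)))).exists
  have hr0 : (0 : ℝ) < r := by exact_mod_cast hr4
  set m := ⌊(r : ℝ) / (2 * κ * n₀)⌋₊ with hm
  set n := n₀ * m + r with hn
  have hn1 : 1 ≤ n := by omega
  have hnpos : (0 : ℝ) < n := by exact_mod_cast hn1
  have hncast : (n : ℝ) = n₀ * m + r := by rw [hn]; push_cast; ring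
  have hm1 : (m : ℝ) ≤ r / (2 * κ * n₀) := Nat.floor_le (by positivity)
  have hm2 : (r : ℝ) / (2 * κ * n₀) < m + 1 := Nat.lt_floor_add_one _
  rw [le_div_iff₀ (by positivity)] at hm1
  rw [div_lt_iff₀ (by positivity)] at hm2
  have hnr : κ * n ≤ r := by
    rw [hncast]
    nlinarith
  have hrn : (r : ℝ) ≤ θ * n := by
    rw [hncast]
    -- `r < (m+1) * 2κ n₀ ≤ (m+1) (θ/2) n₀`
    have h1 : (r : ℝ) ≤ (m + 1) * (θ / 2 * n₀) := by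
      refine hm2.le.trans ?_
      have : 2 * κ * n₀ ≤ θ / 2 * n₀ := by
        apply mul_le_mul_of_nonneg_right _ hn₀'.le; linarith
      apply mul_le_mul_of_nonneg_left this (by positivity)
    nlinarith [mul_pos hθpos hr0, mul_pos hθpos hn₀']
  have hcn : (cnt S.lam n (Set.Iio c) : ℝ) ≤ r := (hK₀ n (by omega)).trans hnr
  have hcn' : cnt S.lam n (Set.Iio c) ≤ r := by exact_mod_cast hcn
  -- Step 4
  have ht0' : t ≠ 0 := by rintro rfl; simp at ht0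
  have hTm : t ^ m ∈ V (n₀ * m) := by
    rw [mem_V]
    refine natDegree_pow_le.trans ?_
    have := mem_V.1 ht
    rw [mul_comm]
    exact Nat.mul_le_mul_right m this
  obtain ⟨q, hq, hq0, hmem⟩ := S.exists_mul_mem (n := n) (r := r) (l := n₀ * m) rfl hn1 hTm
    (pow_ne_zero _ ht0') hcn'
  obtain ⟨a, ha0, ⟨z', hz', hz'1⟩, hup⟩ := exists_normalised hq hq0 z₀ hρ
  -- the section
  set D : ℝ := (r + 1) ^ 2 * C₁ ^ r with hD
  have hDpos : 0 < D := by positivity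
  set w : ℂ := (((Real.sqrt D)⁻¹ : ℝ) : ℂ) with hw
  have hw2 : ‖w‖ ^ 2 = D⁻¹ := by
    rw [hw, Complex.norm_real, Real.norm_of_nonneg (by positivity), inv_pow, Real.sq_sqrt hDpos.le]
  have heval : ∀ z, ‖((w * a) • (t ^ m * q)).eval z‖ ^ 2 =
      D⁻¹ * (‖t.eval z‖ ^ 2) ^ m * ‖(C a * q).eval z‖ ^ 2 := by
    intro z
    rw [← hw2]
    simp only [eval_smul, eval_mul, eval_pow, smul_eq_mul, norm_mul, norm_pow, eval_C]
    ring
  refine ⟨z', (hρU z' hz').1, n, hn1, (w * a) • (t ^ m * q), Submodule.smul_mem _ _ hmem, ?_, ?_⟩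
  · intro z
    rw [heval]
    have h1 : ‖(C a * q).eval z‖ ^ 2 ≤ D * Real.exp (r * S.φ z) := by
      calc ‖(C a * q).eval z‖ ^ 2 ≤ ((r + 1) * max 1 (‖z - z₀‖ / ρ) ^ r) ^ 2 := by
            gcongr; exact hup z
        _ = (r + 1) ^ 2 * (max 1 (‖z - z₀‖ / ρ) ^ 2) ^ r := by ring
        _ ≤ (r + 1) ^ 2 * (C₁ * Real.exp (S.φ z)) ^ r := by gcongr; exact hC₁ z
        _ = D * Real.exp (r * S.φ z) := by
            rw [hD, mul_pow, ← Real.exp_nat_mul]; ring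
    have h2 : (‖t.eval z‖ ^ 2) ^ m ≤ Real.exp (n₀ * m * S.φ z) := by
      calc (‖t.eval z‖ ^ 2) ^ m ≤ (Real.exp (n₀ * S.φ z)) ^ m := by gcongr; exact htb z
        _ = Real.exp (n₀ * m * S.φ z) := by rw [← Real.exp_nat_mul]; congr 1; ring
    calc D⁻¹ * (‖t.eval z‖ ^ 2) ^ m * ‖(C a * q).eval z‖ ^ 2 ≤
        D⁻¹ * Real.exp (n₀ * m * S.φ z) * (D * Real.exp (r * S.φ z)) := by gcongr
      _ = Real.exp (n₀ * m * S.φ z) * Real.exp (r * S.φ z) := by field_simp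
      _ = Real.exp (n * S.φ z) := by rw [← Real.exp_add, hncast]; congr 1; ring
  · rw [heval]
    have h1 : Real.exp (n₀ * m * (L - ε / 4)) ≤ (‖t.eval z'‖ ^ 2) ^ m := by
      calc Real.exp (n₀ * m * (L - ε / 4)) = (Real.exp (n₀ * (L - ε / 4))) ^ m := by
            rw [← Real.exp_nat_mul]; congr 1; ring
        _ ≤ _ := by gcongr; exact (hρU z' hz').2
    have h2 : (1 : ℝ) ≤ ‖(C a * q).eval z'‖ ^ 2 := by nlinarith
    have h3 : D ≤ Real.exp (n * (3 * ε / 4) - r * L) := by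
      rw [← Real.log_le_iff_le_exp hDpos, hD, Real.log_mul (by positivity) (by positivity),
        Real.log_pow, Real.log_pow]
      push_cast
      have h4 : Real.log ((r : ℝ) + 1) ≤ ε / 8 * r := by
        rw [div_lt_iff₀ hr0] at hr1; linarith
      have h5 : r * (|L| + Real.log C₁ + 1) ≤ n * (ε / 4) := by
        calc (r : ℝ) * (|L| + Real.log C₁ + 1) ≤ θ * n * (|L| + Real.log C₁ + 1) := by gcongr
          _ = n * (ε / 4) := by rw [hθ]; field_simp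
      have h6 : L ≤ |L| := le_abs_self L
      have h7 : (r : ℝ) ≤ n := by
        rw [hncast]; have : (0 : ℝ) ≤ n₀ * m := by positivity
        linarith
      nlinarith
    calc Real.exp (n * (L - ε)) ≤ (Real.exp (n * (3 * ε / 4) - r * L))⁻¹ *
          Real.exp (n₀ * m * (L - ε / 4)) := by
          rw [← Real.exp_neg, ← Real.exp_add, Real.exp_le_exp, hncast]
          have : (0 : ℝ) ≤ n₀ * m := by positivity
          nlinarith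
      _ ≤ D⁻¹ * (‖t.eval z'‖ ^ 2) ^ m := by gcongr
      _ ≤ D⁻¹ * (‖t.eval z'‖ ^ 2) ^ m * ‖(C a * q).eval z'‖ ^ 2 := by
          apply le_mul_of_one_le_right (by positivity) h2

end Sys

end Pool.Agent.Lib.MP_ab0522
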