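import Mathlib
import Pool.Agent.Lib.MP_ab0522.PLemma

/-!
# The comparison lemma and the existence of good points
-/

namespace Pool.Agent.Lib.MP_ab0522

open Polynomial MeasureTheory Filter Topology

namespace Sys

variable (S : Sys)

/-- normalised logarithms of values of admissible sections -/
def vals (z : ℂ) : Set ℝ := {x | ∃ n : ℕ, 1 ≤ n ∧ ∃ t ∈ V n,
  (∀ w, ‖t.eval w‖ ^ 2 ≤ Real.exp (n * S.φ w)) ∧ t.eval z ≠ 0 ∧
    x = Real.log (‖t.eval z‖ ^ 2) / n}

/-- the extremal function of the full section ring -/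
noncomputable def Phi (z : ℂ) : ℝ := sSup (S.vals z)

lemma exp_phi_ge (z : ℂ) : Real.exp (-S.A) ≤ Real.exp (S.φ z) := by
  have h := S.growth z
  have h1 : (1 : ℝ) ≤ 1 + ‖z‖ ^ 2 := by nlinarith [sq_nonneg ‖z‖]
  rw [Real.exp_neg, inv_le_iff_one_le_mul₀ (Real.exp_pos _)]
  linarith

lemma const_adm (k : ℕ) : ∀ w, ‖(C ((Real.exp (-(k * S.A) / 2) : ℝ) : ℂ)).eval w‖ ^ 2 ≤
    Real.exp (k * S.φ w) := by
  intro w
  rw [eval_C, Complex.norm_real, Real.norm_of_nonneg (Real.exp_pos _).le, ← Real.exp_nat_mul]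
  have h := S.exp_phi_ge w
  rw [Real.exp_le_exp] at h ⊢
  have hk : (0 : ℝ) ≤ k := by positivity
  push_cast
  nlinarith

lemma const_mem_V (k : ℕ) (a : ℂ) : C a ∈ V k := by
  rw [mem_V]; simp

lemma vals_nonempty (z : ℂ) : (S.vals z).Nonempty := by
  refine ⟨_, 1, le_rfl, C ((Real.exp (-((1 : ℕ) * S.A) / 2) : ℝ) : ℂ), const_mem_V _ _,
    S.const_adm 1, ?_, rfl⟩
  rw [eval_C]
  exact_mod_cast (Real.exp_pos _).ne'

lemma vals_bddAbove (z : ℂ) : BddAbove (S.vals z) := by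
  refine ⟨S.φ z, ?_⟩
  rintro x ⟨n, hn, t, -, htb, ht0, rfl⟩
  have hn' : (0 : ℝ) < n := by exact_mod_cast hn
  have hpos : 0 < ‖t.eval z‖ ^ 2 := by positivity
  rw [div_le_iff₀ hn', Real.log_le_iff_le_exp hpos, mul_comm]
  exact htb z

lemma le_Phi {n : ℕ} (hn : 1 ≤ n) {t : ℂ[X]} (ht : t ∈ V n)
    (htb : ∀ w, ‖t.eval w‖ ^ 2 ≤ Real.exp (n * S.φ w)) (z : ℂ) :
    ‖t.eval z‖ ^ 2 ≤ Real.exp (n * S.Phi z) := by
  by_cases ht0 : t.eval z = 0
  · rw [ht0]; simp only [norm_zero, ne_eq, OfNat.ofNat_ne_zero, not_false_eq_true, zero_pow]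
    positivity
  have hn' : (0 : ℝ) < n := by exact_mod_cast hn
  have hpos : 0 < ‖t.eval z‖ ^ 2 := by positivity
  have h := le_csSup (S.vals_bddAbove z) ⟨n, hn, t, ht, htb, ht0, rfl⟩
  rw [div_le_iff₀ hn', Real.log_le_iff_le_exp hpos, mul_comm] at h
  exact h

lemma exists_near_Phi (z : ℂ) {ε : ℝ} (hε : 0 < ε) : ∃ n : ℕ, 1 ≤ n ∧ ∃ t ∈ V n,
    (∀ w, ‖t.eval w‖ ^ 2 ≤ Real.exp (n * S.φ w)) ∧ t.eval z ≠ 0 ∧
      S.Phi z - ε ≤ Real.log (‖t.eval z‖ ^ 2) / n := by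
  obtain ⟨x, ⟨n, hn, t, ht, htb, ht0, rfl⟩, hx⟩ := exists_lt_of_lt_csSup (S.vals_nonempty z)
    (show S.Phi z - ε < sSup (S.vals z) by rw [Phi]; linarith)
  exact ⟨n, hn, t, ht, htb, ht0, hx.le⟩

lemma s_mem (k : ℕ) (i : Fin (k + 1)) : S.s k i ∈ S.F.F k (S.lam k i) := by
  rw [S.adapted]
  exact Submodule.subset_span ⟨i, by simp, rfl⟩

lemma scale_norm {D : ℝ} (hD : 0 < D) (u : ℂ[X]) (w : ℂ) :
    ‖((((Real.sqrt D)⁻¹ : ℝ) : ℂ) • u).eval w‖ ^ 2 = D⁻¹ * ‖u.eval w‖ ^ 2 := by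
  rw [eval_smul, smul_eq_mul, norm_mul, mul_pow, Complex.norm_real,
    Real.norm_of_nonneg (by positivity), inv_pow, Real.sq_sqrt hD.le]

lemma s_le_Phi {ε : ℝ} (hε : 0 < ε) : ∃ C : ℝ, 0 < C ∧
    (∀ k i z, ‖(S.s k i).eval z‖ ^ 2 ≤ C * Real.exp (ε * k) * Real.exp (k * S.φ z)) ∧
    ∀ k, 1 ≤ k → ∀ i z, ‖(S.s k i).eval z‖ ^ 2 ≤ C * Real.exp (ε * k) * Real.exp (k * S.Phi z) := by
  obtain ⟨C, hC, hbm⟩ := S.bm ε hε
  refine ⟨C, hC, hbm, fun k hk i z => ?_⟩
  have hD : 0 < C * Real.exp (ε * k) := by positivity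
  have h1 : ∀ w, ‖((((Real.sqrt (C * Real.exp (ε * k)))⁻¹ : ℝ) : ℂ) • S.s k i).eval w‖ ^ 2 ≤
      Real.exp (k * S.φ w) := by
    intro w
    rw [scale_norm hD, inv_mul_le_iff₀ hD]
    exact hbm k i w
  have h2 := S.le_Phi hk (Submodule.smul_mem _ _ (S.F.le_V _ _ (S.s_mem k i))) h1 z
  rw [scale_norm hD, inv_mul_le_iff₀ hD] at h2
  exact h2

lemma K_pos {k : ℕ} (hk : 1 ≤ k) {f : ℝ → ℝ} (hf : Antitone f) (z : ℂ) : 0 < S.K k f z := by
  obtain ⟨C, hC⟩ := S.F.bounded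
  have hmem : (Polynomial.C ((Real.exp (-(k * S.A) / 2) : ℝ) : ℂ)) ∈ S.F.F k (-(C * k)) := by
    rw [(hC k).1 _ le_rfl]; exact const_mem_V _ _
  have h := S.value_le hk hf hmem (S.const_adm k) z
  rw [eval_C, Complex.norm_real] at h
  have hpos : 0 < ‖Real.exp (-(k * S.A) / 2)‖ ^ 2 :=
    pow_pos (norm_pos_iff.2 (Real.exp_pos _).ne') 2
  have hC0 := S.C₀_pos
  by_contra hcon
  have h0 : S.K k f z = 0 := le_antisymm (not_lt.1 hcon) (S.K_nonneg _ _ _)
  rw [h0, mul_zero] at h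
  linarith

lemma K_eq_exp {k : ℕ} (hk : 1 ≤ k) {f : ℝ → ℝ} (hf : Antitone f) (z : ℂ) :
    S.K k f z = Real.exp (k * S.phi k f z) := by
  have hk' : (0 : ℝ) < k := by exact_mod_cast hk
  rw [phi, mul_inv_cancel_left₀ hk'.ne', Real.exp_log (S.K_pos hk hf z)]

lemma exp_beats (C : ℝ) {ε : ℝ} (hε : 0 < ε) :
    ∀ᶠ k : ℕ in atTop, ((k : ℝ) + 1) * C < Real.exp (ε * k) := by
  by_cases hC : 0 < C
  · have h := (tendsto_log_div_nat hC).eventually (gt_mem_nhds hε)
    filter_upwards [h, eventually_gt_atTop 0] with k hk hk0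
    have hk' : (0 : ℝ) < k := by exact_mod_cast hk0
    rw [div_lt_iff₀ hk'] at hk
    rwa [← Real.log_lt_iff_lt_exp (by positivity)]
  · filter_upwards with k
    have : ((k : ℝ) + 1) * C ≤ 0 := mul_nonpos_of_nonneg_of_nonpos (by positivity) (not_lt.1 hC)
    exact this.trans_lt (Real.exp_pos _)

/-- Comparison: if `f₀ - f₁ ≤ β` on most jumping numbers then `ψ₁ ≤ φ₀ + β`. -/
lemma comparison {f₀ f₁ : ℝ → ℝ} (hf₀ : Antitone f₀) (hf₁ : Antitone f₁) {ψ₀ ψ₁ : ℂ → ℝ}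
    (h0 : S.Conv f₀ ψ₀) (h1 : S.Conv f₁ ψ₁) {φ₀ : ℂ → ℝ} (hφ₀ : Continuous φ₀)
    (hψφ : ∀ z, ψ₀ z ≤ φ₀ z) {β : ℝ}
    (hβ : ∀ κ > 0, ∃ c, (∀ᶠ k : ℕ in atTop, (cnt S.lam k (Set.Iio c) : ℝ) ≤ κ * k) ∧
      (∀ k i, 1 ≤ k → c ≤ S.lam k i / k → f₀ (S.lam k i / k) - f₁ (S.lam k i / k) ≤ β) ∧
      f₀ c - f₁ c ≤ β) (z : ℂ) : ψ₁ z ≤ φ₀ z + β := by
  by_contra hcon
  push Not at hcon
  set ε := (ψ₁ z - φ₀ z - β) / 8 with hε
  have hεpos : 0 < ε := by rw [hε]; linarith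
  have hU : {w | φ₀ w < φ₀ z + ε} ∈ 𝓝 z :=
    hφ₀.continuousAt.eventually (gt_mem_nhds (by linarith))
  obtain ⟨n₀, hn₀, t, ht, htb, ht0, htΦ⟩ := S.exists_near_Phi z hεpos
  obtain ⟨κ, hκ, hP⟩ := S.P_lemma hn₀ ht htb ht0 hεpos hU
  obtain ⟨c, hc1, hc2, hc3⟩ := hβ κ hκ
  obtain ⟨z', hz', n, hn, u, hu, hub, hval⟩ := hP c hc1
  have hn' : (0 : ℝ) < n := by exact_mod_cast hn
  have hA : S.Phi z - 2 * ε ≤ f₀ c + φ₀ z + ε := by
    have h2 := S.atom_le hf₀ h0 hn hu hub z'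
    rw [mul_div_cancel_left₀ _ hn'.ne'] at h2
    have h3 := hval.trans h2
    rw [Real.exp_le_exp] at h3
    have h4 := le_of_mul_le_mul_left h3 hn'
    have h5 := hψφ z'
    have h6 : φ₀ z' < φ₀ z + ε := hz'
    linarith
  obtain ⟨C, hC, -, hsΦ⟩ := S.s_le_Phi hεpos
  have e1 : ∃ᶠ k : ℕ in atTop, ψ₁ z - ε < S.phi k f₁ z := (h1 z ε hεpos).2
  have e2 : ∀ᶠ k : ℕ in atTop, S.phi k f₀ z < ψ₀ z + ε := (h0 z ε hεpos).1
  have e3 := exp_beats (C + 1) (show 0 < ε by positivity)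
  obtain ⟨k, hk1, hk2, hk3, hk⟩ :=
    (e1.and_eventually (e2.and (e3.and (eventually_ge_atTop 1)))).exists
  have hk' : (0 : ℝ) < k := by exact_mod_cast hk
  have hsplit : S.K k f₁ z ≤ Real.exp (k * β) * S.K k f₀ z +
      (k + 1) * (C * Real.exp (ε * k) * Real.exp (k * S.Phi z) * Real.exp (-(k * f₁ c))) := by
    have hterm : ∀ i : Fin (k + 1), ‖(S.s k i).eval z‖ ^ 2 * Real.exp (-(k * f₁ (S.lam k i / k))) ≤
        Real.exp (k * β) * (‖(S.s k i).eval z‖ ^ 2 * Real.exp (-(k * f₀ (S.lam k i / k)))) +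
        C * Real.exp (ε * k) * Real.exp (k * S.Phi z) * Real.exp (-(k * f₁ c)) := by
      intro i
      by_cases hi : c ≤ S.lam k i / k
      · have h2 := hc2 k i hk hi
        have h3 : Real.exp (-(k * f₁ (S.lam k i / k))) ≤
            Real.exp (k * β) * Real.exp (-(k * f₀ (S.lam k i / k))) := by
          rw [← Real.exp_add, Real.exp_le_exp]
          nlinarith
        have h4 : ‖(S.s k i).eval z‖ ^ 2 * Real.exp (-(k * f₁ (S.lam k i / k))) ≤
            ‖(S.s k i).eval z‖ ^ 2 *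
              (Real.exp (k * β) * Real.exp (-(k * f₀ (S.lam k i / k)))) := by gcongr
        have h5 : 0 ≤ C * Real.exp (ε * k) * Real.exp (k * S.Phi z) * Real.exp (-(k * f₁ c)) := by
          positivity
        linarith
      · push Not at hi
        have h2 : f₁ c ≤ f₁ (S.lam k i / k) := hf₁ hi.le
        have h3 : Real.exp (-(k * f₁ (S.lam k i / k))) ≤ Real.exp (-(k * f₁ c)) := by
          rw [Real.exp_le_exp]; nlinarith
        have h4 : ‖(S.s k i).eval z‖ ^ 2 * Real.exp (-(k * f₁ (S.lam k i / k))) ≤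
            C * Real.exp (ε * k) * Real.exp (k * S.Phi z) * Real.exp (-(k * f₁ c)) := by
          apply mul_le_mul (hsΦ k hk i z) h3 (Real.exp_pos _).le (by positivity)
        have h5 : 0 ≤ Real.exp (k * β) *
            (‖(S.s k i).eval z‖ ^ 2 * Real.exp (-(k * f₀ (S.lam k i / k)))) := by positivity
        linarith
    rw [K, K, Finset.mul_sum]
    refine (Finset.sum_le_sum fun i _ => hterm i).trans ?_
    rw [Finset.sum_add_distrib, Finset.sum_const, Finset.card_univ, Fintype.card_fin,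
      nsmul_eq_mul]
    push_cast
    linarith
  rw [S.K_eq_exp hk hf₁, S.K_eq_exp hk hf₀] at hsplit
  set E := Real.exp (k * (φ₀ z + β + 4 * ε)) with hE
  have hEpos : 0 < E := Real.exp_pos _
  have g1 : Real.exp (ε * k) * E ≤ Real.exp (k * S.phi k f₁ z) := by
    rw [hE, ← Real.exp_add, Real.exp_le_exp]
    have : ψ₁ z = φ₀ z + β + 8 * ε := by rw [hε]; ring
    nlinarith
  have g2 : Real.exp (k * β) * Real.exp (k * S.phi k f₀ z) ≤ E := by
    rw [hE, ← Real.exp_add, Real.exp_le_exp]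
    have := hψφ z
    nlinarith
  have g3 : C * Real.exp (ε * k) * Real.exp (k * S.Phi z) * Real.exp (-(k * f₁ c)) ≤ C * E := by
    rw [mul_assoc, mul_assoc, ← Real.exp_add, ← Real.exp_add, hE]
    apply mul_le_mul_of_nonneg_left _ hC.le
    rw [Real.exp_le_exp]
    nlinarith
  have g4 : Real.exp (ε * k) * E ≤ E + (k + 1) * (C * E) := by
    refine g1.trans (hsplit.trans ?_)
    gcongr
  have g5 : Real.exp (ε * k) ≤ 1 + (k + 1) * C := by
    have : Real.exp (ε * k) * E ≤ (1 + (k + 1) * C) * E := by linarith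
    exact le_of_mul_le_mul_right this hEpos
  nlinarith

/-- Good points. -/
lemma good_point {f g : ℝ → ℝ} (hf : Antitone f) {a b : ℝ}
    (hlow : ∀ κ > 0, ∃ c, a < c ∧ c ≤ b ∧
      ∀ᶠ k : ℕ in atTop, (cnt S.lam k (Set.Iio c) : ℝ) ≤ κ * k)
    (hle : ∀ k i, 1 ≤ k → S.lam k i / k ≤ b) (hgf : ∀ x, a ≤ x → x ≤ b → g x ≤ f x)
    {ψ : ℂ → ℝ} (hψ : S.Conv f ψ) (z : ℂ) {ε : ℝ} (hε : 0 < ε) {U : Set ℂ} (hU : U ∈ 𝓝 z) :
    ∃ z' ∈ U, ∃ n : ℕ, 1 ≤ n ∧ ∃ r : ℝ, ∃ u ∈ S.F.F n (n * r),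
      (∀ w, ‖u.eval w‖ ^ 2 ≤ Real.exp (n * (S.φ w - g r))) ∧
      Real.exp (n * (ψ z - ε)) ≤ ‖u.eval z'‖ ^ 2 := by
  obtain ⟨n₀, hn₀, t, ht, htb, ht0, htΦ⟩ := S.exists_near_Phi z (show 0 < ε / 4 by positivity)
  obtain ⟨κ, hκ, hP⟩ := S.P_lemma hn₀ ht htb ht0 (show 0 < ε / 4 by positivity) hU
  obtain ⟨c, hac, hcb, hc⟩ := hlow κ hκ
  by_cases hcase : ψ z - ε / 2 ≤ S.Phi z - f c
  · obtain ⟨z', hz', n, hn, u, hu, hub, hval⟩ := hP c hc
    have hn' : (0 : ℝ) < n := by exact_mod_cast hn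
    have hD : 0 < Real.exp (n * g c) := Real.exp_pos _
    refine ⟨z', hz', n, hn, c, (((Real.sqrt (Real.exp (n * g c)))⁻¹ : ℝ) : ℂ) • u,
      Submodule.smul_mem _ _ hu, fun w => ?_, ?_⟩
    · rw [scale_norm hD, inv_mul_le_iff₀ hD, ← Real.exp_add]
      have e : n * g c + n * (S.φ w - g c) = n * S.φ w := by ring
      rw [e]; exact hub w
    · rw [scale_norm hD, le_inv_mul_iff₀ hD, ← Real.exp_add]
      refine le_trans ?_ hval
      rw [Real.exp_le_exp]
      have := hgf c hac.le hcb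
      nlinarith
  · push Not at hcase
    obtain ⟨C, hC, hbm, hsΦ⟩ := S.s_le_Phi (show 0 < ε / 16 by positivity)
    have e1 : ∃ᶠ k : ℕ in atTop, ψ z - ε / 4 < S.phi k f z := (hψ z (ε / 4) (by positivity)).2
    have e3 := exp_beats (2 * C) (show 0 < ε / 16 by positivity)
    have e4 := exp_beats (2 : ℝ) (show 0 < ε / 16 by positivity)
    obtain ⟨k, hk1, hk3, hk4, hk⟩ :=
      (e1.and_eventually (e3.and (e4.and (eventually_ge_atTop 1)))).exists
    have hk' : (0 : ℝ) < k := by exact_mod_cast hk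
    have hKlow : Real.exp (k * (ψ z - ε / 4)) ≤ S.K k f z := by
      rw [S.K_eq_exp hk hf, Real.exp_le_exp]
      exact mul_le_mul_of_nonneg_left hk1.le hk'.le
    set E := Real.exp (k * (ψ z - ε / 4)) with hE
    have hEpos : 0 < E := Real.exp_pos _
    -- some high index has a large contribution
    obtain ⟨i, hi, hival⟩ : ∃ i : Fin (k + 1), c ≤ S.lam k i / k ∧
        E / (2 * (k + 1)) ≤ ‖(S.s k i).eval z‖ ^ 2 * Real.exp (-(k * f (S.lam k i / k))) := by
      by_contra hno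
      push Not at hno
      have hlowterm : ∀ i : Fin (k + 1), ‖(S.s k i).eval z‖ ^ 2 *
          Real.exp (-(k * f (S.lam k i / k))) < E / (k + 1) := by
        intro i
        by_cases hi : c ≤ S.lam k i / k
        · refine (hno i hi).trans_le ?_
          apply div_le_div_of_nonneg_left hEpos.le (by positivity)
          linarith
        · push Not at hi
          have h2 : f c ≤ f (S.lam k i / k) := hf hi.le
          have h3 : Real.exp (-(k * f (S.lam k i / k))) ≤ Real.exp (-(k * f c)) := by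
            rw [Real.exp_le_exp]; nlinarith
          have h4 : ‖(S.s k i).eval z‖ ^ 2 * Real.exp (-(k * f (S.lam k i / k))) ≤
              C * Real.exp (ε / 16 * k) * Real.exp (k * S.Phi z) * Real.exp (-(k * f c)) := by
            apply mul_le_mul (hsΦ k hk i z) h3 (Real.exp_pos _).le (by positivity)
          refine h4.trans_lt ?_
          rw [lt_div_iff₀ (by positivity)]
          have h5 : Real.exp (k * S.Phi z) * Real.exp (-(k * f c)) ≤
              Real.exp (k * (ψ z - ε / 2)) := by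
            rw [← Real.exp_add, Real.exp_le_exp]
            nlinarith
          calc C * Real.exp (ε / 16 * k) * Real.exp (k * S.Phi z) * Real.exp (-(k * f c)) * (k + 1)
              = C * (k + 1) * Real.exp (ε / 16 * k) *
                (Real.exp (k * S.Phi z) * Real.exp (-(k * f c))) := by ring
            _ ≤ C * (k + 1) * Real.exp (ε / 16 * k) * Real.exp (k * (ψ z - ε / 2)) := by gcongr
            _ < Real.exp (ε / 16 * k) * Real.exp (ε / 16 * k) * Real.exp (k * (ψ z - ε / 2)) := by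
                gcongr
                have : 0 < ((k : ℝ) + 1) * C := by positivity
                linarith
            _ = Real.exp (k * (ψ z - 3 * ε / 8)) := by
                rw [← Real.exp_add, ← Real.exp_add]; congr 1; ring
            _ ≤ E := by
                rw [hE, Real.exp_le_exp]; nlinarith
      have hsum : S.K k f z < E := by
        rw [K]
        calc ∑ i : Fin (k + 1), ‖(S.s k i).eval z‖ ^ 2 * Real.exp (-(k * f (S.lam k i / k))) <
              ∑ _i : Fin (k + 1), E / (k + 1) :=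
              Finset.sum_lt_sum_of_nonempty ⟨0, Finset.mem_univ _⟩ fun i _ => hlowterm i
          _ = E := by
              rw [Finset.sum_const, Finset.card_univ, Fintype.card_fin, nsmul_eq_mul]
              push_cast
              field_simp
      linarith
    set r := S.lam k i / k with hr
    have hkr : (k : ℝ) * r = S.lam k i := by rw [hr]; field_simp
    have hD : 0 < C * Real.exp (ε / 16 * k) * Real.exp (k * g r) := by positivity
    refine ⟨z, mem_of_mem_nhds hU, k, hk, r,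
      (((Real.sqrt (C * Real.exp (ε / 16 * k) * Real.exp (k * g r)))⁻¹ : ℝ) : ℂ) • S.s k i,
      Submodule.smul_mem _ _ (by rw [hkr]; exact S.s_mem k i), fun w => ?_, ?_⟩
    · rw [scale_norm hD, inv_mul_le_iff₀ hD, mul_assoc, ← Real.exp_add]
      have e : k * g r + k * (S.φ w - g r) = k * S.φ w := by ring
      rw [e]; exact hbm k i w
    · rw [scale_norm hD, le_inv_mul_iff₀ hD]
      have h1 : g r ≤ f r := hgf r (by linarith) (hle k i hk)
      have h2 : Real.exp (k * g r) ≤ Real.exp (k * f r) := by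
        rw [Real.exp_le_exp]; nlinarith
      have h3 : E / (2 * (k + 1)) * Real.exp (k * f r) ≤ ‖(S.s k i).eval z‖ ^ 2 := by
        have : ‖(S.s k i).eval z‖ ^ 2 = ‖(S.s k i).eval z‖ ^ 2 * Real.exp (-(k * f r)) *
            Real.exp (k * f r) := by
          rw [mul_assoc, ← Real.exp_add]; simp
        rw [this]
        gcongr
      refine le_trans ?_ h3
      rw [div_mul_eq_mul_div E (2 * ((k : ℝ) + 1)) _, le_div_iff₀ (by positivity)]
      calc C * Real.exp (ε / 16 * k) * Real.exp (k * g r) * Real.exp (k * (ψ z - ε)) *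
            (2 * (k + 1)) = ((k + 1) * (2 * C)) * Real.exp (ε / 16 * k) *
              Real.exp (k * (ψ z - ε)) * Real.exp (k * g r) := by ring
        _ ≤ Real.exp (ε / 16 * k) * Real.exp (ε / 16 * k) *
              Real.exp (k * (ψ z - ε)) * Real.exp (k * f r) := by gcongr
        _ = Real.exp (k * (ψ z - 7 * ε / 8)) * Real.exp (k * f r) := by
            rw [← Real.exp_add, ← Real.exp_add]; congr 2; ring
        _ ≤ E * Real.exp (k * f r) := by
            have hEE : Real.exp (k * (ψ z - 7 * ε / 8)) ≤ E := by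
              rw [hE, Real.exp_le_exp]; nlinarith
            exact mul_le_mul_of_nonneg_right hEE (Real.exp_pos _).le

end Sys

end Pool.Agent.Lib.MP_ab0522
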