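import Mathlib

/-!
# A convex nonincreasing Lipschitz minorant
-/

namespace Pool.Agent.Lib.MP_ab0522

open Set

/-- the largest nonincreasing `K`-Lipschitz minorant of `f` on `[a, b]` -/
noncomputable def reg (f : ℝ → ℝ) (a b K : ℝ) (l : ℝ) : ℝ :=
  sInf ((fun x => f x + K * max (x - l) 0) '' Icc a b)

section reg

variable {f : ℝ → ℝ} {a b K : ℝ}

lemma reg_nonempty (hab : a ≤ b) (l : ℝ) :
    ((fun x => f x + K * max (x - l) 0) '' Icc a b).Nonempty :=
  ⟨_, b, ⟨hab, le_rfl⟩, rfl⟩

lemma reg_lower (hf : Antitone f) (hK : 0 ≤ K) (l : ℝ) :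
    f b ∈ lowerBounds ((fun x => f x + K * max (x - l) 0) '' Icc a b) := by
  rintro _ ⟨x, hx, rfl⟩
  have h1 := hf hx.2
  have h2 : 0 ≤ K * max (x - l) 0 := mul_nonneg hK (le_max_right _ _)
  simp only
  linarith

lemma reg_bdd (hf : Antitone f) (hK : 0 ≤ K) (l : ℝ) :
    BddBelow ((fun x => f x + K * max (x - l) 0) '' Icc a b) := ⟨_, reg_lower hf hK l⟩

lemma le_reg (hf : Antitone f) (hab : a ≤ b) (hK : 0 ≤ K) (l : ℝ) : f b ≤ reg f a b K l :=
  le_csInf (reg_nonempty hab l) (reg_lower hf hK l)

lemma reg_le_of_mem (hf : Antitone f) (hK : 0 ≤ K) (l : ℝ) {x : ℝ} (hx : x ∈ Icc a b) :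
    reg f a b K l ≤ f x + K * max (x - l) 0 := csInf_le (reg_bdd hf hK l) ⟨x, hx, rfl⟩

lemma reg_le (hf : Antitone f) (hK : 0 ≤ K) {x : ℝ} (hx : x ∈ Icc a b) :
    reg f a b K x ≤ f x := by
  have := reg_le_of_mem hf hK x hx
  simpa using this

lemma reg_antitone (hf : Antitone f) (hab : a ≤ b) (hK : 0 ≤ K) : Antitone (reg f a b K) := by
  intro l l' hll
  refine le_csInf (reg_nonempty hab l) ?_
  rintro _ ⟨x, hx, rfl⟩
  refine (reg_le_of_mem hf hK l' hx).trans ?_
  simp only
  gcongr

lemma reg_convex (hf : Antitone f) (hc : ConvexOn ℝ (Icc a b) f) (hab : a ≤ b) (hK : 0 ≤ K) :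
    ConvexOn ℝ univ (reg f a b K) := by
  refine ⟨convex_univ, ?_⟩
  intro l _ l' _ p q hp hq hpq
  simp only [smul_eq_mul]
  -- first for all pairs
  have key : ∀ x ∈ Icc a b, ∀ x' ∈ Icc a b, reg f a b K (p * l + q * l') ≤
      p * (f x + K * max (x - l) 0) + q * (f x' + K * max (x' - l') 0) := by
    intro x hx x' hx'
    have hmem : p * x + q * x' ∈ Icc a b := by
      have := hc.1 hx hx' hp hq hpq
      simpa using this
    refine (reg_le_of_mem hf hK _ hmem).trans ?_
    have h1 : f (p * x + q * x') ≤ p * f x + q * f x' := by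
      have := hc.2 hx hx' hp hq hpq
      simpa using this
    have h2 : max (p * x + q * x' - (p * l + q * l')) 0 ≤ p * max (x - l) 0 + q * max (x' - l') 0 := by
      apply max_le
      · have h3 := mul_le_mul_of_nonneg_left (le_max_left (x - l) 0) hp
        have h4 := mul_le_mul_of_nonneg_left (le_max_left (x' - l') 0) hq
        linarith
      · have h3 := mul_nonneg hp (le_max_right (x - l) 0)
        have h4 := mul_nonneg hq (le_max_right (x' - l') 0)
        linarith
    have h3 := mul_le_mul_of_nonneg_left h2 hK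
    linarith
  have key2 : ∀ x ∈ Icc a b, reg f a b K (p * l + q * l') ≤
      p * (f x + K * max (x - l) 0) + q * reg f a b K l' := by
    intro x hx
    rcases hq.eq_or_lt with h0 | hq0
    · rw [← h0]
      have := key x hx x hx
      rw [← h0] at this
      simpa using this
    · have : (reg f a b K (p * l + q * l') - p * (f x + K * max (x - l) 0)) / q ≤
          reg f a b K l' := by
        refine le_csInf (reg_nonempty hab l') ?_
        rintro _ ⟨x', hx', rfl⟩
        rw [div_le_iff₀ hq0]
        have := key x hx x' hx'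
        simp only
        linarith
      rw [div_le_iff₀ hq0] at this
      linarith
  rcases hp.eq_or_lt with h0 | hp0
  · rw [← h0]
    have := key2 a ⟨le_rfl, hab⟩
    rw [← h0] at this
    simpa using this
  · have : (reg f a b K (p * l + q * l') - q * reg f a b K l') / p ≤ reg f a b K l := by
      refine le_csInf (reg_nonempty hab l) ?_
      rintro _ ⟨x, hx, rfl⟩
      rw [div_le_iff₀ hp0]
      have := key2 x hx
      simp only
      linarith
    rw [div_le_iff₀ hp0] at this
    linarith

/-- slope bound for a convex function on `[a, b]` to the right of `c > a` -/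
lemma slope_bound (hf : Antitone f) (hc : ConvexOn ℝ (Icc a b) f) {c : ℝ} (hac : a < c) {x y : ℝ}
    (hcx : c ≤ x) (hxy : x ≤ y) (hyb : y ≤ b) :
    f x - f y ≤ (f a - f c) / (c - a) * (y - x) := by
  rcases hxy.eq_or_lt with h0 | hxy'
  · rw [h0]; simp
  have hab : a ≤ b := by linarith
  have hfac : 0 ≤ (f a - f c) / (c - a) := div_nonneg (by linarith [hf hac.le]) (by linarith)
  -- slope on `[a, c]` ≤ slope on `[x, y]`
  have h1 : (f c - f a) / (c - a) ≤ (f y - f x) / (y - x) := by
    rcases hcx.eq_or_lt with h0 | hcx'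
    · subst h0
      exact hc.slope_mono_adjacent ⟨le_rfl, hab⟩ ⟨by linarith, hyb⟩ hac hxy'
    · have h2 := hc.slope_mono_adjacent (x := a) (y := c) (z := x) ⟨le_rfl, hab⟩
        ⟨by linarith, by linarith⟩ hac hcx'
      have h3 := hc.slope_mono_adjacent (x := c) (y := x) (z := y) ⟨hac.le, by linarith⟩
        ⟨by linarith, hyb⟩ hcx' hxy'
      exact h2.trans h3
  have hyx : 0 < y - x := by linarith
  rw [le_div_iff₀ hyx] at h1
  have e : (f c - f a) / (c - a) = -((f a - f c) / (c - a)) := by
    rw [← neg_div]; congr 1; ring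
  rw [e] at h1
  linarith

lemma reg_eq (hf : Antitone f) (hc : ConvexOn ℝ (Icc a b) f) (hK : 0 ≤ K) {c : ℝ} (hac : a < c)
    (hKc : (f a - f c) / (c - a) ≤ K) {x : ℝ} (hx : x ∈ Icc c b) : reg f a b K x = f x := by
  have hab : a ≤ b := by linarith [hx.1, hx.2]
  refine le_antisymm (reg_le hf hK ⟨by linarith [hx.1], hx.2⟩) ?_
  refine le_csInf (reg_nonempty hab x) ?_
  rintro _ ⟨y, hy, rfl⟩
  simp only
  rcases le_total y x with h | h
  · have h1 := hf h
    have h2 : 0 ≤ K * max (y - x) 0 := mul_nonneg hK (le_max_right _ _)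
    linarith
  · rw [max_eq_left (by linarith)]
    have h1 := slope_bound hf hc hac hx.1 h hy.2
    have h2 : (f a - f c) / (c - a) * (y - x) ≤ K * (y - x) :=
      mul_le_mul_of_nonneg_right hKc (by linarith)
    linarith

end reg

end Pool.Agent.Lib.MP_ab0522
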