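import Mathlib
import Pool.Agent.Lib.MP_ab0522.Compare
import Pool.Agent.Lib.MP_ab0522.Reg

/-!
# The multiplicative family of convex sets attached to a convex function `g`
-/

namespace Pool.Agent.Lib.MP_ab0522

open Polynomial MeasureTheory Filter Topology

namespace Sys

variable (S : Sys)

/-- atoms -/
def atoms (g : ℝ → ℝ) (n : ℕ) : Set ℂ[X] := {u | ∃ r : ℝ, u ∈ S.F.F n (n * r) ∧
  ∀ z, ‖u.eval z‖ ^ 2 ≤ Real.exp (n * (S.φ z - g r))}

/-- convex hulls of atoms -/
def hull (g : ℝ → ℝ) (n : ℕ) : Set ℂ[X] := convexHull ℝ (S.atoms g n)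

variable {S}

lemma atoms_subset_hull (g : ℝ → ℝ) (n : ℕ) : S.atoms g n ⊆ S.hull g n := subset_convexHull _ _

lemma atoms_mem_V {g : ℝ → ℝ} {n : ℕ} {u : ℂ[X]} (hu : u ∈ S.atoms g n) : u ∈ V n := by
  obtain ⟨r, hr, -⟩ := hu
  exact S.F.le_V _ _ hr

lemma hull_convex (g : ℝ → ℝ) (n : ℕ) : Convex ℝ (S.hull g n) := convex_convexHull _ _

/-- a convexity principle for `hull` -/
lemma hull_subset {g : ℝ → ℝ} {n : ℕ} {T : Set ℂ[X]} (hT : Convex ℝ T) (h : S.atoms g n ⊆ T) :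
    S.hull g n ⊆ T := convexHull_min h hT

lemma hull_mem_V {g : ℝ → ℝ} {n : ℕ} {u : ℂ[X]} (hu : u ∈ S.hull g n) : u ∈ V n := by
  have : Convex ℝ (V n : Set ℂ[X]) := by
    intro x hx y hy p q _ _ _
    have hx' : x ∈ V n := hx
    have hy' : y ∈ V n := hy
    change p • x + q • y ∈ V n
    have e1 : p • x = (p : ℂ) • x := by ext; simp
    have e2 : q • y = (q : ℂ) • y := by ext; simp
    rw [e1, e2]
    exact Submodule.add_mem _ (Submodule.smul_mem _ _ hx') (Submodule.smul_mem _ _ hy')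
  exact hull_subset this (fun _ hu => atoms_mem_V hu) hu

lemma atoms_mul {g : ℝ → ℝ} (hg : ConvexOn ℝ Set.univ g) {n m : ℕ} {u v : ℂ[X]}
    (hu : u ∈ S.atoms g n) (hv : v ∈ S.atoms g m) : u * v ∈ S.atoms g (n + m) := by
  obtain ⟨r, hr, hrb⟩ := hu
  obtain ⟨r', hr', hrb'⟩ := hv
  have hmul := S.F.mul_mem _ _ _ _ _ _ hr hr'
  have hval : ∀ z, ‖(u * v).eval z‖ ^ 2 ≤ Real.exp (n * (S.φ z - g r) + m * (S.φ z - g r')) := by
    intro z
    rw [eval_mul, norm_mul, mul_pow, Real.exp_add]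
    exact mul_le_mul (hrb z) (hrb' z) (by positivity) (Real.exp_pos _).le
  by_cases h0 : n + m = 0
  · have hn : n = 0 := by omega
    have hm : m = 0 := by omega
    subst hn hm
    refine ⟨0, ?_, ?_⟩
    · simpa using hmul
    · intro z
      have := hval z
      simpa using this
  · have hnm : (0 : ℝ) < n + m := by
      have : 0 < n + m := Nat.pos_of_ne_zero h0
      exact_mod_cast this
    refine ⟨(n * r + m * r') / (n + m), ?_, ?_⟩
    · have e : ((n + m : ℕ) : ℝ) * ((n * r + m * r') / (n + m)) = n * r + m * r' := by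
        push_cast; field_simp
      rw [e]; exact hmul
    · intro z
      refine (hval z).trans (Real.exp_le_exp.2 ?_)
      have hp : 0 ≤ (n : ℝ) / ((n : ℝ) + m) := by positivity
      have hq : 0 ≤ (m : ℝ) / ((n : ℝ) + m) := by positivity
      have h1 := hg.2 (Set.mem_univ r) (Set.mem_univ r') hp hq (by field_simp)
      simp only [smul_eq_mul] at h1
      have e1 : (n : ℝ) / (n + m) * r + m / (n + m) * r' = (n * r + m * r') / (n + m) := by
        field_simp
      rw [e1] at h1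
      have h2 := mul_le_mul_of_nonneg_left h1 hnm.le
      have e2 : ((n : ℝ) + m) * (n / (n + m) * g r + m / (n + m) * g r') = n * g r + m * g r' := by
        field_simp
      rw [e2] at h2
      push_cast
      linarith

lemma hull_mul {g : ℝ → ℝ} (hg : ConvexOn ℝ Set.univ g) {n m : ℕ} {u v : ℂ[X]}
    (hu : u ∈ S.hull g n) (hv : v ∈ S.hull g m) : u * v ∈ S.hull g (n + m) := by
  have hlin : ∀ w : ℂ[X], Convex ℝ {x : ℂ[X] | w * x ∈ S.hull g (n + m)} := by
    intro w x hx y hy p q hp hq hpq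
    simp only [Set.mem_ofPred_eq] at hx hy ⊢
    have e : w * (p • x + q • y) = p • (w * x) + q • (w * y) := by
      rw [mul_add, mul_smul_comm, mul_smul_comm]
    rw [e]
    exact hull_convex g _ hx hy hp hq hpq
  have h1 : ∀ w ∈ S.atoms g n, S.hull g m ⊆ {x : ℂ[X] | w * x ∈ S.hull g (n + m)} := by
    intro w hw
    refine hull_subset (hlin w) fun x hx => ?_
    exact atoms_subset_hull _ _ (atoms_mul hg hw hx)
  have h2 : S.hull g n ⊆ {x : ℂ[X] | v * x ∈ S.hull g (n + m)} := by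
    refine hull_subset (hlin v) fun x hx => ?_
    have := h1 x hx hv
    simp only [Set.mem_ofPred_eq] at this ⊢
    rwa [mul_comm]
  have := h2 hu
  simp only [Set.mem_ofPred_eq] at this
  rwa [mul_comm]

lemma one_mem_atoms (g : ℝ → ℝ) : (1 : ℂ[X]) ∈ S.atoms g 0 := by
  refine ⟨0, ?_, fun z => by simp⟩
  obtain ⟨C, hC⟩ := S.F.bounded
  have := (hC 0).1 ((0 : ℕ) * 0) (by simp)
  rw [this]
  have := const_mem_V 0 1
  simpa using this

lemma atoms_pow {g : ℝ → ℝ} (hg : ConvexOn ℝ Set.univ g) {n : ℕ} {u : ℂ[X]}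
    (hu : u ∈ S.atoms g n) (m : ℕ) : u ^ m ∈ S.atoms g (n * m) := by
  induction m with
  | zero => simpa using one_mem_atoms g
  | succ m ih =>
    rw [pow_succ, mul_add, mul_one]
    exact atoms_mul hg ih hu

/-- small sections are atoms -/
lemma exists_small (S : Sys) (g : ℝ → ℝ) (n : ℕ) : ∃ c : ℝ, 0 < c ∧ ∀ u ∈ V n,
    (∀ z, ‖u.eval z‖ ≤ c * (1 + ‖z‖) ^ n) → u ∈ S.atoms g n := by
  obtain ⟨C, hC⟩ := S.F.bounded
  set B : ℝ := (2 * Real.exp S.A) ^ n * Real.exp (n * g (-C)) with hB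
  have hBpos : 0 < B := by positivity
  refine ⟨(Real.sqrt B)⁻¹, by positivity, fun u hu hub => ⟨-C, ?_, fun z => ?_⟩⟩
  · rw [(hC n).1 _ (by linarith)]; exact hu
  · have h1 : (1 + ‖z‖) ^ 2 ≤ 2 * Real.exp S.A * Real.exp (S.φ z) := by
      have := S.growth z
      nlinarith [sq_nonneg (1 - ‖z‖)]
    calc ‖u.eval z‖ ^ 2 ≤ ((Real.sqrt B)⁻¹ * (1 + ‖z‖) ^ n) ^ 2 := by
          gcongr; exact hub z
      _ = B⁻¹ * ((1 + ‖z‖) ^ 2) ^ n := by
          rw [mul_pow, inv_pow, Real.sq_sqrt hBpos.le, ← pow_mul, ← pow_mul, mul_comm n 2]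
      _ ≤ B⁻¹ * (2 * Real.exp S.A * Real.exp (S.φ z)) ^ n := by gcongr
      _ = Real.exp (n * (S.φ z - g (-C))) := by
          rw [mul_pow, hB, mul_sub, Real.exp_sub, ← Real.exp_nat_mul]
          field_simp

/-- every polynomial becomes an atom after multiplication by a small constant -/
lemma poly_bound {n : ℕ} {u : ℂ[X]} (hu : u ∈ V n) : ∃ M : ℝ, 0 < M ∧
    ∀ z, ‖u.eval z‖ ≤ M * (1 + ‖z‖) ^ n := by
  refine ⟨∑ i ∈ Finset.range (n + 1), ‖u.coeff i‖ + 1, by positivity, fun z => ?_⟩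
  rw [eval_eq_sum_range' (Nat.lt_succ_of_le (mem_V.1 hu))]
  have h1 : (1 : ℝ) ≤ 1 + ‖z‖ := by linarith [norm_nonneg z]
  calc ‖∑ i ∈ Finset.range (n + 1), u.coeff i * z ^ i‖ ≤
      ∑ i ∈ Finset.range (n + 1), ‖u.coeff i‖ * (1 + ‖z‖) ^ n := by
        refine (norm_sum_le _ _).trans (Finset.sum_le_sum fun i hi => ?_)
        rw [norm_mul, norm_pow]
        apply mul_le_mul_of_nonneg_left _ (norm_nonneg _)
        calc ‖z‖ ^ i ≤ (1 + ‖z‖) ^ i := by gcongr; linarith
          _ ≤ (1 + ‖z‖) ^ n := by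
            apply pow_le_pow_right₀ h1
            rw [Finset.mem_range] at hi; omega
    _ = (∑ i ∈ Finset.range (n + 1), ‖u.coeff i‖) * (1 + ‖z‖) ^ n := by rw [Finset.sum_mul]
    _ ≤ _ := by
        apply mul_le_mul_of_nonneg_right _ (by positivity)
        linarith

lemma exists_smul_mem (S : Sys) (g : ℝ → ℝ) {n : ℕ} {u : ℂ[X]} (hu : u ∈ V n) :
    ∃ c : ℝ, 0 < c ∧ (c : ℂ) • u ∈ S.atoms g n := by
  obtain ⟨c, hc, h⟩ := exists_small S g n
  obtain ⟨M, hM, hMb⟩ := poly_bound hu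
  refine ⟨c / M, by positivity, h _ (Submodule.smul_mem _ _ hu) fun z => ?_⟩
  rw [eval_smul, smul_eq_mul, norm_mul, Complex.norm_real, Real.norm_of_nonneg (by positivity)]
  calc c / M * ‖u.eval z‖ ≤ c / M * (M * (1 + ‖z‖) ^ n) := by gcongr; exact hMb z
    _ = c * (1 + ‖z‖) ^ n := by field_simp

/-- coordinates of elements of the hull -/
lemma hull_coord {g : ℝ → ℝ} (hg : Antitone g) {n : ℕ} (hn : 1 ≤ n) {u : ℂ[X]}
    (hu : u ∈ S.hull g n) : ∃ a : Fin (n + 1) → ℂ, u = ∑ i, a i • S.s n i ∧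
      ∀ i, ‖a i‖ ^ 2 * Real.exp (n * g (S.lam n i / n)) ≤ S.C₀ := by
  have hn' : (0 : ℝ) < n := by exact_mod_cast hn
  set T : Set ℂ[X] := {u | ∃ a : Fin (n + 1) → ℂ, u = ∑ i, a i • S.s n i ∧
      ∀ i, ‖a i‖ ≤ Real.sqrt (S.C₀ * Real.exp (-(n * g (S.lam n i / n))))} with hT
  have hconv : Convex ℝ T := by
    rintro x ⟨a, rfl, ha⟩ y ⟨b, rfl, hb⟩ p q hp hq hpq
    refine ⟨fun i => (p : ℂ) * a i + (q : ℂ) * b i, ?_, fun i => ?_⟩
    · rw [Finset.smul_sum, Finset.smul_sum, ← Finset.sum_add_distrib]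
      refine Finset.sum_congr rfl fun i _ => ?_
      ext m
      simp only [coeff_add, coeff_smul, smul_eq_mul, Complex.real_smul]
      ring
    · calc ‖(p : ℂ) * a i + (q : ℂ) * b i‖ ≤ p * ‖a i‖ + q * ‖b i‖ := by
            refine (norm_add_le _ _).trans ?_
            rw [norm_mul, norm_mul, Complex.norm_real, Complex.norm_real, Real.norm_of_nonneg hp,
              Real.norm_of_nonneg hq]
        _ ≤ p * Real.sqrt (S.C₀ * Real.exp (-(n * g (S.lam n i / n)))) +
            q * Real.sqrt (S.C₀ * Real.exp (-(n * g (S.lam n i / n)))) := by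
            gcongr
            · exact ha i
            · exact hb i
        _ = _ := by rw [← add_mul, hpq, one_mul]
  have hC₀ := S.C₀_pos
  have hat : S.atoms g n ⊆ T := by
    rintro u ⟨r, hr, hrb⟩
    have hD : 0 < Real.exp (-(n * g r)) := Real.exp_pos _
    set w : ℂ := (((Real.sqrt (Real.exp (-(n * g r))))⁻¹ : ℝ) : ℂ) with hw
    have hw2 : ‖w‖ ^ 2 = Real.exp (n * g r) := by
      rw [hw, Complex.norm_real, Real.norm_of_nonneg (by positivity), inv_pow,
        Real.sq_sqrt hD.le, ← Real.exp_neg, neg_neg]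
    have hw0 : w ≠ 0 := by
      intro h0
      rw [h0] at hw2
      simp only [norm_zero, ne_eq, OfNat.ofNat_ne_zero, not_false_eq_true, zero_pow] at hw2
      exact (Real.exp_pos _).ne hw2
    have hadm : ∀ z, ‖(w • u).eval z‖ ^ 2 ≤ Real.exp (n * S.φ z) := by
      intro z
      rw [eval_smul, smul_eq_mul, norm_mul, mul_pow, hw2]
      calc Real.exp (n * g r) * ‖u.eval z‖ ^ 2 ≤
          Real.exp (n * g r) * Real.exp (n * (S.φ z - g r)) := by gcongr; exact hrb z
        _ = Real.exp (n * S.φ z) := by rw [← Real.exp_add]; congr 1; ring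
    obtain ⟨a, hua, ha, hat⟩ := S.dual n (w • u)
      (Submodule.smul_mem _ _ (S.F.le_V _ _ hr)) hadm
    refine ⟨fun i => w⁻¹ * a i, ?_, fun i => ?_⟩
    · have : u = w⁻¹ • (w • u) := by rw [smul_smul, inv_mul_cancel₀ hw0, one_smul]
      conv_lhs => rw [this, hua]
      rw [Finset.smul_sum]
      refine Finset.sum_congr rfl fun i _ => ?_
      rw [smul_smul]
    · apply Real.le_sqrt_of_sq_le
      simp only
      by_cases hi : S.lam n i < n * r
      · rw [hat _ (Submodule.smul_mem _ _ hr) i hi]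
        simp only [mul_zero, norm_zero, ne_eq, OfNat.ofNat_ne_zero, not_false_eq_true, zero_pow]
        positivity
      · push Not at hi
        have h1 : r ≤ S.lam n i / n := by rw [le_div_iff₀ hn']; linarith
        have h2 := hg h1
        rw [norm_mul, mul_pow, norm_inv, inv_pow, hw2, ← Real.exp_neg, mul_comm]
        apply mul_le_mul (ha i) _ (Real.exp_pos _).le hC₀.le
        rw [Real.exp_le_exp]
        nlinarith
  obtain ⟨a, hua, ha⟩ := hull_subset hconv hat hu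
  refine ⟨a, hua, fun i => ?_⟩
  have h1 := ha i
  have h2 : ‖a i‖ ^ 2 ≤ S.C₀ * Real.exp (-(n * g (S.lam n i / n))) := by
    have h3 := pow_le_pow_left₀ (norm_nonneg _) h1 2
    rwa [Real.sq_sqrt (by positivity)] at h3
  calc ‖a i‖ ^ 2 * Real.exp (n * g (S.lam n i / n)) ≤
      S.C₀ * Real.exp (-(n * g (S.lam n i / n))) * Real.exp (n * g (S.lam n i / n)) := by gcongr
    _ = S.C₀ := by rw [mul_assoc, ← Real.exp_add]; simp

end Sys

end Pool.Agent.Lib.MP_ab0522
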