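import Mathlib
import Pool.Agent.Lib.MP_ab0522.Atoms

/-!
# Good points, and sections which are simultaneously large at finitely many good points
-/

namespace Pool.Agent.Lib.MP_ab0522

open Polynomial MeasureTheory Filter Topology

namespace Sys

variable (S : Sys)

/-- `z` is a good point for the exponent `v`: some atom is at least `e^{n v}` at `z`. -/
def Good (g : ℝ → ℝ) (v : ℝ) (z : ℂ) : Prop :=
  ∃ n : ℕ, 1 ≤ n ∧ ∃ u ∈ S.atoms g n, Real.exp (n * v) ≤ ‖u.eval z‖ ^ 2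

variable {S}

lemma Good.mono {g : ℝ → ℝ} {v v' : ℝ} {z : ℂ} (h : S.Good g v z) (hv : v' ≤ v) :
    S.Good g v' z := by
  obtain ⟨n, hn, u, hu, hval⟩ := h
  refine ⟨n, hn, u, hu, le_trans ?_ hval⟩
  rw [Real.exp_le_exp]
  have : (0 : ℝ) ≤ n := by positivity
  exact mul_le_mul_of_nonneg_left hv this

/-- Good points are dense. -/
lemma exists_good {f g : ℝ → ℝ} (hf : Antitone f) {a b : ℝ}
    (hlow : ∀ κ > 0, ∃ c, a < c ∧ c ≤ b ∧
      ∀ᶠ k : ℕ in atTop, (cnt S.lam k (Set.Iio c) : ℝ) ≤ κ * k)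
    (hle : ∀ k i, 1 ≤ k → S.lam k i / k ≤ b) (hgf : ∀ x, a ≤ x → x ≤ b → g x ≤ f x)
    {ψ h : ℂ → ℝ} (hψ : S.Conv f ψ) (hψh : IsUscRegularisation ψ h) (hh : Continuous h) (z : ℂ)
    {ε : ℝ} (hε : 0 < ε) {U : Set ℂ} (hU : U ∈ 𝓝 z) :
    ∃ z' ∈ U, S.Good g (h z' - ε) z' := by
  -- an open neighbourhood on which `h` varies by less than `ε / 4`
  have h1 : ∀ᶠ w in 𝓝 z, h w < h z + ε / 4 := hh.continuousAt.eventually (gt_mem_nhds (by linarith))
  obtain ⟨O, hO, hOo, hzO⟩ := mem_nhds_iff.1 (Filter.inter_mem hU h1)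
  have h2 := (hψh z (ε / 4) (by positivity)).2
  obtain ⟨w, hw, hwO⟩ := (h2.and_eventually (hOo.mem_nhds hzO)).exists
  obtain ⟨z', hz', n, hn, r, u, hu, hub, hval⟩ := S.good_point hf hlow hle hgf hψ w
    (show 0 < ε / 4 by positivity) (hOo.mem_nhds hwO)
  refine ⟨z', (hO hz').1, n, hn, u, ⟨r, hu, hub⟩, le_trans ?_ hval⟩
  have h3 : h z' < h z + ε / 4 := (hO hz').2
  rw [Real.exp_le_exp]
  have : (0 : ℝ) ≤ n := by positivity
  apply mul_le_mul_of_nonneg_left _ this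
  linarith

/-- From a good point we get large sections of all degrees. -/
lemma Good.all {g : ℝ → ℝ} (hg : ConvexOn ℝ Set.univ g) {v : ℝ} {z : ℂ} (h : S.Good g v z) :
    ∃ c : ℝ, 0 < c ∧ ∀ m : ℕ, ∃ s ∈ S.atoms g m, c * Real.exp (m * v) ≤ ‖s.eval z‖ ^ 2 := by
  obtain ⟨n, hn, u, hu, hval⟩ := h
  obtain ⟨c₀, hc₀, hc₀m⟩ := exists_smul_mem S g (n := 1) (u := 1) (by rw [mem_V]; simp)
  set x := min 1 (c₀ ^ 2 * Real.exp (-v)) with hx
  have hxpos : 0 < x := lt_min one_pos (by positivity)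
  have hx1 : x ≤ 1 := min_le_left _ _
  have hx2 : x ≤ c₀ ^ 2 * Real.exp (-v) := min_le_right _ _
  refine ⟨x ^ n, by positivity, fun m => ?_⟩
  have hm : n * (m / n) + m % n = m := Nat.div_add_mod m n
  refine ⟨u ^ (m / n) * ((c₀ : ℂ) • (1 : ℂ[X])) ^ (m % n), ?_, ?_⟩
  · have h1 := atoms_mul hg (atoms_pow hg hu (m / n)) (atoms_pow hg hc₀m (m % n))
    rwa [one_mul, hm] at h1
  · have hcast : (m : ℝ) = n * (m / n : ℕ) + (m % n : ℕ) := by exact_mod_cast hm.symm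
    have e : ‖(u ^ (m / n) * ((c₀ : ℂ) • (1 : ℂ[X])) ^ (m % n)).eval z‖ ^ 2 =
        (‖u.eval z‖ ^ 2) ^ (m / n) * (c₀ ^ 2) ^ (m % n) := by
      rw [eval_mul, eval_pow, eval_pow, eval_smul, norm_mul, norm_pow, norm_pow, smul_eq_mul,
        eval_one, mul_one, Complex.norm_real, Real.norm_of_nonneg hc₀.le]
      ring
    rw [e]
    have hlt : m % n ≤ n := (Nat.mod_lt _ (by omega)).le
    calc x ^ n * Real.exp (m * v) ≤ x ^ (m % n) * Real.exp (m * v) := by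
          gcongr ?_ * _
          exact pow_le_pow_of_le_one hxpos.le hx1 hlt
      _ ≤ (c₀ ^ 2 * Real.exp (-v)) ^ (m % n) * Real.exp (m * v) := by gcongr
      _ = (Real.exp (n * v)) ^ (m / n) * (c₀ ^ 2) ^ (m % n) := by
          rw [mul_pow, ← Real.exp_nat_mul, ← Real.exp_nat_mul, mul_assoc, ← Real.exp_add, mul_comm]
          congr 2
          rw [hcast]; ring
      _ ≤ _ := by gcongr

/-- two bad parameters -/
lemma affine_small {A B : ℂ} {θ θ' η d : ℝ} (hθ0 : 0 ≤ θ) (hθ1 : θ ≤ 1) (hd : 0 < d)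
    (hd1 : d ≤ 1)
    (hdiff : d ≤ |θ' - θ|) (h1 : ‖((1 - θ : ℝ) : ℂ) * A + (θ : ℂ) * B‖ < η)
    (h2 : ‖((1 - θ' : ℝ) : ℂ) * A + (θ' : ℂ) * B‖ < η) : ‖A‖ < 3 * η / d ∧ ‖B‖ < 3 * η / d := by
  have hη : 0 < η := (norm_nonneg _).trans_lt h1
  have h3 : ‖((θ' - θ : ℝ) : ℂ) * (B - A)‖ < 2 * η := by
    have e : ((θ' - θ : ℝ) : ℂ) * (B - A) = (((1 - θ' : ℝ) : ℂ) * A + (θ' : ℂ) * B) -
        (((1 - θ : ℝ) : ℂ) * A + (θ : ℂ) * B) := by push_cast; ring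
    rw [e]
    refine (norm_sub_le _ _).trans_lt ?_
    linarith
  rw [norm_mul, Complex.norm_real, Real.norm_eq_abs] at h3
  have h4 : ‖B - A‖ < 2 * η / d := by
    rw [lt_div_iff₀ hd]
    have := mul_le_mul_of_nonneg_right hdiff (norm_nonneg (B - A))
    linarith
  have hηd : η ≤ η / d := by rw [le_div_iff₀ hd]; nlinarith
  have e1 : A = (((1 - θ : ℝ) : ℂ) * A + (θ : ℂ) * B) - (θ : ℂ) * (B - A) := by push_cast; ring
  have e2 : B = (((1 - θ : ℝ) : ℂ) * A + (θ : ℂ) * B) + ((1 - θ : ℝ) : ℂ) * (B - A) := by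
    push_cast; ring
  have h5 : 2 * η / d + η / d = 3 * η / d := by ring
  constructor
  · rw [e1]
    refine (norm_sub_le _ _).trans_lt ?_
    rw [norm_mul, Complex.norm_real, Real.norm_of_nonneg hθ0]
    have h6 : θ * ‖B - A‖ ≤ 1 * ‖B - A‖ := mul_le_mul_of_nonneg_right hθ1 (norm_nonneg _)
    linarith
  · rw [e2]
    refine (norm_add_le _ _).trans_lt ?_
    rw [norm_mul, Complex.norm_real, Real.norm_of_nonneg (by linarith : (0 : ℝ) ≤ 1 - θ)]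
    have h6 : (1 - θ) * ‖B - A‖ ≤ 1 * ‖B - A‖ :=
      mul_le_mul_of_nonneg_right (by linarith) (norm_nonneg _)
    linarith

/-- a convex combination which is large at finitely many points -/
lemma exists_theta (n : ℕ) : ∃ c : ℝ, 0 < c ∧ ∀ A B : Fin n → ℂ, ∃ θ : ℝ, 0 ≤ θ ∧ θ ≤ 1 ∧
    ∀ l, c * max ‖A l‖ ‖B l‖ ≤ ‖((1 - θ : ℝ) : ℂ) * A l + (θ : ℂ) * B l‖ := by
  set d : ℝ := 1 / (n + 1) with hd
  have hdpos : 0 < d := by positivity
  have hd1 : d ≤ 1 := by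
    rw [hd, div_le_one (by positivity)]
    have : (0 : ℝ) ≤ n := by positivity
    linarith
  refine ⟨d / 3, by positivity, fun A B => ?_⟩
  by_contra hcon
  push Not at hcon
  -- parameters `k / (n + 1)`, `k = 0, …, n`
  have hpar : ∀ k : Fin (n + 1), 0 ≤ (k : ℝ) * d ∧ (k : ℝ) * d ≤ 1 := by
    intro k
    refine ⟨by positivity, ?_⟩
    have hk : (k : ℝ) ≤ n + 1 := by
      have : (k : ℕ) ≤ n + 1 := by omega
      exact_mod_cast this
    rw [hd, mul_one_div, div_le_one (by positivity)]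
    exact hk
  choose l hl using fun k : Fin (n + 1) => hcon (k * d) (hpar k).1 (hpar k).2
  obtain ⟨k, k', hkk, hll⟩ := Fintype.exists_ne_map_eq_of_card_lt l (by simp)
  have h1 := hl k
  have h2 := hl k'
  rw [← hll] at h2
  have hdiff : d ≤ |(k' : ℝ) * d - k * d| := by
    have h3 : (1 : ℝ) ≤ |(k' : ℝ) - k| := by
      have h4 : (k' : ℤ) - (k : ℤ) ≠ 0 := by
        intro h0
        apply hkk
        ext
        omega
      have h5 : (1 : ℤ) ≤ |(k' : ℤ) - (k : ℤ)| := Int.one_le_abs h4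
      exact_mod_cast h5
    rw [← sub_mul, abs_mul, abs_of_pos hdpos]
    nlinarith
  obtain ⟨hA, hB⟩ := affine_small (hpar k).1 (hpar k).2 hdpos hd1 hdiff h1 h2
  have e : 3 * (d / 3 * max ‖A (l k)‖ ‖B (l k)‖) / d = max ‖A (l k)‖ ‖B (l k)‖ := by
    field_simp
  rw [e] at hA hB
  rcases max_choice ‖A (l k)‖ ‖B (l k)‖ with h | h
  · rw [h] at hA; exact lt_irrefl _ hA
  · rw [h] at hB; exact lt_irrefl _ hB

/-- Simultaneously large sections. -/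
lemma exists_simultaneous {g : ℝ → ℝ} (hg : ConvexOn ℝ Set.univ g) {n : ℕ} {v : Fin n → ℝ}
    {z : Fin n → ℂ} (h : ∀ l, S.Good g (v l) (z l)) :
    ∃ c : ℝ, 0 < c ∧ ∀ m : ℕ, ∃ t ∈ S.hull g m, ∀ l,
      c * Real.exp (m * v l) ≤ ‖t.eval (z l)‖ ^ 2 := by
  classical
  obtain ⟨d, hd, hθ⟩ := exists_theta n
  -- induction over the set of points treated so far
  suffices H : ∀ s : Finset (Fin n), ∃ c : ℝ, 0 < c ∧ ∀ m : ℕ, ∃ t ∈ S.hull g m, ∀ l ∈ s,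
      c * Real.exp (m * v l) ≤ ‖t.eval (z l)‖ ^ 2 by
    obtain ⟨c, hc, H⟩ := H Finset.univ
    refine ⟨c, hc, fun m => ?_⟩
    obtain ⟨t, ht, hl⟩ := H m
    exact ⟨t, ht, fun l => hl l (Finset.mem_univ _)⟩
  intro s
  induction s using Finset.induction_on with
  | empty =>
    refine ⟨1, one_pos, fun m => ?_⟩
    obtain ⟨c, -, hc⟩ := exists_smul_mem S g (n := m) (u := 0) (Submodule.zero_mem _)
    exact ⟨_, atoms_subset_hull _ _ hc, by simp⟩
  | insert l₀ s _ ih =>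
    obtain ⟨c₁, hc₁, h₁⟩ := ih
    obtain ⟨c₂, hc₂, h₂⟩ := (h l₀).all hg
    refine ⟨d ^ 2 * min c₁ c₂, by positivity, fun m => ?_⟩
    obtain ⟨t₁, ht₁, hl₁⟩ := h₁ m
    obtain ⟨t₂, ht₂, hl₂⟩ := h₂ m
    obtain ⟨θ, hθ0, hθ1, hθl⟩ := hθ (fun l => t₁.eval (z l)) (fun l => t₂.eval (z l))
    refine ⟨(1 - θ) • t₁ + θ • t₂, hull_convex g m ht₁ (atoms_subset_hull _ _ ht₂)
      (by linarith) hθ0 (by ring), fun l hl => ?_⟩
    have e : ((1 - θ) • t₁ + θ • t₂).eval (z l) =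
        ((1 - θ : ℝ) : ℂ) * t₁.eval (z l) + (θ : ℂ) * t₂.eval (z l) := by
      have e1 : (1 - θ) • t₁ = ((1 - θ : ℝ) : ℂ) • t₁ := by ext; simp
      have e2 : θ • t₂ = (θ : ℂ) • t₂ := by ext; simp
      rw [e1, e2, eval_add, eval_smul, eval_smul, smul_eq_mul, smul_eq_mul]
    rw [e]
    have h3 := hθl l
    have h4 : min c₁ c₂ * Real.exp (m * v l) ≤ (max ‖t₁.eval (z l)‖ ‖t₂.eval (z l)‖) ^ 2 := by
      rcases Finset.mem_insert.1 hl with rfl | hl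
      · calc min c₁ c₂ * Real.exp (m * v l) ≤ c₂ * Real.exp (m * v l) := by
              gcongr; exact min_le_right _ _
          _ ≤ ‖t₂.eval (z l)‖ ^ 2 := hl₂
          _ ≤ _ := by gcongr; exact le_max_right _ _
      · calc min c₁ c₂ * Real.exp (m * v l) ≤ c₁ * Real.exp (m * v l) := by
              gcongr; exact min_le_left _ _
          _ ≤ ‖t₁.eval (z l)‖ ^ 2 := hl₁ l hl
          _ ≤ _ := by gcongr; exact le_max_left _ _
    calc d ^ 2 * min c₁ c₂ * Real.exp (m * v l) = d ^ 2 * (min c₁ c₂ * Real.exp (m * v l)) := by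
          ring
      _ ≤ d ^ 2 * (max ‖t₁.eval (z l)‖ ‖t₂.eval (z l)‖) ^ 2 := by gcongr
      _ = (d * max ‖t₁.eval (z l)‖ ‖t₂.eval (z l)‖) ^ 2 := by ring
      _ ≤ _ := by gcongr

end Sys

end Pool.Agent.Lib.MP_ab0522
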