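import Mathlib
import Pool.Agent.Lib.MP_ab0522.Good

/-!
# Perturbation of the roots of a polynomial
-/

namespace Pool.Agent.Lib.MP_ab0522

open Polynomial MeasureTheory Filter Topology

lemma prod_bound {ι : Type*} (s : Finset ι) (q : ι → ℂ) : ∃ M : ℝ, 0 < M ∧ ∀ z : ℂ,
    ‖∏ i ∈ s, (z - q i)‖ ≤ M * (1 + ‖z‖) ^ s.card := by
  refine ⟨∏ i ∈ s, (1 + ‖q i‖), by positivity, fun z => ?_⟩
  rw [norm_prod, ← Finset.prod_const, ← Finset.prod_mul_distrib]
  refine Finset.prod_le_prod (fun _ _ => norm_nonneg _) fun i _ => ?_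
  have h1 := norm_sub_le z (q i)
  nlinarith [norm_nonneg z, norm_nonneg (q i), mul_nonneg (norm_nonneg z) (norm_nonneg (q i))]

lemma prod_perturb {ι : Type*} [DecidableEq ι] (s : Finset ι) (q : ι → ℂ) {η : ℝ} (hη : 0 < η) :
    ∃ δ : ℝ, 0 < δ ∧ ∀ q' : ι → ℂ, (∀ i ∈ s, ‖q' i - q i‖ ≤ δ) → ∀ z : ℂ,
      ‖∏ i ∈ s, (z - q' i) - ∏ i ∈ s, (z - q i)‖ ≤ η * (1 + ‖z‖) ^ s.card := by
  induction s using Finset.induction_on generalizing η with
  | empty => exact ⟨1, one_pos, fun q' _ z => by simpa using hη.le⟩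
  | insert a s ha ih =>
    obtain ⟨M, hM, hMb⟩ := prod_bound s q
    obtain ⟨δ₁, hδ₁, h₁⟩ := ih (η := η / (2 * (2 + ‖q a‖))) (by positivity)
    refine ⟨min (min δ₁ 1) (η / (2 * M)), by positivity, fun q' hq' z => ?_⟩
    have h2 := h₁ q' (fun i hi => (hq' i (Finset.mem_insert_of_mem hi)).trans
      ((min_le_left _ _).trans (min_le_left _ _))) z
    have h3 : ‖q' a - q a‖ ≤ 1 := (hq' a (Finset.mem_insert_self _ _)).trans
      ((min_le_left _ _).trans (min_le_right _ _))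
    have h4 : ‖q' a - q a‖ ≤ η / (2 * M) := (hq' a (Finset.mem_insert_self _ _)).trans
      (min_le_right _ _)
    rw [Finset.prod_insert ha, Finset.prod_insert ha, Finset.card_insert_of_notMem ha]
    have e : (z - q' a) * ∏ i ∈ s, (z - q' i) - (z - q a) * ∏ i ∈ s, (z - q i) =
        (z - q' a) * (∏ i ∈ s, (z - q' i) - ∏ i ∈ s, (z - q i)) -
          (q' a - q a) * ∏ i ∈ s, (z - q i) := by ring
    rw [e]
    have hz := norm_nonneg z
    have h5 : ‖z - q' a‖ ≤ (2 + ‖q a‖) * (1 + ‖z‖) := by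
      have h6 : ‖z - q' a‖ ≤ ‖z‖ + ‖q' a‖ := norm_sub_le _ _
      have h7 : ‖q' a‖ ≤ ‖q' a - q a‖ + ‖q a‖ := by
        have := norm_add_le (q' a - q a) (q a)
        simpa using this
      nlinarith [norm_nonneg (q a), mul_nonneg (norm_nonneg (q a)) hz]
    have hT : 0 ≤ (1 + ‖z‖) ^ s.card := by positivity
    calc ‖(z - q' a) * (∏ i ∈ s, (z - q' i) - ∏ i ∈ s, (z - q i)) -
          (q' a - q a) * ∏ i ∈ s, (z - q i)‖ ≤
        (2 + ‖q a‖) * (1 + ‖z‖) * (η / (2 * (2 + ‖q a‖)) * (1 + ‖z‖) ^ s.card) +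
          η / (2 * M) * (M * (1 + ‖z‖) ^ s.card) := by
          refine (norm_sub_le _ _).trans ?_
          rw [norm_mul, norm_mul]
          gcongr
          exact hMb z
      _ = η / 2 * ((1 + ‖z‖) * (1 + ‖z‖) ^ s.card) + η / 2 * (1 + ‖z‖) ^ s.card := by
          field_simp
      _ ≤ η / 2 * ((1 + ‖z‖) * (1 + ‖z‖) ^ s.card) +
          η / 2 * ((1 + ‖z‖) * (1 + ‖z‖) ^ s.card) := by
          gcongr
          exact le_mul_of_one_le_left hT (by linarith)
      _ = η * (1 + ‖z‖) ^ (s.card + 1) := by ring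

/-- the polynomial `a ∏ (X - q i)` -/
noncomputable def rootPoly {n : ℕ} (a : ℂ) (q : Fin n → ℂ) : ℂ[X] := C a * ∏ i, (X - C (q i))

lemma rootPoly_eval {n : ℕ} (a : ℂ) (q : Fin n → ℂ) (z : ℂ) :
    (rootPoly a q).eval z = a * ∏ i, (z - q i) := by
  rw [rootPoly, eval_mul, eval_C, eval_prod]; simp

lemma rootPoly_natDegree {n : ℕ} {a : ℂ} (ha : a ≠ 0) (q : Fin n → ℂ) :
    (rootPoly a q).natDegree = n := by
  rw [rootPoly, natDegree_C_mul ha, natDegree_prod_of_monic _ _ fun i _ => monic_X_sub_C _]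
  simp

lemma rootPoly_mem_V {n : ℕ} (a : ℂ) (q : Fin n → ℂ) : rootPoly a q ∈ V n := by
  by_cases ha : a = 0
  · rw [rootPoly, ha]; simp
  · rw [mem_V, rootPoly_natDegree ha]

lemma exists_rootPoly (n : ℕ) : ∀ p : ℂ[X], p.natDegree = n → p ≠ 0 →
    ∃ q : Fin n → ℂ, p = rootPoly p.leadingCoeff q := by
  induction n with
  | zero =>
    intro p hp hp0
    refine ⟨Fin.elim0, ?_⟩
    rw [rootPoly]
    simp only [Finset.univ_eq_empty, Finset.prod_empty, mul_one]
    rw [leadingCoeff, hp]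
    exact eq_C_of_natDegree_eq_zero hp
  | succ n ih =>
    intro p hp hp0
    obtain ⟨r, hr⟩ := IsAlgClosed.exists_root p (by
      rw [degree_eq_natDegree hp0, hp]; exact_mod_cast Nat.succ_ne_zero n)
    obtain ⟨p', hp'⟩ := dvd_iff_isRoot.2 hr
    have hp'0 : p' ≠ 0 := by rintro rfl; apply hp0; rw [hp']; simp
    have hdeg : p'.natDegree = n := by
      have h1 := natDegree_mul (X_sub_C_ne_zero r) hp'0
      rw [← hp', hp, natDegree_X_sub_C] at h1
      omega
    obtain ⟨q, hq⟩ := ih p' hdeg hp'0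
    have hlc : p.leadingCoeff = p'.leadingCoeff := by
      rw [hp', leadingCoeff_mul, leadingCoeff_X_sub_C, one_mul]
    refine ⟨Fin.cons r q, ?_⟩
    rw [hlc, rootPoly, Fin.prod_univ_succ]
    simp only [Fin.cons_zero, Fin.cons_succ]
    have e : p = (X - C r) * rootPoly p'.leadingCoeff q := by rw [← hq]; exact hp'
    rw [rootPoly] at e
    rw [e]
    ring

/-- `t` can be perturbed to a polynomial of exact degree with distinct roots in a dense set. -/
lemma exists_perturbed {G : Set ℂ} (hG : ∀ z, ∀ U ∈ 𝓝 z, ∃ z' ∈ U, z' ∈ G) {n : ℕ} {t : ℂ[X]}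
    (ht : t ∈ V n) {η : ℝ} (hη : 0 < η) :
    ∃ a : ℂ, a ≠ 0 ∧ ∃ q : Fin n → ℂ, Function.Injective q ∧ (∀ i, q i ∈ G) ∧
      ∀ z, ‖(rootPoly a q).eval z - t.eval z‖ ≤ η * (1 + ‖z‖) ^ n := by
  -- step 1 : exact degree
  obtain ⟨e, he, hte⟩ : ∃ e : ℂ, ‖e‖ ≤ η / 2 ∧ t.coeff n + e ≠ 0 := by
    by_cases h : t.coeff n + ((η / 2 : ℝ) : ℂ) = 0
    · refine ⟨((η / 4 : ℝ) : ℂ), ?_, ?_⟩
      · rw [Complex.norm_real, Real.norm_of_nonneg (by positivity)]; linarith
      · intro h'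
        have h2 : ((η / 2 : ℝ) : ℂ) = ((η / 4 : ℝ) : ℂ) := by
          have h3 : ((η / 2 : ℝ) : ℂ) = -t.coeff n := by linear_combination h
          have h4 : ((η / 4 : ℝ) : ℂ) = -t.coeff n := by linear_combination h'
          rw [h3, h4]
        have h3 : η / 2 = η / 4 := by exact_mod_cast h2
        linarith
    · refine ⟨((η / 2 : ℝ) : ℂ), ?_, h⟩
      rw [Complex.norm_real, Real.norm_of_nonneg (by positivity)]
  set t₁ : ℂ[X] := t + C e * X ^ n with ht₁
  have hcoeff : t₁.coeff n ≠ 0 := by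
    rw [ht₁, coeff_add, coeff_C_mul, coeff_X_pow_self, mul_one]; exact hte
  have ht₁V : t₁ ∈ V n := by
    rw [ht₁]
    refine Submodule.add_mem _ ht ?_
    rw [mem_V]
    exact natDegree_C_mul_X_pow_le _ _
  have hdeg : t₁.natDegree = n :=
    le_antisymm (mem_V.1 ht₁V) (le_natDegree_of_ne_zero hcoeff)
  have ht₁0 : t₁ ≠ 0 := by
    intro h0; rw [h0] at hcoeff; simp at hcoeff
  obtain ⟨q, hq⟩ := exists_rootPoly n t₁ hdeg ht₁0
  set a := t₁.leadingCoeff with ha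
  have ha0 : a ≠ 0 := leadingCoeff_ne_zero.2 ht₁0
  -- step 2 : the roots
  obtain ⟨δ, hδ, hδb⟩ := prod_perturb Finset.univ q (η := η / (2 * ‖a‖)) (by positivity)
  have hstep : ∀ m : ℕ, ∀ q : Fin m → ℂ, ∃ q' : Fin m → ℂ, Function.Injective q' ∧
      (∀ i, q' i ∈ G) ∧ ∀ i, ‖q' i - q i‖ ≤ δ := by
    intro m
    induction m with
    | zero => exact fun q => ⟨q, fun i => i.elim0, fun i => i.elim0, fun i => i.elim0⟩
    | succ m ih =>
      intro q
      obtain ⟨q', hinj, hgood, hclose⟩ := ih (fun i => q i.succ)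
      -- a point close to `q 0`, in `G` and different from the `q' i`
      have hfin : (Set.range q').Finite := Set.finite_range q'
      obtain ⟨z₁, hz₁, hz₁'⟩ : ∃ z₁ ∈ Metric.ball (q 0) δ, z₁ ∉ Set.range q' := by
        have hinf : (Metric.ball (q 0) δ).Infinite :=
          infinite_of_mem_nhds (q 0) (Metric.ball_mem_nhds _ hδ)
        exact (hinf.sdiff hfin).nonempty.imp fun x hx => ⟨hx.1, hx.2⟩
      have hU : Metric.ball (q 0) δ ∩ (Set.range q')ᶜ ∈ 𝓝 z₁ :=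
        (Metric.isOpen_ball.inter hfin.isClosed.isOpen_compl).mem_nhds ⟨hz₁, hz₁'⟩
      obtain ⟨z', hz', hz'G⟩ := hG z₁ _ hU
      refine ⟨Fin.cons z' q', ?_, ?_, ?_⟩
      · rw [Fin.cons_injective_iff]
        exact ⟨hz'.2, hinj⟩
      · intro i
        refine Fin.cases ?_ (fun i => ?_) i
        · simpa using hz'G
        · simpa using hgood i
      · intro i
        refine Fin.cases ?_ (fun i => ?_) i
        · have := hz'.1
          rw [Metric.mem_ball, dist_eq_norm] at this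
          simpa using this.le
        · simpa using hclose i
  obtain ⟨q', hinj, hgood, hclose⟩ := hstep n q
  refine ⟨a, ha0, q', hinj, hgood, fun z => ?_⟩
  have h1 := hδb q' (fun i _ => hclose i) z
  rw [Finset.card_univ, Fintype.card_fin] at h1
  have h2 : (rootPoly a q').eval z - t.eval z =
      a * (∏ i, (z - q' i) - ∏ i, (z - q i)) + e * z ^ n := by
    have h3 : t.eval z = a * ∏ i, (z - q i) - e * z ^ n := by
      rw [← rootPoly_eval, ← hq, ht₁]; simp
    rw [h3, rootPoly_eval]; ring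
  rw [h2]
  have h4 : ‖z‖ ^ n ≤ (1 + ‖z‖) ^ n := by gcongr; linarith
  have hapos : 0 < ‖a‖ := norm_pos_iff.2 ha0
  calc ‖a * (∏ i, (z - q' i) - ∏ i, (z - q i)) + e * z ^ n‖ ≤
      ‖a‖ * (η / (2 * ‖a‖) * (1 + ‖z‖) ^ n) + η / 2 * (1 + ‖z‖) ^ n := by
        refine (norm_add_le _ _).trans ?_
        rw [norm_mul, norm_mul, norm_pow]
        gcongr
    _ = η * (1 + ‖z‖) ^ n := by field_simp; ring

end Pool.Agent.Lib.MP_ab0522
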