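import Mathlib
import Pool.Agent.Lib.MP_ab0522.Perturb

/-!
# A section of the hull whose roots are good points and carry the full energy
-/

namespace Pool.Agent.Lib.MP_ab0522

open Polynomial MeasureTheory Filter Topology

/-- the weight `h` has energy at least `E` (in discretised form) -/
def HasEnergy (h : ℂ → ℝ) (E : ℝ) : Prop := ∀ ε : ℝ, 0 < ε → ∃ n : ℕ, 1 ≤ n ∧
  ∃ z : Fin n → ℂ, ∃ κ : ℝ,
    (∀ q : ℂ, Real.exp (n * κ) * ‖∏ l, (q - z l)‖ ^ 2 ≤ Real.exp (n * (h q + ε))) ∧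
      E - ε ≤ κ + (∑ l, h (z l)) / n

namespace Sys

variable {S : Sys}

/-- Step 1 : the points of the energy data can be taken to be good. -/
lemma exists_good_data {g : ℝ → ℝ} {h : ℂ → ℝ} (hh : Continuous h) {A' : ℝ}
    (hgrow : ∀ z : ℂ, 1 + ‖z‖ ^ 2 ≤ Real.exp A' * Real.exp (h z)) {E : ℝ} (hE : HasEnergy h E)
    {ε : ℝ} (hε : 0 < ε)
    (hgood : ∀ z, ∀ U ∈ 𝓝 z, ∃ z' ∈ U, S.Good g (h z' - ε) z') :
    ∃ n : ℕ, 1 ≤ n ∧ ∃ z : Fin n → ℂ, ∃ κ : ℝ, (∀ l, S.Good g (h (z l) - ε) (z l)) ∧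
      (∀ q : ℂ, Real.exp (n * κ) * ‖∏ l, (q - z l)‖ ^ 2 ≤ Real.exp (n * (h q + 2 * ε))) ∧
      E - 2 * ε ≤ κ + (∑ l, h (z l)) / n := by
  obtain ⟨n, hn, z₀, κ, hz₀, hE₀⟩ := hE ε hε
  have hn' : (0 : ℝ) < n := by exact_mod_cast hn
  set τ := Real.exp (n * ε / 2) - 1 with hτ
  have hτpos : 0 < τ := by
    rw [hτ, sub_pos]
    exact Real.one_lt_exp_iff.2 (by positivity)
  set B : ℝ := (2 * Real.exp A') ^ n * Real.exp (n * κ) with hB
  have hBpos : 0 < B := by positivity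
  set η := τ * (Real.sqrt B)⁻¹ with hη
  have hηpos : 0 < η := by positivity
  have hη2 : η ^ 2 * B = τ ^ 2 := by
    rw [hη, mul_pow, inv_pow, Real.sq_sqrt hBpos.le]; field_simp
  obtain ⟨δ, hδ, hδb⟩ := prod_perturb Finset.univ z₀ hηpos
  have hchoose : ∀ l, ∃ z', ‖z' - z₀ l‖ ≤ δ ∧ h (z₀ l) - ε < h z' ∧ S.Good g (h z' - ε) z' := by
    intro l
    have h1 : ∀ᶠ w in 𝓝 (z₀ l), h (z₀ l) - ε < h w :=
      hh.continuousAt.eventually (lt_mem_nhds (by linarith))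
    obtain ⟨z', ⟨hz'1, hz'2⟩, hz'3⟩ := hgood (z₀ l) _
      (Filter.inter_mem (Metric.ball_mem_nhds (z₀ l) hδ) h1)
    refine ⟨z', ?_, hz'2, hz'3⟩
    rw [Metric.mem_ball, dist_eq_norm] at hz'1
    exact hz'1.le
  choose z hz1 hz2 hz3 using hchoose
  refine ⟨n, hn, z, κ, hz3, fun q => ?_, ?_⟩
  · have h1 := hδb z (fun l _ => hz1 l) q
    rw [Finset.card_univ, Fintype.card_fin] at h1
    have h2 := hz₀ q
    have h3 : (1 + ‖q‖) ^ 2 ≤ 2 * Real.exp A' * Real.exp (h q) := by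
      have := hgrow q
      nlinarith [sq_nonneg (1 - ‖q‖)]
    have h4 : (η * (1 + ‖q‖) ^ n) ^ 2 * Real.exp (n * κ) ≤ τ ^ 2 * Real.exp (n * h q) := by
      calc (η * (1 + ‖q‖) ^ n) ^ 2 * Real.exp (n * κ) =
          η ^ 2 * ((1 + ‖q‖) ^ 2) ^ n * Real.exp (n * κ) := by
            rw [mul_pow, ← pow_mul, ← pow_mul, mul_comm n 2]
        _ ≤ η ^ 2 * (2 * Real.exp A' * Real.exp (h q)) ^ n * Real.exp (n * κ) := by gcongr
        _ = (η ^ 2 * B) * Real.exp (n * h q) := by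
            rw [mul_pow (2 * Real.exp A'), ← Real.exp_nat_mul, hB]; ring
        _ = _ := by rw [hη2]
    set w := Real.sqrt (Real.exp (n * κ)) with hw
    have hw2 : w ^ 2 = Real.exp (n * κ) := Real.sq_sqrt (Real.exp_pos _).le
    have hwpos : 0 < w := Real.sqrt_pos.2 (Real.exp_pos _)
    set M := Real.sqrt (Real.exp (n * (h q + ε))) with hM
    have hM2 : M ^ 2 = Real.exp (n * (h q + ε)) := Real.sq_sqrt (Real.exp_pos _).le
    have hMpos : 0 < M := Real.sqrt_pos.2 (Real.exp_pos _)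
    have h5 : w * ‖∏ l, (q - z₀ l)‖ ≤ M := by
      apply abs_le_of_sq_le_sq' _ hMpos.le |>.2
      rw [mul_pow, hw2, hM2]; exact h2
    have h6 : w * (η * (1 + ‖q‖) ^ n) ≤ τ * M := by
      apply abs_le_of_sq_le_sq' _ (by positivity) |>.2
      rw [mul_pow w, hw2, mul_pow τ, hM2]
      calc Real.exp (n * κ) * (η * (1 + ‖q‖) ^ n) ^ 2 ≤ τ ^ 2 * Real.exp (n * h q) := by
            rw [mul_comm]; exact h4
        _ ≤ τ ^ 2 * Real.exp (n * (h q + ε)) := by
            gcongr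
            linarith
    have h7 : w * ‖∏ l, (q - z l)‖ ≤ (1 + τ) * M := by
      have h8 : ‖∏ l, (q - z l)‖ ≤ ‖∏ l, (q - z₀ l)‖ + η * (1 + ‖q‖) ^ n := by
        have := norm_add_le (∏ l, (q - z l) - ∏ l, (q - z₀ l)) (∏ l, (q - z₀ l))
        rw [sub_add_cancel] at this
        linarith
      calc w * ‖∏ l, (q - z l)‖ ≤ w * (‖∏ l, (q - z₀ l)‖ + η * (1 + ‖q‖) ^ n) := by gcongr
        _ ≤ (1 + τ) * M := by rw [mul_add]; linarith
    calc Real.exp (n * κ) * ‖∏ l, (q - z l)‖ ^ 2 = (w * ‖∏ l, (q - z l)‖) ^ 2 := by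
          rw [mul_pow, hw2]
      _ ≤ ((1 + τ) * M) ^ 2 := by gcongr
      _ = Real.exp (n * (h q + 2 * ε)) := by
          rw [mul_pow, hM2, hτ]
          have : (1 + (Real.exp (n * ε / 2) - 1)) = Real.exp (n * ε / 2) := by ring
          rw [this, ← Real.exp_nat_mul, ← Real.exp_add]
          congr 1
          push_cast
          ring
  · have h1 : (∑ l, h (z₀ l)) / n - ε ≤ (∑ l, h (z l)) / n := by
      rw [div_sub' hn'.ne', div_le_div_iff_of_pos_right hn']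
      have h2 : ∑ l : Fin n, (h (z₀ l) - ε) ≤ ∑ l, h (z l) :=
        Finset.sum_le_sum fun l _ => (hz2 l).le
      rw [Finset.sum_sub_distrib, Finset.sum_const, Finset.card_univ, Fintype.card_fin,
        nsmul_eq_mul] at h2
      linarith
    linarith

/-- Step 2 : the section. -/
theorem exists_energy_section {g : ℝ → ℝ} (hg : ConvexOn ℝ Set.univ g) {h : ℂ → ℝ}
    (hh : Continuous h) {A' : ℝ}
    (hgrow : ∀ z : ℂ, 1 + ‖z‖ ^ 2 ≤ Real.exp A' * Real.exp (h z)) {E : ℝ} (hE : HasEnergy h E)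
    (hgood : ∀ ε > 0, ∀ z, ∀ U ∈ 𝓝 z, ∃ z' ∈ U, S.Good g (h z' - ε) z') {ε : ℝ} (hε : 0 < ε) :
    ∃ j : ℕ, 1 ≤ j ∧ ∃ a : ℂ, a ≠ 0 ∧ ∃ q : Fin j → ℂ, Function.Injective q ∧
      (∀ i, S.Good g (h (q i) - ε) (q i)) ∧ rootPoly a q ∈ S.hull g j ∧
      j * (E - ε) ≤ ∑ i, h (q i) + Real.log (‖a‖ ^ 2) := by
  set ε₁ := ε / 8 with hε₁
  have hε₁pos : 0 < ε₁ := by positivity
  obtain ⟨n, hn, z, κ, hz, hP, hEκ⟩ := exists_good_data hh hgrow hE hε₁pos (hgood ε₁ hε₁pos)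
  have hn' : (0 : ℝ) < n := by exact_mod_cast hn
  obtain ⟨c, hc, hsim⟩ := exists_simultaneous hg hz
  -- choose `j`
  obtain ⟨j, hj1, hj2⟩ : ∃ j : ℕ, 1 ≤ j ∧ Real.exp (-(j * ε₁)) ≤ c / 16 := by
    have h1 : Tendsto (fun j : ℕ => ε₁ * (j : ℝ)) atTop atTop :=
      tendsto_natCast_atTop_atTop.const_mul_atTop hε₁pos
    obtain ⟨j, hj, hj1⟩ := ((h1.eventually_ge_atTop (-Real.log (c / 16))).and
      (eventually_ge_atTop 1)).exists
    refine ⟨j, hj1, ?_⟩
    rw [← Real.le_log_iff_exp_le (by positivity)]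
    linarith
  have hj' : (0 : ℝ) < j := by exact_mod_cast hj1
  obtain ⟨t, ht, htl⟩ := hsim j
  obtain ⟨c₁, hc₁, hsmall⟩ := exists_small S g j
  -- choose the size of the perturbation
  obtain ⟨η, hη, hη1, hη2⟩ : ∃ η : ℝ, 0 < η ∧ η ≤ c₁ ∧ ∀ l, η * (1 + ‖z l‖) ^ j ≤
      Real.sqrt (c * Real.exp (j * (h (z l) - ε₁))) / 2 := by
    have hne : (Finset.univ : Finset (Fin n)).Nonempty := ⟨⟨0, hn⟩, Finset.mem_univ _⟩
    obtain ⟨l₀, -, hl₀⟩ := Finset.exists_min_image Finset.univ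
      (fun l => Real.sqrt (c * Real.exp (j * (h (z l) - ε₁))) / 2 / (1 + ‖z l‖) ^ j) hne
    refine ⟨min c₁ (Real.sqrt (c * Real.exp (j * (h (z l₀) - ε₁))) / 2 / (1 + ‖z l₀‖) ^ j),
      by positivity, min_le_left _ _, fun l => ?_⟩
    have h1 := (min_le_right c₁ _).trans (hl₀ l (Finset.mem_univ _))
    have h2 : 0 < (1 + ‖z l‖) ^ j := by positivity
    rwa [le_div_iff₀ h2] at h1
  obtain ⟨a, ha, q, hinj, hq, hclose⟩ := exists_perturbed
    (G := {z | S.Good g (h z - ε₁) z}) (fun z U hU => hgood ε₁ hε₁pos z U hU)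
    (hull_mem_V ht) hη
  have ha3 : a / 2 ≠ 0 := by simpa using ha
  have hroot : rootPoly (a / 2) q = (1 / 2 : ℝ) • t + (1 / 2 : ℝ) • (rootPoly a q - t) := by
    rw [← smul_add, add_sub_cancel, rootPoly, rootPoly]
    have : (1 / 2 : ℝ) • (C a * ∏ i, (X - C (q i))) =
        ((1 / 2 : ℝ) : ℂ) • (C a * ∏ i, (X - C (q i))) := by ext; simp
    rw [this, smul_eq_C_mul, ← mul_assoc, ← C_mul]
    congr 2
    push_cast
    ring
  refine ⟨j, hj1, a / 2, ha3, q, hinj, fun i => (hq i).mono (by rw [hε₁]; linarith), ?_, ?_⟩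
  · rw [hroot]
    refine hull_convex g j ht (atoms_subset_hull _ _ (hsmall _ ?_ fun w => ?_))
      (by norm_num) (by norm_num) (by norm_num)
    · exact Submodule.sub_mem _ (rootPoly_mem_V _ _) (hull_mem_V ht)
    · rw [eval_sub]
      refine (hclose w).trans ?_
      gcongr
  · -- lower bound at the points `z l`
    have hval : ∀ l, Real.exp (j * (h (z l) - 2 * ε₁)) ≤ ‖(rootPoly (a / 2) q).eval (z l)‖ ^ 2 := by
      intro l
      have h1 := hclose (z l)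
      have h2 := hη2 l
      have h3 := htl l
      set s := Real.sqrt (c * Real.exp (j * (h (z l) - ε₁))) with hs
      have hs2 : s ^ 2 = c * Real.exp (j * (h (z l) - ε₁)) := Real.sq_sqrt (by positivity)
      have hspos : 0 < s := Real.sqrt_pos.2 (by positivity)
      have h4 : s ≤ ‖t.eval (z l)‖ := by
        apply abs_le_of_sq_le_sq' _ (norm_nonneg _) |>.2
        rw [hs2]; exact h3
      have h5 : s / 2 ≤ ‖(rootPoly a q).eval (z l)‖ := by
        have := norm_sub_norm_le (t.eval (z l)) ((rootPoly a q).eval (z l))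
        rw [norm_sub_rev] at this
        linarith
      have h6 : (rootPoly (a / 2) q).eval (z l) = (rootPoly a q).eval (z l) / 2 := by
        rw [rootPoly_eval, rootPoly_eval]; ring
      rw [h6, norm_div, Complex.norm_two]
      calc Real.exp (j * (h (z l) - 2 * ε₁)) =
            Real.exp (-(j * ε₁)) * Real.exp (j * (h (z l) - ε₁)) := by
            rw [← Real.exp_add]; congr 1; ring
        _ ≤ c / 16 * Real.exp (j * (h (z l) - ε₁)) := by gcongr
        _ = (s / 2 / 2) ^ 2 := by rw [div_pow, div_pow, hs2]; ring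
        _ ≤ _ := by gcongr
    -- the key product inequality
    have hA : ∏ i, (Real.exp (n * κ) * ‖∏ l, (q i - z l)‖ ^ 2) ≤
        ∏ i, Real.exp (n * (h (q i) + 2 * ε₁)) :=
      Finset.prod_le_prod (fun i _ => by positivity) fun i _ => hP (q i)
    have hB : ∏ l, Real.exp (j * (h (z l) - 2 * ε₁)) ≤
        ∏ l, ‖(rootPoly (a / 2) q).eval (z l)‖ ^ 2 :=
      Finset.prod_le_prod (fun i _ => by positivity) fun l _ => hval l
    have hC : ∏ l, ‖(rootPoly (a / 2) q).eval (z l)‖ ^ 2 =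
        (‖a / 2‖ ^ 2) ^ n * ∏ i, ‖∏ l, (q i - z l)‖ ^ 2 := by
      have h1 : ∀ l, ‖(rootPoly (a / 2) q).eval (z l)‖ ^ 2 =
          ‖a / 2‖ ^ 2 * ∏ i, ‖q i - z l‖ ^ 2 := by
        intro l
        rw [rootPoly_eval, norm_mul, mul_pow, norm_prod, ← Finset.prod_pow]
        congr 1
        refine Finset.prod_congr rfl fun i _ => ?_
        rw [norm_sub_rev]
      rw [Finset.prod_congr rfl fun l _ => h1 l, Finset.prod_mul_distrib, Finset.prod_const,
        Finset.card_univ, Fintype.card_fin, Finset.prod_comm]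
      congr 1
      refine Finset.prod_congr rfl fun i _ => ?_
      rw [norm_prod, ← Finset.prod_pow]
    have hD : Real.exp (n * κ) ^ j * ∏ l, Real.exp (j * (h (z l) - 2 * ε₁)) ≤
        (‖a / 2‖ ^ 2) ^ n * ∏ i, Real.exp (n * (h (q i) + 2 * ε₁)) := by
      rw [Finset.prod_mul_distrib, Finset.prod_const, Finset.card_univ, Fintype.card_fin] at hA
      calc Real.exp (n * κ) ^ j * ∏ l, Real.exp (j * (h (z l) - 2 * ε₁)) ≤
          Real.exp (n * κ) ^ j * ((‖a / 2‖ ^ 2) ^ n * ∏ i, ‖∏ l, (q i - z l)‖ ^ 2) := by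
            rw [← hC]; gcongr
        _ = (‖a / 2‖ ^ 2) ^ n * (Real.exp (n * κ) ^ j * ∏ i, ‖∏ l, (q i - z l)‖ ^ 2) := by ring
        _ ≤ _ := by gcongr
    have hapos : 0 < ‖a / 2‖ ^ 2 := by
      have := norm_pos_iff.2 ha3
      positivity
    rw [← Real.exp_sum, ← Real.exp_sum, ← Real.exp_nat_mul, ← Real.exp_add] at hD
    have hE' := Real.log_le_log (Real.exp_pos _) hD
    rw [Real.log_exp, Real.log_mul (by positivity) (Real.exp_pos _).ne', Real.log_exp,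
      Real.log_pow] at hE'
    rw [← Finset.mul_sum, ← Finset.mul_sum, Finset.sum_sub_distrib, Finset.sum_add_distrib,
      Finset.sum_const, Finset.sum_const, Finset.card_univ, Finset.card_univ, Fintype.card_fin,
      Fintype.card_fin, nsmul_eq_mul, nsmul_eq_mul] at hE'
    -- conclude
    have hF : E - 2 * ε₁ - κ ≤ (∑ l, h (z l)) / n := by linarith
    rw [le_div_iff₀ hn'] at hF
    have h1 : (j : ℝ) * ((E - 2 * ε₁ - κ) * n) ≤ j * ∑ l, h (z l) :=
      mul_le_mul_of_nonneg_left hF hj'.le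
    have h2 : (n : ℝ) * (j * (E - ε)) ≤ n * (∑ i, h (q i) + Real.log (‖a / 2‖ ^ 2)) := by
      have hjn : (0 : ℝ) < n * j := by positivity
      have hjnε : 0 ≤ (n : ℝ) * j * ε₁ := by positivity
      have e1 : ε = 8 * ε₁ := by rw [hε₁]; ring
      rw [e1]
      nlinarith
    exact le_of_mul_le_mul_left h2 hn'

end Sys

end Pool.Agent.Lib.MP_ab0522
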