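import Mathlib
import Pool.Agent.Lib.MP_ab0522.Energy

/-!
# Determinants of coefficient matrices
-/

namespace Pool.Agent.Lib.MP_ab0522

open Polynomial MeasureTheory Filter Topology

/-- the coefficient matrix of a family of polynomials -/
def coeffMat {n : ℕ} (U : Fin n → ℂ[X]) : Matrix (Fin n) (Fin n) ℂ :=
  Matrix.of fun i c => (U i).coeff c

@[simp] lemma coeffMat_apply {n : ℕ} (U : Fin n → ℂ[X]) (i c : Fin n) :
    coeffMat U i c = (U i).coeff c := rfl

/-- weighted Leibniz bound -/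
lemma det_bound {n : ℕ} (A : Matrix (Fin n) (Fin n) ℂ) (w v : Fin n → ℝ) (hw : ∀ i, 0 < w i)
    (hv : ∀ i, 0 < v i) {M : ℝ}
    (h : ∀ σ : Equiv.Perm (Fin n), ∏ i, (‖A i (σ i)‖ ^ 2 * w i * v (σ i)) ≤ M) :
    ‖A.det‖ ^ 2 * (∏ i, w i) * ∏ i, v i ≤ (n.factorial : ℝ) ^ 2 * M := by
  set D := (∏ i, w i) * ∏ i, v i with hD
  have hDpos : 0 < D := by
    rw [hD]
    exact mul_pos (Finset.prod_pos fun i _ => hw i) (Finset.prod_pos fun i _ => hv i)
  have h1 : ‖A.det‖ ≤ ∑ σ : Equiv.Perm (Fin n), ∏ i, ‖A (σ i) i‖ := by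
    rw [Matrix.det_apply]
    refine (norm_sum_le _ _).trans (Finset.sum_le_sum fun σ _ => ?_)
    rw [Units.smul_def, zsmul_eq_mul, norm_mul, norm_prod]
    have : ‖(((Equiv.Perm.sign σ : ℤˣ) : ℤ) : ℂ)‖ = 1 := by
      rcases Int.units_eq_one_or (Equiv.Perm.sign σ) with h | h <;> rw [h] <;> simp
    rw [this, one_mul]
  have h2 : ∀ σ : Equiv.Perm (Fin n), (∏ i, ‖A (σ i) i‖) ^ 2 ≤ M / D := by
    intro σ
    rw [le_div_iff₀ hDpos]
    refine le_trans (le_of_eq ?_) (h σ⁻¹)
    rw [hD, ← Finset.prod_pow, ← Equiv.prod_comp σ w, ← Finset.prod_mul_distrib,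
      ← Finset.prod_mul_distrib, ← Equiv.prod_comp σ (fun i => ‖A i (σ⁻¹ i)‖ ^ 2 * w i * v (σ⁻¹ i))]
    refine Finset.prod_congr rfl fun i _ => ?_
    have hσi : σ⁻¹ (σ i) = i := by simp
    rw [hσi]
    ring
  have h3 : ‖A.det‖ ^ 2 ≤ (n.factorial : ℝ) ^ 2 * (M / D) := by
    calc ‖A.det‖ ^ 2 ≤ (∑ σ : Equiv.Perm (Fin n), ∏ i, ‖A (σ i) i‖) ^ 2 := by gcongr
      _ ≤ (Finset.univ : Finset (Equiv.Perm (Fin n))).card *
          ∑ σ : Equiv.Perm (Fin n), (∏ i, ‖A (σ i) i‖) ^ 2 := sq_sum_le_card_mul_sum_sq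
      _ ≤ (Finset.univ : Finset (Equiv.Perm (Fin n))).card *
          ∑ _σ : Equiv.Perm (Fin n), M / D := by
          gcongr with σ
          exact h2 σ
      _ = (n.factorial : ℝ) ^ 2 * (M / D) := by
          rw [Finset.sum_const, nsmul_eq_mul, Finset.card_univ, Fintype.card_perm,
            Fintype.card_fin]
          ring
  calc ‖A.det‖ ^ 2 * (∏ i, w i) * ∏ i, v i = ‖A.det‖ ^ 2 * D := by rw [hD]; ring
    _ ≤ (n.factorial : ℝ) ^ 2 * (M / D) * D := by gcongr
    _ = _ := by field_simp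

lemma sum_coeff_mul {n : ℕ} {p : ℂ[X]} (hp : p.natDegree < n) (F : ℂ[X]) (c : ℕ) :
    ∑ i : Fin n, p.coeff i * (F * X ^ (i : ℕ)).coeff c = (F * p).coeff c := by
  conv_rhs => rw [as_sum_range_C_mul_X_pow' p hp]
  rw [Finset.mul_sum, finsetSum_coeff, Finset.sum_range]
  refine Finset.sum_congr rfl fun i _ => ?_
  rw [mul_left_comm, coeff_C_mul]

lemma rootPoly_one_monic {j : ℕ} (q : Fin j → ℂ) : (rootPoly 1 q).Monic := by
  rw [rootPoly, C_1, one_mul]
  exact monic_prod_of_monic _ _ fun i _ => monic_X_sub_C _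

lemma det_basis {j n : ℕ} (q : Fin j → ℂ) :
    (coeffMat (Fin.append (fun l : Fin j => (X : ℂ[X]) ^ (l : ℕ))
      (fun i : Fin n => rootPoly 1 q * X ^ (i : ℕ)))).det = 1 := by
  set Bp : Fin (j + n) → ℂ[X] := Fin.append (fun l : Fin j => (X : ℂ[X]) ^ (l : ℕ))
      (fun i : Fin n => rootPoly 1 q * X ^ (i : ℕ)) with hBp
  have hmon : (rootPoly 1 q).Monic := rootPoly_one_monic q
  have hdeg : ∀ r, (Bp r).natDegree = r := by
    intro r
    refine Fin.addCases (fun l => ?_) (fun i => ?_) r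
    · rw [hBp, Fin.append_left]; simp
    · rw [hBp, Fin.append_right, natDegree_mul hmon.ne_zero (by simp), natDegree_X_pow,
        rootPoly_natDegree one_ne_zero]
      simp
  have hm : ∀ r, (Bp r).Monic := by
    intro r
    refine Fin.addCases (fun l => ?_) (fun i => ?_) r
    · rw [hBp, Fin.append_left]; exact monic_X_pow _
    · rw [hBp, Fin.append_right]; exact hmon.mul (monic_X_pow _)
  rw [Matrix.det_of_isLowerTriangular]
  · refine Finset.prod_eq_one fun r _ => ?_
    rw [coeffMat_apply]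
    have := (hm r).coeff_natDegree
    rwa [hdeg] at this
  · intro r c hrc
    rw [coeffMat_apply]
    apply coeff_eq_zero_of_natDegree_lt
    rw [hdeg]
    exact hrc

lemma det_step {j n : ℕ} (hn : 0 < n) (a : ℂ) (q : Fin j → ℂ) (v : Fin j → ℂ[X])
    (W : Fin n → ℂ[X]) (hv : ∀ l, (v l).natDegree < j + n) (hW : ∀ i, (W i).natDegree < n)
    (hvq : ∀ l l', l ≠ l' → (v l).eval (q l') = 0) :
    (coeffMat (Fin.append v (fun i => rootPoly a q * W i))).det * (Matrix.vandermonde q).det =
      (∏ l, (v l).eval (q l)) * a ^ n * (coeffMat W).det := by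
  set T := rootPoly 1 q with hT
  have hmon : T.Monic := rootPoly_one_monic q
  have hTdeg : T.natDegree = j := rootPoly_natDegree one_ne_zero q
  set Q : Fin j → ℂ[X] := fun l => v l /ₘ T with hQ
  set R : Fin j → ℂ[X] := fun l => v l %ₘ T with hR
  have hQR : ∀ l, v l = R l + T * Q l := fun l => (modByMonic_add_div (v l) T).symm
  have hQdeg : ∀ l, (Q l).natDegree < n := by
    intro l
    rw [hQ]
    simp only
    rw [natDegree_divByMonic _ hmon, hTdeg]
    have := hv l
    omega
  have hRdeg : ∀ l, (R l).natDegree < j := by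
    intro l
    have hj : 0 < j := l.pos
    have h1 : (R l).natDegree < T.natDegree := by
      apply natDegree_modByMonic_lt _ hmon
      intro h1
      rw [h1] at hTdeg
      simp at hTdeg
      omega
    rwa [hTdeg] at h1
  -- the matrix of coordinates
  set P : Matrix (Fin (j + n)) (Fin (j + n)) ℂ := Matrix.reindex finSumFinEquiv finSumFinEquiv
    (Matrix.fromBlocks (coeffMat R) (Matrix.of fun (l : Fin j) (i : Fin n) => (Q l).coeff i) 0
      (a • coeffMat W)) with hP
  have hPdet : P.det = (coeffMat R).det * (a ^ n * (coeffMat W).det) := by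
    rw [hP, Matrix.det_reindex_self, Matrix.det_fromBlocks_zero₂₁, Matrix.det_smul,
      Fintype.card_fin]
  have hfact : coeffMat (Fin.append v (fun i => rootPoly a q * W i)) =
      P * coeffMat (Fin.append (fun l : Fin j => (X : ℂ[X]) ^ (l : ℕ))
      (fun i : Fin n => T * X ^ (i : ℕ))) := by
    ext r c
    rw [Matrix.mul_apply, Fin.sum_univ_add]
    refine Fin.addCases (fun l => ?_) (fun i => ?_) r
    · simp only [coeffMat_apply, Fin.append_left, Fin.append_right, hP, Matrix.reindex_apply,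
        Matrix.submatrix_apply, finSumFinEquiv_symm_apply_castAdd,
        finSumFinEquiv_symm_apply_natAdd, Matrix.fromBlocks_apply₁₁, Matrix.fromBlocks_apply₁₂,
        Matrix.of_apply]
      rw [sum_coeff_mul (hQdeg l)]
      have h1 := sum_coeff_mul (hRdeg l) 1 c
      simp only [one_mul] at h1
      rw [h1, ← coeff_add, ← hQR l]
    · simp only [coeffMat_apply, Fin.append_left, Fin.append_right, hP, Matrix.reindex_apply,
        Matrix.submatrix_apply, finSumFinEquiv_symm_apply_castAdd,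
        finSumFinEquiv_symm_apply_natAdd, Matrix.fromBlocks_apply₂₁, Matrix.fromBlocks_apply₂₂,
        Matrix.zero_apply, zero_mul, Finset.sum_const_zero, zero_add, Matrix.smul_apply,
        smul_eq_mul]
      have h1 := sum_coeff_mul (hW i) T c
      have h2 : rootPoly a q * W i = C a * (T * W i) := by
        rw [hT, rootPoly, rootPoly, C_1, one_mul, mul_assoc]
      rw [h2, coeff_C_mul, ← h1, Finset.mul_sum]
      refine Finset.sum_congr rfl fun k _ => ?_
      ring
  have hRV : coeffMat R * (Matrix.vandermonde q).transpose =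
      Matrix.diagonal fun l => (v l).eval (q l) := by
    ext l l'
    rw [Matrix.mul_apply, Matrix.diagonal_apply]
    simp only [coeffMat_apply, Matrix.transpose_apply, Matrix.vandermonde_apply]
    have h1 : ∑ k : Fin j, (R l).coeff k * q l' ^ (k : ℕ) = (R l).eval (q l') := by
      rw [eval_eq_sum_range' (hRdeg l), Finset.sum_range]
    have h2 : (R l).eval (q l') = (v l).eval (q l') := by
      rw [hQR l, eval_add, eval_mul]
      have : T.eval (q l') = 0 := by
        rw [hT, rootPoly_eval, Finset.prod_eq_zero (Finset.mem_univ l') (sub_self _), mul_zero]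
      rw [this]; simp
    rw [h1, h2]
    by_cases h : l = l'
    · subst h; simp
    · rw [if_neg h, hvq l l' h]
  have hRVdet : (coeffMat R).det * (Matrix.vandermonde q).det = ∏ l, (v l).eval (q l) := by
    have := congrArg Matrix.det hRV
    rwa [Matrix.det_mul, Matrix.det_transpose, Matrix.det_diagonal] at this
  rw [hfact, Matrix.det_mul, det_basis, mul_one, hPdet, ← hRVdet]
  ring

end Pool.Agent.Lib.MP_ab0522
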