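import Mathlib
import Pool.Agent.Lib.MP_ab0522.Det

/-!
# Lower bound for the determinant of the adapted bases
-/

namespace Pool.Agent.Lib.MP_ab0522

open Polynomial MeasureTheory Filter Topology

namespace Sys

variable {S : Sys}

lemma hull_natDegree_lt {g : ℝ → ℝ} {n N : ℕ} (h : N < n) {u : ℂ[X]} (hu : u ∈ S.hull g N) :
    u.natDegree < n := (mem_V.1 (hull_mem_V hu)).trans_lt h

/-- families of elements of the hull with a large determinant -/
lemma exists_family {g : ℝ → ℝ} (hg : ConvexOn ℝ Set.univ g) {j : ℕ} (hj : 1 ≤ j) {a : ℂ}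
    (ha : a ≠ 0) {q : Fin j → ℂ} (hq : Function.Injective q) {v : Fin j → ℝ}
    (hgood : ∀ i, S.Good g (v i) (q i)) (ht : rootPoly a q ∈ S.hull g j) {H : ℝ}
    (hH : j * H ≤ ∑ i, v i + Real.log (‖a‖ ^ 2)) :
    ∃ C : ℝ, 0 < C ∧ ∀ m : ℕ, ∀ n : ℕ, n = j * m + j → ∃ U : Fin n → ℂ[X],
      (∀ i, U i ∈ S.hull g (n - 1)) ∧
      Real.exp (j ^ 2 * H * (m * (m + 1) / 2) - C * (m + 1)) ≤ ‖(coeffMat U).det‖ ^ 2 := by
  classical
  choose c' hc' hs using fun i => (hgood i).all hg
  have hL : ∀ l : Fin j, Lagrange.basis Finset.univ q l ∈ V (j - 1) := by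
    intro l
    rw [mem_V, Lagrange.natDegree_basis hq.injOn (Finset.mem_univ l)]
    simp
  choose c hc hcL using fun l => exists_smul_mem S g (hL l)
  have hX : ∀ i : Fin j, (X : ℂ[X]) ^ (i : ℕ) ∈ V (j - 1) := by
    intro i
    rw [mem_V, natDegree_X_pow]
    omega
  choose d hd hdX using fun i => exists_smul_mem S g (hX i)
  -- constants
  have hV : (Matrix.vandermonde q).det ≠ 0 := Matrix.det_vandermonde_ne_zero_iff.2 hq
  set Vd := ‖(Matrix.vandermonde q).det‖ ^ 2 with hVd
  have hVpos : 0 < Vd := by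
    have := norm_pos_iff.2 hV
    positivity
  set K₁ := (∏ l, (c l ^ 2 * c' l)) / Vd with hK₁
  have hK₁pos : 0 < K₁ := by
    apply div_pos (Finset.prod_pos fun l _ => ?_) hVpos
    have := hc l
    have := hc' l
    positivity
  set K₀ := (∏ l, d l) ^ 2 with hK₀
  have hK₀pos : 0 < K₀ := by
    have : 0 < ∏ l, d l := Finset.prod_pos fun l _ => hd l
    positivity
  refine ⟨|Real.log K₀| + |Real.log K₁| + 1, by positivity, fun m => ?_⟩
  set C := |Real.log K₀| + |Real.log K₁| + 1 with hC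
  induction m with
  | zero =>
    intro n hn
    obtain rfl : n = j := by omega
    refine ⟨fun i => (d i : ℂ) • X ^ (i : ℕ), fun i => atoms_subset_hull _ _ (hdX i), ?_⟩
    have hdiag : coeffMat (fun i : Fin n => (d i : ℂ) • (X : ℂ[X]) ^ (i : ℕ)) =
        Matrix.diagonal fun i => (d i : ℂ) := by
      ext i k
      rw [coeffMat_apply, coeff_smul, coeff_X_pow, Matrix.diagonal_apply]
      by_cases h : i = k
      · subst h; simp
      · have : ¬ ((k : ℕ) = i) := fun h' => h (Fin.ext h'.symm)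
        simp [h, this]
    rw [hdiag, Matrix.det_diagonal, norm_prod]
    have h1 : ∏ i : Fin n, ‖(d i : ℂ)‖ = ∏ i, d i := by
      refine Finset.prod_congr rfl fun i _ => ?_
      rw [Complex.norm_real, Real.norm_of_nonneg (hd i).le]
    rw [h1, ← hK₀, ← Real.le_log_iff_exp_le hK₀pos, hC]
    have := neg_abs_le (Real.log K₀)
    have := abs_nonneg (Real.log K₁)
    push_cast
    nlinarith
  | succ m ih =>
    intro n hn
    obtain ⟨n', hn'⟩ : ∃ n' : ℕ, n' = j * m + j := ⟨_, rfl⟩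
    obtain ⟨W, hW, hWdet⟩ := ih n' hn'
    have hn'pos : 0 < n' := by omega
    obtain rfl : n = j + n' := by rw [hn, hn']; ring
    choose s hsm hsv using fun l => hs l n'
    set w : Fin j → ℂ[X] := fun l => ((c l : ℂ) • Lagrange.basis Finset.univ q l) * s l with hw
    have hwm : ∀ l, w l ∈ S.hull g (j + n' - 1) := by
      intro l
      have h1 := atoms_mul hg (hcL l) (hsm l)
      have e : j - 1 + n' = j + n' - 1 := by omega
      rw [e] at h1
      exact atoms_subset_hull _ _ h1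
    have hTm : ∀ i, rootPoly a q * W i ∈ S.hull g (j + n' - 1) := by
      intro i
      have h1 := hull_mul hg ht (hW i)
      have e : j + (n' - 1) = j + n' - 1 := by omega
      rwa [e] at h1
    refine ⟨Fin.append w (fun i => rootPoly a q * W i), fun r => ?_, ?_⟩
    · refine Fin.addCases (fun l => ?_) (fun i => ?_) r
      · rw [Fin.append_left]; exact hwm l
      · rw [Fin.append_right]; exact hTm i
    · have hstep := det_step hn'pos a q w W
        (fun l => hull_natDegree_lt (by omega) (hwm l))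
        (fun i => hull_natDegree_lt (by omega) (hW i))
        (fun l l' hll => by
          rw [hw]
          simp only
          rw [eval_mul, eval_smul, Lagrange.eval_basis_of_ne hll (Finset.mem_univ l')]
          simp)
      have hnorm := congrArg (fun x => ‖x‖ ^ 2) hstep
      simp only [norm_mul, mul_pow, norm_pow] at hnorm
      rw [← hVd] at hnorm
      have hwv : ∀ l, c l ^ 2 * (c' l * Real.exp (n' * v l)) ≤ ‖(w l).eval (q l)‖ ^ 2 := by
        intro l
        rw [hw]
        simp only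
        rw [eval_mul, eval_smul, Lagrange.eval_basis_self hq.injOn (Finset.mem_univ l),
          smul_eq_mul, mul_one, norm_mul, mul_pow, Complex.norm_real,
          Real.norm_of_nonneg (hc l).le]
        have := hsv l
        have := hc l
        gcongr
      have hprod : (∏ l, (c l ^ 2 * c' l)) * Real.exp (n' * ∑ l, v l) ≤
          ‖∏ l, (w l).eval (q l)‖ ^ 2 := by
        rw [norm_prod, ← Finset.prod_pow, Finset.mul_sum, Real.exp_sum, ← Finset.prod_mul_distrib]
        refine Finset.prod_le_prod (fun l _ => ?_) fun l _ => ?_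
        · have := hc l
          have := hc' l
          positivity
        · rw [mul_assoc]; exact hwv l
      have hapos : 0 < ‖a‖ ^ 2 := by
        have := norm_pos_iff.2 ha
        positivity
      have ha2 : (‖a‖ ^ n') ^ 2 = Real.exp (n' * Real.log (‖a‖ ^ 2)) := by
        rw [Real.exp_nat_mul, Real.exp_log hapos, ← pow_mul, ← pow_mul, mul_comm n' 2]
      have hmain : K₁ * Real.exp (n' * (j * H)) *
          Real.exp (j ^ 2 * H * (m * (m + 1) / 2) - C * (m + 1)) ≤
          ‖(coeffMat (Fin.append w (fun i => rootPoly a q * W i))).det‖ ^ 2 := by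
        have h1 : ‖(coeffMat (Fin.append w (fun i => rootPoly a q * W i))).det‖ ^ 2 =
            ‖∏ l, (w l).eval (q l)‖ ^ 2 * (‖a‖ ^ n') ^ 2 * ‖(coeffMat W).det‖ ^ 2 / Vd := by
          rw [eq_div_iff hVpos.ne']; exact hnorm
        rw [h1, ha2, hK₁]
        rw [div_mul_eq_mul_div, div_mul_eq_mul_div]
        apply div_le_div_of_nonneg_right _ hVpos.le
        have hn0 : (0 : ℝ) ≤ n' := by positivity
        have hexp : Real.exp (n' * (j * H)) ≤
            Real.exp (n' * ∑ l, v l) * Real.exp (n' * Real.log (‖a‖ ^ 2)) := by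
          rw [← Real.exp_add, Real.exp_le_exp, ← mul_add]
          exact mul_le_mul_of_nonneg_left hH hn0
        have hP0 : 0 ≤ ∏ l, (c l ^ 2 * c' l) := by
          refine Finset.prod_nonneg fun l _ => ?_
          have := hc l
          have := hc' l
          positivity
        calc (∏ l, (c l ^ 2 * c' l)) * Real.exp (n' * (j * H)) *
              Real.exp (j ^ 2 * H * (m * (m + 1) / 2) - C * (m + 1)) ≤
            (∏ l, (c l ^ 2 * c' l)) *
              (Real.exp (n' * ∑ l, v l) * Real.exp (n' * Real.log (‖a‖ ^ 2))) *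
              ‖(coeffMat W).det‖ ^ 2 := by gcongr
          _ = ((∏ l, (c l ^ 2 * c' l)) * Real.exp (n' * ∑ l, v l)) *
              Real.exp (n' * Real.log (‖a‖ ^ 2)) * ‖(coeffMat W).det‖ ^ 2 := by ring
          _ ≤ _ := by gcongr
      refine le_trans ?_ hmain
      have hK₁e : Real.exp (-C) ≤ K₁ := by
        rw [← Real.le_log_iff_exp_le hK₁pos, hC]
        have := neg_abs_le (Real.log K₁)
        have := abs_nonneg (Real.log K₀)
        linarith
      calc Real.exp (j ^ 2 * H * ((m + 1 : ℕ) * ((m + 1 : ℕ) + 1) / 2) - C * ((m + 1 : ℕ) + 1)) =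
            Real.exp (-C) * Real.exp (n' * (j * H)) *
              Real.exp (j ^ 2 * H * (m * (m + 1) / 2) - C * (m + 1)) := by
            rw [← Real.exp_add, ← Real.exp_add]
            congr 1
            rw [hn']
            push_cast
            ring
        _ ≤ _ := by gcongr

end Sys

lemma err_small (C : ℝ) {ε : ℝ} (hε : 0 < ε) :
    ∀ᶠ N : ℕ in atTop, C * (N + 1) + 2 * Real.log ((N + 1).factorial) ≤ ε * N ^ 2 := by
  have h1 := (tendsto_log_div_nat (C := 1) one_pos).eventually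
    (gt_mem_nhds (show 0 < ε / 8 by positivity))
  have h2 : ∀ᶠ N : ℕ in atTop, 4 * |C| / ε ≤ (N : ℝ) :=
    tendsto_natCast_atTop_atTop.eventually_ge_atTop _
  filter_upwards [h1, h2, eventually_ge_atTop 1] with N hN1 hN2 hN3
  have hN : (1 : ℝ) ≤ N := by exact_mod_cast hN3
  rw [mul_one, div_lt_iff₀ (by linarith)] at hN1
  rw [div_le_iff₀ hε] at hN2
  have hfac : Real.log ((N + 1).factorial) ≤ (N + 1) * Real.log (N + 1) := by
    have h3 : (((N + 1).factorial : ℕ) : ℝ) ≤ ((N : ℝ) + 1) ^ (N + 1) := by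
      have := Nat.factorial_le_pow (N + 1)
      calc (((N + 1).factorial : ℕ) : ℝ) ≤ (((N + 1) ^ (N + 1) : ℕ) : ℝ) := by exact_mod_cast this
        _ = ((N : ℝ) + 1) ^ (N + 1) := by push_cast; ring
    have h4 : (0 : ℝ) < ((N + 1).factorial : ℝ) := by exact_mod_cast Nat.factorial_pos _
    have h5 := Real.log_le_log h4 h3
    rw [Real.log_pow] at h5
    push_cast at h5
    exact h5
  have h6 : C ≤ |C| := le_abs_self C
  have h7 : 0 ≤ Real.log ((N : ℝ) + 1) := Real.log_nonneg (by linarith)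
  have h8 : C * (N + 1) ≤ ε / 2 * N ^ 2 := by
    have h9 : C * (N + 1) ≤ |C| * (2 * N) := by
      have : 0 ≤ |C| := abs_nonneg C
      nlinarith
    nlinarith
  have h10 : (N + 1) * Real.log (N + 1) ≤ 2 * N * (ε / 8 * N) := by
    apply mul_le_mul (by linarith) hN1.le h7 (by positivity)
  nlinarith

namespace Sys

variable {S : Sys}

theorem volume_lower {f : ℝ → ℝ} (hf : Antitone f) {a b : ℝ} (hab : a < b)
    (hconv : ConvexOn ℝ (Set.Icc a b) f)
    (hlow : ∀ κ : ℝ, 0 < κ → ∃ c, a < c ∧ c < b ∧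
      ∀ᶠ k : ℕ in atTop, (cnt S.lam k (Set.Iio c) : ℝ) ≤ κ * k)
    (hle : ∀ k i, 1 ≤ k → S.lam k i / k ≤ b)
    {ψ h : ℂ → ℝ} (hψ : S.Conv f ψ) (hψh : IsUscRegularisation ψ h) (hh : Continuous h) {A' : ℝ}
    (hgrow : ∀ z : ℂ, 1 + ‖z‖ ^ 2 ≤ Real.exp A' * Real.exp (h z)) {E : ℝ} (hE : HasEnergy h E)
    {ε : ℝ} (hε : 0 < ε) :
    ∃ᶠ N : ℕ in atTop, Real.exp ((E / 2 - ε) * N ^ 2) ≤
      ‖(coeffMat (S.s N)).det‖ ^ 2 * ∏ i, Real.exp (-(N * f (S.lam N i / N))) := by
  obtain ⟨C₁, hC₁, hlam⟩ := S.exists_lam_bound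
  have hCb : f b ≤ f (-C₁) ∨ f (-C₁) < f b := le_or_gt _ _
  set M₀ := |f (-C₁) - f b| with hM₀
  have hM₀0 : 0 ≤ M₀ := abs_nonneg _
  set κ := ε / 4 / (M₀ + 1) with hκ
  have hκpos : 0 < κ := by positivity
  have hM₀κ : M₀ * κ ≤ ε / 4 := by
    rw [hκ, mul_div_assoc', div_le_iff₀ (by positivity)]
    nlinarith
  obtain ⟨c, hac, hcb, hc⟩ := hlow κ hκpos
  have hfac : f c ≤ f a := hf hac.le
  set K := (f a - f c) / (c - a) with hK
  have hK0 : 0 ≤ K := div_nonneg (by linarith) (by linarith)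
  set g := reg f a b K with hg
  have hgconv : ConvexOn ℝ Set.univ g := reg_convex hf hconv hab.le hK0
  have hganti : Antitone g := reg_antitone hf hab.le hK0
  have hgf : ∀ x, a ≤ x → x ≤ b → g x ≤ f x := fun x hx hx' => reg_le hf hK0 ⟨hx, hx'⟩
  have hgeq : ∀ x, c ≤ x → x ≤ b → g x = f x := fun x hx hx' =>
    reg_eq hf hconv hK0 hac le_rfl ⟨hx, hx'⟩
  have hgb : ∀ x, f b ≤ g x := fun x => le_reg hf hab.le hK0 x
  have hgood : ∀ ε > 0, ∀ z, ∀ U ∈ 𝓝 z, ∃ z' ∈ U, S.Good g (h z' - ε) z' := by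
    intro ε hε z U hU
    refine exists_good hf (a := a) (b := b) (fun κ hκ => ?_) hle hgf hψ hψh hh z hε hU
    obtain ⟨c, h1, h2, h3⟩ := hlow κ hκ
    exact ⟨c, h1, h2.le, h3⟩
  obtain ⟨j, hj, a', ha', q, hq, hqgood, ht, hH⟩ := exists_energy_section hgconv hh hgrow hE hgood
    (show 0 < ε / 8 by positivity)
  have hj' : (1 : ℝ) ≤ j := by exact_mod_cast hj
  obtain ⟨C, hC, hfam⟩ := exists_family hgconv hj ha' hq hqgood ht (H := E - 2 * (ε / 8)) (by
    rw [Finset.sum_sub_distrib, Finset.sum_const, Finset.card_univ, Fintype.card_fin,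
      nsmul_eq_mul]
    linarith)
  set H := E - 2 * (ε / 8) with hHdef
  have hN : Tendsto (fun m : ℕ => j * m + (j - 1)) atTop atTop := by
    refine tendsto_atTop_mono (fun m => ?_) tendsto_id
    have : 1 * m ≤ j * m := Nat.mul_le_mul_right m hj
    simp only [id]
    omega
  refine hN.frequently (Eventually.frequently ?_)
  have e1 := hN.eventually hc
  set C' := C + 2 * |H| * j ^ 2 + |Real.log S.C₀| with hC'
  have e2 := hN.eventually (err_small (C + 2 * |H| * j ^ 2 + |Real.log S.C₀|)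
    (show 0 < ε / 4 by positivity))
  filter_upwards [e1, e2, eventually_ge_atTop 1] with m hm1 hm2 hm3
  obtain ⟨N, hNdef⟩ : ∃ N : ℕ, N = j * m + (j - 1) := ⟨_, rfl⟩
  rw [← hNdef] at hm1 hm2 ⊢
  have hN1 : 1 ≤ N := by
    have : j * 1 ≤ j * m := Nat.mul_le_mul_left j hm3
    omega
  have hNpos : (0 : ℝ) < N := by exact_mod_cast hN1
  obtain ⟨U, hU, hUdet⟩ := hfam m (N + 1) (by omega)
  simp only [Nat.add_sub_cancel] at hU
  choose A hAU hAb using fun i => hull_coord hganti hN1 (hU i)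
  have hfact : coeffMat U = Matrix.of A * coeffMat (S.s N) := by
    ext i k
    rw [Matrix.mul_apply, coeffMat_apply, hAU i, finsetSum_coeff]
    refine Finset.sum_congr rfl fun l _ => ?_
    rw [coeff_smul]; rfl
  have hdet : ‖(coeffMat U).det‖ ^ 2 = ‖(Matrix.of A).det‖ ^ 2 * ‖(coeffMat (S.s N)).det‖ ^ 2 := by
    rw [hfact, Matrix.det_mul, norm_mul, mul_pow]
  have hAdet := det_bound (Matrix.of A) (fun _ => 1)
    (fun k => Real.exp (N * g (S.lam N k / N))) (fun _ => one_pos) (fun _ => Real.exp_pos _)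
    (M := S.C₀ ^ (N + 1)) (fun σ => by
      calc ∏ i, (‖Matrix.of A i (σ i)‖ ^ 2 * 1 * Real.exp (N * g (S.lam N (σ i) / N))) ≤
          ∏ _i : Fin (N + 1), S.C₀ := by
            refine Finset.prod_le_prod (fun i _ => by positivity) fun i _ => ?_
            rw [mul_one]
            exact hAb i (σ i)
        _ = S.C₀ ^ (N + 1) := by simp)
  simp only [Finset.prod_const_one, mul_one] at hAdet
  rw [← Real.exp_sum] at hAdet
  -- sum of `f - g`
  have hsum : ∑ k, N * f (S.lam N k / N) ≤ ∑ k, N * g (S.lam N k / N) + ε / 4 * N ^ 2 := by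
    classical
    have h1 : ∀ k : Fin (N + 1), f (S.lam N k / N) - g (S.lam N k / N) ≤
        if S.lam N k / N ∈ Set.Iio c then M₀ else 0 := by
      intro k
      have h2 := hle N k hN1
      by_cases h3 : S.lam N k / N ∈ Set.Iio c
      · rw [if_pos h3]
        have h4 := abs_le.1 (hlam N k)
        have h5 : -C₁ ≤ S.lam N k / N := by
          rw [le_div_iff₀ hNpos]; linarith [h4.1]
        have h6 := hf h5
        have h7 := hgb (S.lam N k / N)
        have h8 := le_abs_self (f (-C₁) - f b)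
        linarith
      · rw [if_neg h3]
        rw [Set.mem_Iio, not_lt] at h3
        rw [hgeq _ h3 h2]; simp
    have h2 : ∑ k : Fin (N + 1), (f (S.lam N k / N) - g (S.lam N k / N)) ≤
        M₀ * cnt S.lam N (Set.Iio c) := by
      refine (Finset.sum_le_sum fun k _ => h1 k).trans ?_
      rw [← Finset.sum_filter, Finset.sum_const, nsmul_eq_mul, mul_comm, cnt]
      exact le_of_eq (by congr)
    rw [Finset.sum_sub_distrib] at h2
    rw [← Finset.mul_sum, ← Finset.mul_sum]
    have h3 : M₀ * (cnt S.lam N (Set.Iio c) : ℝ) ≤ M₀ * (κ * N) := by gcongr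
    have h4 : M₀ * (κ * N) ≤ ε / 4 * N := by
      rw [← mul_assoc]; gcongr
    have h5 : (∑ k, f (S.lam N k / N)) ≤ (∑ k, g (S.lam N k / N)) + ε / 4 * N := by linarith
    have h6 := mul_le_mul_of_nonneg_left h5 hNpos.le
    nlinarith
  -- put everything together
  rw [← Real.exp_sum, Finset.sum_neg_distrib]
  have hC₀ := S.C₀_pos
  set sg := ∑ k, (N : ℝ) * g (S.lam N k / N) with hsg
  set sf := ∑ k, (N : ℝ) * f (S.lam N k / N) with hsf
  set DS := ‖(coeffMat (S.s N)).det‖ ^ 2 with hDS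
  set F : ℝ := ((N + 1).factorial : ℝ) ^ 2 * S.C₀ ^ (N + 1) with hF
  have hfacpos : (0 : ℝ) < (N + 1).factorial := by exact_mod_cast Nat.factorial_pos _
  have hFpos : 0 < F := by positivity
  have hFexp : F ≤ Real.exp (2 * Real.log ((N + 1).factorial) + |Real.log S.C₀| * (N + 1)) := by
    rw [← Real.log_le_iff_le_exp hFpos, hF, Real.log_mul (by positivity) (by positivity),
      Real.log_pow, Real.log_pow]
    have := le_abs_self (Real.log S.C₀)
    push_cast
    nlinarith
  have h1 : Real.exp (j ^ 2 * H * (m * (m + 1) / 2) - C * (m + 1)) * Real.exp sg ≤ F * DS := by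
    calc Real.exp (j ^ 2 * H * (m * (m + 1) / 2) - C * (m + 1)) * Real.exp sg ≤
        (‖(Matrix.of A).det‖ ^ 2 * DS) * Real.exp sg := by
          rw [← hdet]; gcongr
      _ = (‖(Matrix.of A).det‖ ^ 2 * Real.exp sg) * DS := by ring
      _ ≤ F * DS := by gcongr
  have h2 : Real.exp (j ^ 2 * H * (m * (m + 1) / 2) - C * (m + 1)) * Real.exp sg *
      Real.exp (-sf) * Real.exp (-(2 * Real.log ((N + 1).factorial) + |Real.log S.C₀| * (N + 1)))
      ≤ DS * Real.exp (-sf) := by
    have h3 : F * DS ≤ Real.exp (2 * Real.log ((N + 1).factorial) + |Real.log S.C₀| * (N + 1)) *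
        DS := by gcongr
    have h4 := mul_le_mul_of_nonneg_right (h1.trans h3) (Real.exp_pos (-sf)).le
    have h5 := mul_le_mul_of_nonneg_right h4 (Real.exp_pos
      (-(2 * Real.log ((N + 1).factorial) + |Real.log S.C₀| * (N + 1)))).le
    refine h5.trans (le_of_eq ?_)
    rw [Real.exp_neg (2 * Real.log ((N + 1).factorial) + |Real.log S.C₀| * (N + 1))]
    field_simp
  refine le_trans ?_ h2
  rw [← Real.exp_add, ← Real.exp_add, ← Real.exp_add, Real.exp_le_exp]
  -- the arithmetic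
  have hNcast : (N : ℝ) = j * (m + 1) - 1 := by
    rw [hNdef, Nat.cast_add, Nat.cast_sub hj]; push_cast; ring
  have hm0 : (0 : ℝ) ≤ m := by positivity
  have hmN : (m : ℝ) + 1 ≤ N + 1 := by
    have : (m : ℝ) + 1 ≤ j * (m + 1) := by nlinarith
    linarith
  have hX : H / 2 * N ^ 2 - 2 * |H| * j ^ 2 * (m + 1) ≤ j ^ 2 * H * (m * (m + 1) / 2) := by
    have e : j ^ 2 * H * (m * (m + 1) / 2) - H / 2 * N ^ 2 =
        -(H / 2 * (j ^ 2 * (m + 1) - 2 * j * (m + 1) + 1)) := by rw [hNcast]; ring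
    have hb : |(j : ℝ) ^ 2 * (m + 1) - 2 * j * (m + 1) + 1| ≤ 4 * (j : ℝ) ^ 2 * (m + 1) := by
      have hj2 : (j : ℝ) ≤ j ^ 2 := le_self_pow₀ hj' (by norm_num)
      have hj3 : (1 : ℝ) ≤ j ^ 2 := one_le_pow₀ hj'
      have hm1' : (1 : ℝ) ≤ m + 1 := by linarith
      have p1 : (j : ℝ) * (m + 1) ≤ j ^ 2 * (m + 1) := by gcongr
      have p2 : (1 : ℝ) ≤ j ^ 2 * (m + 1) := one_le_mul_of_one_le_of_one_le hj3 hm1'
      have p3 : (0 : ℝ) ≤ j * (m + 1) := by positivity
      rw [abs_le]; constructor <;> linarith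
    have hb2 : H / 2 * (j ^ 2 * (m + 1) - 2 * j * (m + 1) + 1) ≤ 2 * |H| * j ^ 2 * (m + 1) := by
      calc H / 2 * (j ^ 2 * (m + 1) - 2 * j * (m + 1) + 1) ≤
          |H / 2 * (j ^ 2 * (m + 1) - 2 * j * (m + 1) + 1)| := le_abs_self _
        _ = |H| / 2 * |(j : ℝ) ^ 2 * (m + 1) - 2 * j * (m + 1) + 1| := by
            rw [abs_mul, abs_div, abs_two]
        _ ≤ |H| / 2 * (4 * j ^ 2 * (m + 1)) := by gcongr
        _ = _ := by ring
    linarith
  have hY : 2 * |H| * j ^ 2 * (m + 1) + C * (m + 1) + |Real.log S.C₀| * (N + 1) ≤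
      (C + 2 * |H| * j ^ 2 + |Real.log S.C₀|) * (N + 1) := by
    have h3 : 0 ≤ 2 * |H| * (j : ℝ) ^ 2 + C := by positivity
    have h4 := mul_le_mul_of_nonneg_left hmN h3
    linarith
  have hHe : H / 2 = E / 2 - ε / 8 := by rw [hHdef]; ring
  rw [hHe] at hX
  have hN2 : (0 : ℝ) ≤ ε * (N : ℝ) ^ 2 := by positivity
  clear_value sg sf DS F C' H
  clear hFexp h1 h2 hAdet hdet hfact hAb hAU hU hUdet hfam hH ht hqgood hgood e1 e2 hψh hψ
  linarith

end Sys

end Pool.Agent.Lib.MP_ab0522
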