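import Mathlib
import Pool.Agent.Lib.MP_ab0522.Volume

/-!
# Upper bound for the determinant of the adapted bases
-/

namespace Pool.Agent.Lib.MP_ab0522

open Polynomial MeasureTheory Filter Topology

/-- `v` dominates the concave conjugate of the radial weight `h` -/
def Leg (h : ℂ → ℝ) (v : ℝ → ℝ) : Prop := ∀ x : ℝ, 0 ≤ x → x ≤ 1 → ∀ ε : ℝ, 0 < ε →
  ∃ R : ℝ, 0 < R ∧ ∀ z : ℂ, ‖z‖ = R → h z - x * Real.log (R ^ 2) ≤ v x + ε

namespace Sys

variable {S : Sys}

lemma s_le {ε C : ℝ} (hC : 0 < C)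
    (hbm : ∀ k i z, ‖(S.s k i).eval z‖ ^ 2 ≤ C * Real.exp (ε * k) * Real.exp (k * S.φ z))
    {f : ℝ → ℝ} (hf : Antitone f) {ψ : ℂ → ℝ} (hψ : S.Conv f ψ) {k : ℕ} (hk : 1 ≤ k)
    (i : Fin (k + 1)) (z : ℂ) :
    ‖(S.s k i).eval z‖ ^ 2 ≤ C * Real.exp (ε * k) * Real.exp (k * (f (S.lam k i / k) + ψ z)) := by
  have hD : 0 < C * Real.exp (ε * k) := by positivity
  have h1 : ∀ w, ‖((((Real.sqrt (C * Real.exp (ε * k)))⁻¹ : ℝ) : ℂ) • S.s k i).eval w‖ ^ 2 ≤
      Real.exp (k * S.φ w) := by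
    intro w
    rw [scale_norm hD, inv_mul_le_iff₀ hD]
    exact hbm k i w
  have h2 := S.atom_le hf hψ hk (Submodule.smul_mem _ _ (S.s_mem k i)) h1 z
  rw [scale_norm hD, inv_mul_le_iff₀ hD] at h2
  exact h2

lemma coeff_le {ε C : ℝ} (hε : 0 < ε) (hC : 0 < C)
    (hbm : ∀ k i z, ‖(S.s k i).eval z‖ ^ 2 ≤ C * Real.exp (ε * k) * Real.exp (k * S.φ z))
    {f : ℝ → ℝ} (hf : Antitone f) {ψ h : ℂ → ℝ} (hψ : S.Conv f ψ) (hψh : ∀ z, ψ z ≤ h z)
    {v : ℝ → ℝ} (hv : Leg h v) {k : ℕ} (hk : 1 ≤ k)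
    (i : Fin (k + 1)) {c : ℕ} (hc : c ≤ k) :
    ‖(S.s k i).coeff c‖ ^ 2 ≤
      C * Real.exp (2 * ε * k) * Real.exp (k * (f (S.lam k i / k) + v (c / k))) := by
  have hk' : (0 : ℝ) < k := by exact_mod_cast hk
  have hc' : (c : ℝ) ≤ k := by exact_mod_cast hc
  obtain ⟨R, hR, hRz⟩ := hv (c / k) (by positivity) (by rw [div_le_one hk']; exact hc') ε hε
  set M := C * Real.exp (ε * k) *
    Real.exp (k * (f (S.lam k i / k) + (v (c / k) + ε + c / k * Real.log (R ^ 2)))) with hM
  have hMpos : 0 < M := by positivity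
  have h1 : ∀ z : ℂ, ‖z‖ = R → ‖(S.s k i).eval z‖ ≤ Real.sqrt M := by
    intro z hz
    apply Real.le_sqrt_of_sq_le
    refine (s_le hC hbm hf hψ hk i z).trans ?_
    rw [hM]
    gcongr
    have := hRz z hz
    have := hψh z
    linarith
  have h2 := coeff_bound hR (Real.sqrt_nonneg _) h1 c
  have h3 : ‖(S.s k i).coeff c‖ ^ 2 * (R ^ 2) ^ c ≤ M := by
    have h4 := pow_le_pow_left₀ (by positivity) h2 2
    rw [Real.sq_sqrt hMpos.le, mul_pow, ← pow_mul, mul_comm c 2, pow_mul] at h4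
    exact h4
  have h4 : (R ^ 2) ^ c = Real.exp (c * Real.log (R ^ 2)) := by
    rw [Real.exp_nat_mul, Real.exp_log (by positivity)]
  have h5 : M = C * Real.exp (2 * ε * k) * Real.exp (k * (f (S.lam k i / k) + v (c / k))) *
      Real.exp (c * Real.log (R ^ 2)) := by
    rw [hM, mul_assoc, mul_assoc, mul_assoc, ← Real.exp_add, ← Real.exp_add, ← Real.exp_add]
    congr 2
    field_simp
    ring
  rw [h4, h5] at h3
  exact le_of_mul_le_mul_right h3 (Real.exp_pos _)

theorem volume_upper {f f' : ℝ → ℝ} (hf : Antitone f) (hf' : Antitone f') {a b : ℝ}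
    (hconv' : ConvexOn ℝ (Set.Icc a b) f')
    {ψ ψ' h h' : ℂ → ℝ} (hψ : S.Conv f ψ) (hψ' : S.Conv f' ψ') (hψh : ∀ z, ψ z ≤ h z)
    (hψh' : ∀ z, ψ' z ≤ h' z) {v v' : ℝ → ℝ} (hv : Leg h v) (hv' : Leg h' v') {e C₁ β : ℝ}
    (hC₁ : 0 ≤ C₁)
    (hsum : ∀ k : ℕ, 1 ≤ k → ∑ c : Fin (k + 1), v ((c : ℕ) / k) ≤ e * k + C₁)
    (hbad : ∀ ε₀ : ℝ, 0 < ε₀ → ∃ δ₁ : ℝ, 0 < δ₁ ∧ ∀ δ : ℝ, 0 < δ → δ < δ₁ → ∀ k : ℕ, 1 ≤ k →
      ∃ T : Finset (Fin (k + 1)), (T.card : ℝ) ≤ ε₀ * δ * k + 1 ∧
        ∀ c ∉ T, v' ((c : ℕ) / k) - v ((c : ℕ) / k) ≤ β - δ)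
    {l : ℝ} (hal : a < l) (hlb : l ≤ b)
    (hwin : ∃ c₂ > 0, ∃ δ₀ > 0, ∀ δ, 0 < δ → δ < δ₀ →
      ∀ᶠ k : ℕ in atTop, c₂ * δ * k ≤ cnt S.lam k (Set.Ioo (l - δ) l))
    (hG : β ≤ f l - f' l) :
    ∃ γ > 0, ∀ᶠ k : ℕ in atTop,
      ‖(coeffMat (S.s k)).det‖ ^ 2 * ∏ i, Real.exp (-(k * f (S.lam k i / k))) ≤
        Real.exp ((e - γ) * k ^ 2) := by
  classical
  obtain ⟨c₂, hc₂, δ₀, hδ₀, hwin⟩ := hwin
  set c₁ := (a + l) / 2 with hc₁
  have hac₁ : a < c₁ := by rw [hc₁]; linarith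
  have hc₁l : c₁ < l := by rw [hc₁]; linarith
  set K := (f' a - f' c₁) / (c₁ - a) + 1 with hK
  have hK1 : 1 ≤ K := by
    have : 0 ≤ (f' a - f' c₁) / (c₁ - a) :=
      div_nonneg (by linarith [hf' hac₁.le]) (by linarith)
    linarith
  have hKpos : 0 < K := by linarith
  obtain ⟨δ₁, hδ₁, hbad⟩ := hbad (c₂ / (6 * K)) (by positivity)
  obtain ⟨δ, hδ, hδ1, hδ2, hδ3⟩ : ∃ δ : ℝ, 0 < δ ∧ δ < δ₀ ∧ δ < l - c₁ ∧
      3 * K * δ < δ₁ := by
    refine ⟨min (min (δ₀ / 2) ((l - c₁) / 2)) (δ₁ / (6 * K)), by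
      have : 0 < l - c₁ := by linarith
      positivity, ?_, ?_, ?_⟩
    · have h1 := min_le_left (min (δ₀ / 2) ((l - c₁) / 2)) (δ₁ / (6 * K))
      have h2 := min_le_left (δ₀ / 2) ((l - c₁) / 2)
      linarith
    · have h1 := min_le_left (min (δ₀ / 2) ((l - c₁) / 2)) (δ₁ / (6 * K))
      have h2 := min_le_right (δ₀ / 2) ((l - c₁) / 2)
      linarith
    · have h1 := min_le_right (min (δ₀ / 2) ((l - c₁) / 2)) (δ₁ / (6 * K))
      rw [le_div_iff₀ (by positivity)] at h1
      linarith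
  set ε := K * c₂ * δ ^ 2 / 8 with hε
  have hεpos : 0 < ε := by positivity
  refine ⟨ε, hεpos, ?_⟩
  obtain ⟨C, hC, hbm⟩ := S.bm ε hεpos
  filter_upwards [hwin δ hδ hδ1, eventually_ge_atTop 1,
    err_small (C₁ + ε * 2 + |Real.log C| + 2 * K * δ) hεpos] with k hk1 hk2 hk3
  have hk' : (0 : ℝ) < k := by exact_mod_cast hk2
  obtain ⟨T, hT, hTc⟩ := hbad (3 * K * δ) (by positivity) hδ3 k hk2
  set W : Finset (Fin (k + 1)) := Finset.univ.filter fun i => S.lam k i / k ∈ Set.Ioo (l - δ) l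
    with hW
  have hWcard : c₂ * δ * k ≤ W.card := by
    refine hk1.trans (le_of_eq ?_)
    rw [cnt, hW]
    congr
  have hcoef := fun i (c : Fin (k + 1)) =>
    coeff_le hεpos hC hbm hf hψ hψh hv hk2 i (c := c) (by omega)
  have hcoef' := fun i (c : Fin (k + 1)) =>
    coeff_le hεpos hC hbm hf' hψ' hψh' hv' hk2 i (c := c) (by omega)
  -- gain on the window
  have hgain : ∀ i ∈ W, f' (S.lam k i / k) - f (S.lam k i / k) ≤ -β + K * δ := by
    intro i hi
    rw [hW, Finset.mem_filter] at hi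
    obtain ⟨-, hi1, hi2⟩ := hi
    have h1 := hf hi2.le
    have h2 := slope_bound hf' hconv' hac₁ (x := S.lam k i / k) (y := l) (by linarith) hi2.le hlb
    have h3 : (f' a - f' c₁) / (c₁ - a) * (l - S.lam k i / k) ≤ K * δ := by
      apply mul_le_mul (by rw [hK]; linarith) (by linarith) (by linarith) hKpos.le
    linarith
  have hDb := det_bound (coeffMat (S.s k)) (fun i => Real.exp (-(k * f (S.lam k i / k))))
    (fun c => Real.exp (-(k * v ((c : ℕ) / k)))) (fun _ => Real.exp_pos _)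
    (fun _ => Real.exp_pos _)
    (M := (C * Real.exp (2 * ε * k)) ^ (k + 1) *
      Real.exp (-(2 * K * δ * k) * (W.card - T.card))) (fun σ => by
      have hfac : ∀ i, ‖coeffMat (S.s k) i (σ i)‖ ^ 2 * Real.exp (-(k * f (S.lam k i / k))) *
          Real.exp (-(k * v ((σ i : ℕ) / k))) ≤ C * Real.exp (2 * ε * k) *
            (if i ∈ W ∧ σ i ∉ T then Real.exp (-(2 * K * δ * k)) else 1) := by
        intro i
        rw [coeffMat_apply]
        have hb1 := hcoef i (σ i)
        have hb2 := hcoef' i (σ i)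
        have hpos : 0 < C * Real.exp (2 * ε * k) := by positivity
        split_ifs with hi
        · have h1 := hgain i hi.1
          have h2 := hTc (σ i) hi.2
          calc ‖(S.s k i).coeff (σ i)‖ ^ 2 * Real.exp (-(k * f (S.lam k i / k))) *
              Real.exp (-(k * v ((σ i : ℕ) / k))) ≤
              (C * Real.exp (2 * ε * k) *
                Real.exp (k * (f' (S.lam k i / k) + v' ((σ i : ℕ) / k)))) *
              Real.exp (-(k * f (S.lam k i / k))) * Real.exp (-(k * v ((σ i : ℕ) / k))) := by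
                gcongr
            _ = C * Real.exp (2 * ε * k) * (Real.exp (k * (f' (S.lam k i / k) +
                v' ((σ i : ℕ) / k))) * Real.exp (-(k * f (S.lam k i / k))) *
                Real.exp (-(k * v ((σ i : ℕ) / k)))) := by ring
            _ ≤ C * Real.exp (2 * ε * k) * Real.exp (-(2 * K * δ * k)) := by
                apply mul_le_mul_of_nonneg_left _ hpos.le
                rw [← Real.exp_add, ← Real.exp_add, Real.exp_le_exp]
                have h3 : (f' (S.lam k i / k) - f (S.lam k i / k)) +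
                    (v' ((σ i : ℕ) / k) - v ((σ i : ℕ) / k)) ≤ -(2 * K * δ) := by linarith
                have h4 := mul_le_mul_of_nonneg_left h3 hk'.le
                linarith
        · calc ‖(S.s k i).coeff (σ i)‖ ^ 2 * Real.exp (-(k * f (S.lam k i / k))) *
              Real.exp (-(k * v ((σ i : ℕ) / k))) ≤
              (C * Real.exp (2 * ε * k) *
                Real.exp (k * (f (S.lam k i / k) + v ((σ i : ℕ) / k)))) *
              Real.exp (-(k * f (S.lam k i / k))) * Real.exp (-(k * v ((σ i : ℕ) / k))) := by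
                gcongr
            _ = C * Real.exp (2 * ε * k) * (Real.exp (k * (f (S.lam k i / k) +
                v ((σ i : ℕ) / k))) * Real.exp (-(k * f (S.lam k i / k))) *
                Real.exp (-(k * v ((σ i : ℕ) / k)))) := by ring
            _ = C * Real.exp (2 * ε * k) * 1 := by
                rw [← Real.exp_add, ← Real.exp_add]
                congr 1
                rw [Real.exp_eq_one_iff]
                ring
      refine (Finset.prod_le_prod (fun i _ => by positivity) fun i _ => hfac i).trans ?_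
      rw [Finset.prod_mul_distrib, Finset.prod_const, Finset.card_univ, Fintype.card_fin]
      apply mul_le_mul_of_nonneg_left _ (by positivity)
      rw [← Finset.prod_filter, Finset.prod_const, ← Real.exp_nat_mul, Real.exp_le_exp]
      have hcard : (W.card : ℝ) - T.card ≤
          ((Finset.univ.filter fun i => i ∈ W ∧ σ i ∉ T).card : ℝ) := by
        have h1 : W.card ≤ (Finset.univ.filter fun i => i ∈ W ∧ σ i ∉ T).card + T.card := by
          have h2 : W ⊆ (Finset.univ.filter fun i => i ∈ W ∧ σ i ∉ T) ∪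
              T.map σ.symm.toEmbedding := by
            intro i hi
            by_cases h3 : σ i ∈ T
            · apply Finset.mem_union_right
              rw [Finset.mem_map]
              exact ⟨σ i, h3, by simp⟩
            · apply Finset.mem_union_left
              simp [hi, h3]
          refine (Finset.card_le_card h2).trans ((Finset.card_union_le _ _).trans ?_)
          rw [Finset.card_map]
        have h2 : (W.card : ℝ) ≤ ((Finset.univ.filter fun i => i ∈ W ∧ σ i ∉ T).card : ℝ) +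
            T.card := by exact_mod_cast h1
        linarith
      have h5 : 0 ≤ 2 * K * δ * k := by positivity
      have h6 := mul_le_mul_of_nonneg_left hcard h5
      linarith)
  -- conclude
  have hν : Real.exp (-(k * (e * k + C₁))) ≤ ∏ c : Fin (k + 1), Real.exp (-(k * v ((c : ℕ) / k))) := by
    rw [← Real.exp_sum, Real.exp_le_exp, Finset.sum_neg_distrib, ← Finset.mul_sum]
    have := mul_le_mul_of_nonneg_left (hsum k hk2) hk'.le
    linarith
  set D := ‖(coeffMat (S.s k)).det‖ ^ 2 * ∏ i, Real.exp (-(k * f (S.lam k i / k))) with hD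
  have hDnn : 0 ≤ D := by
    rw [hD]
    exact mul_nonneg (by positivity) (Finset.prod_nonneg fun _ _ => (Real.exp_pos _).le)
  have h1 : D * Real.exp (-(k * (e * k + C₁))) ≤ ((k + 1).factorial : ℝ) ^ 2 *
      ((C * Real.exp (2 * ε * k)) ^ (k + 1) *
      Real.exp (-(2 * K * δ * k) * (W.card - T.card))) := by
    refine le_trans ?_ hDb
    exact mul_le_mul_of_nonneg_left hν hDnn
  have hfacpos : (0 : ℝ) < (k + 1).factorial := by exact_mod_cast Nat.factorial_pos _
  have h2 : ((k + 1).factorial : ℝ) ^ 2 * ((C * Real.exp (2 * ε * k)) ^ (k + 1) *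
      Real.exp (-(2 * K * δ * k) * (W.card - T.card))) ≤
      Real.exp (2 * Real.log ((k + 1).factorial) + |Real.log C| * (k + 1) + 2 * ε * k * (k + 1)
        - 2 * K * δ * k * (c₂ * δ * k / 2 - 1)) := by
    rw [← Real.log_le_iff_le_exp (by positivity), Real.log_mul (by positivity) (by positivity),
      Real.log_mul (by positivity) (by positivity), Real.log_pow, Real.log_pow,
      Real.log_mul (by positivity) (by positivity), Real.log_exp, Real.log_exp]
    have h3 : Real.log C * (k + 1) ≤ |Real.log C| * (k + 1) :=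
      mul_le_mul_of_nonneg_right (le_abs_self _) (by positivity)
    have h4 : c₂ * δ * k / 2 - 1 ≤ W.card - T.card := by
      have h5 : c₂ / (6 * K) * (3 * K * δ) * k = c₂ * δ * k / 2 := by
        field_simp; ring
      rw [h5] at hT
      linarith
    have h5 := mul_le_mul_of_nonneg_left h4 (show 0 ≤ 2 * K * δ * k by positivity)
    push_cast
    linarith
  have h3 := h1.trans h2
  have h4 : D ≤ Real.exp (2 * Real.log ((k + 1).factorial) + |Real.log C| * (k + 1) +
      2 * ε * k * (k + 1) - 2 * K * δ * k * (c₂ * δ * k / 2 - 1)) * Real.exp (k * (e * k + C₁)) := by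
    rw [Real.exp_neg, ← div_eq_mul_inv, div_le_iff₀ (Real.exp_pos _)] at h3
    exact h3
  refine h4.trans ?_
  rw [← Real.exp_add, Real.exp_le_exp]
  have e1 : 2 * K * δ * k * (c₂ * δ * k / 2 - 1) = 8 * ε * k ^ 2 - 2 * K * δ * k := by
    rw [hε]; ring
  rw [e1]
  have h5 : 0 ≤ ε * (k : ℝ) ^ 2 := by positivity
  have h6 : 0 ≤ K * δ := by positivity
  have h7 : (C₁ + ε * 2 + |Real.log C| + 2 * K * δ) * (k + 1) =
    C₁ * k + C₁ + 2 * ε * k + 2 * ε + |Real.log C| * (k + 1) + 2 * K * δ * k + 2 * K * δ := by ring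
  rw [h7] at hk3
  nlinarith

end Sys

end Pool.Agent.Lib.MP_ab0522
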