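import Mathlib
import Pool.Agent.Lib.MP_ab0522.Upper

/-!
# The abstract contradiction
-/

namespace Pool.Agent.Lib.MP_ab0522

open Polynomial MeasureTheory Filter Topology

/-- The analytic data of one weight `h` (with conjugate `v`) relative to another conjugate `v'`. -/
structure Data (h : ℂ → ℝ) (v v' : ℝ → ℝ) (e β : ℝ) : Prop where
  cont : Continuous h
  growth : ∃ A : ℝ, ∀ z : ℂ, 1 + ‖z‖ ^ 2 ≤ Real.exp A * Real.exp (h z)
  energy : HasEnergy h (2 * e)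
  leg : Leg h v
  sum : ∃ C₁ : ℝ, 0 ≤ C₁ ∧ ∀ k : ℕ, 1 ≤ k → ∑ c : Fin (k + 1), v ((c : ℕ) / k) ≤ e * k + C₁
  bad : ∀ ε₀ : ℝ, 0 < ε₀ → ∃ δ₁ : ℝ, 0 < δ₁ ∧ ∀ δ : ℝ, 0 < δ → δ < δ₁ → ∀ k : ℕ, 1 ≤ k →
      ∃ T : Finset (Fin (k + 1)), (T.card : ℝ) ≤ ε₀ * δ * k + 1 ∧
        ∀ c ∉ T, v' ((c : ℕ) / k) - v ((c : ℕ) / k) ≤ β - δ

lemma le_of_usc {ψ h : ℂ → ℝ} (hu : IsUscRegularisation ψ h) (z : ℂ) : ψ z ≤ h z := by
  refine le_of_forall_pos_le_add fun ε hε => ?_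
  exact ((hu z ε hε).1.self_of_nhds).le

/-- a convex nonincreasing function on `[a, b]` is continuous on `[c, b]` for `c > a` -/
lemma continuousOn_of_convex {f : ℝ → ℝ} (hf : Antitone f) {a b c : ℝ} (hac : a < c)
    (hc : ConvexOn ℝ (Set.Icc a b) f) : ContinuousOn f (Set.Icc c b) := by
  set K := (f a - f c) / (c - a) with hK
  have hK0 : 0 ≤ K := div_nonneg (by linarith [hf hac.le]) (by linarith)
  have hlip : LipschitzOnWith (Real.toNNReal K) f (Set.Icc c b) := by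
    refine LipschitzOnWith.of_dist_le_mul fun x hx y hy => ?_
    rw [Real.coe_toNNReal _ hK0, Real.dist_eq, Real.dist_eq]
    rcases le_total x y with h | h
    · have h1 := slope_bound hf hc hac hx.1 h hy.2
      have h2 := hf h
      rw [abs_of_nonneg (by linarith), abs_of_nonpos (by linarith)]
      linarith
    · have h1 := slope_bound hf hc hac hy.1 h hx.2
      have h2 := hf h
      rw [abs_of_nonpos (by linarith), abs_of_nonneg (by linarith)]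
      linarith
  exact hlip.continuousOn

lemma exists_sup_lt {f f' : ℝ → ℝ} (hf : Antitone f) (hf' : Antitone f') {a b : ℝ}
    (hab : a < b) (hc : ConvexOn ℝ (Set.Icc a b) f) (hc' : ConvexOn ℝ (Set.Icc a b) f')
    {β₀ : ℝ} (hlt : ∀ x, a < x → x ≤ b → f x - f' x < β₀)
    (hL : sSup (f '' Set.Ioi a) - sSup (f' '' Set.Ioi a) < β₀) :
    ∃ β < β₀, ∀ x, a < x → x ≤ b → f x - f' x ≤ β := by
  set L := sSup (f '' Set.Ioi a) - sSup (f' '' Set.Ioi a) with hLdef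
  have h1 : Tendsto (fun x => f x - f' x) (𝓝[>] a) (𝓝 L) :=
    (hf.tendsto_nhdsGT a).sub (hf'.tendsto_nhdsGT a)
  have h2 : ∀ᶠ x in 𝓝[>] a, f x - f' x < (L + β₀) / 2 := h1.eventually (gt_mem_nhds (by linarith))
  rw [eventually_nhdsWithin_iff, Metric.eventually_nhds_iff] at h2
  obtain ⟨δ, hδ, hδx⟩ := h2
  set c := min (a + δ / 2) b with hcdef
  have hac : a < c := by rw [hcdef, lt_min_iff]; constructor <;> linarith
  have hcb : c ≤ b := min_le_right _ _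
  have hcδ : c ≤ a + δ / 2 := min_le_left _ _
  have hcont : ContinuousOn (fun x => f x - f' x) (Set.Icc c b) :=
    (continuousOn_of_convex hf hac hc).sub (continuousOn_of_convex hf' hac hc')
  obtain ⟨x₀, hx₀, hmax⟩ := isCompact_Icc.exists_isMaxOn ⟨c, le_rfl, hcb⟩ hcont
  refine ⟨max ((L + β₀) / 2) (f x₀ - f' x₀), max_lt (by linarith)
    (hlt x₀ (by linarith [hx₀.1]) hx₀.2), fun x hx hxb => ?_⟩
  rcases le_total x c with h | h
  · refine le_trans (le_of_lt (hδx ?_ hx)) (le_max_left _ _)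
    rw [Real.dist_eq, abs_of_pos (by linarith)]
    linarith
  · exact le_trans (hmax ⟨h, hxb⟩) (le_max_right _ _)

namespace Sys

variable (S : Sys)

lemma contradiction_of_point {σ : Measure ℝ} [IsProbabilityMeasure σ] (hσ : WeakLim S.lam σ)
    {a b : ℝ} (ha : IsLeast σ.support a) (hb : IsGreatest σ.support b) (hab : a < b)
    {f f' : ℝ → ℝ} (hf : Antitone f) (hf' : Antitone f') (hc : ConvexOn ℝ (Set.Icc a b) f)
    (hc' : ConvexOn ℝ (Set.Icc a b) f') {ψ ψ' h h' : ℂ → ℝ} (hψ : S.Conv f ψ)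
    (hψ' : S.Conv f' ψ') (hu : IsUscRegularisation ψ h) (hu' : IsUscRegularisation ψ' h')
    {v v' : ℝ → ℝ} {e β : ℝ} (hd : Data h v v' e β) (hv' : Leg h' v')
    {l : ℝ} (hal : a < l) (hlb : l ≤ b) (hG : β ≤ f l - f' l) : False := by
  have hle : ∀ k i, 1 ≤ k → S.lam k i / k ≤ b := fun k i hk => S.lam_le hσ ha hb hk i
  have hlow : ∀ κ : ℝ, 0 < κ → ∃ c, a < c ∧ c < b ∧
      ∀ᶠ k : ℕ in atTop, (cnt S.lam k (Set.Iio c) : ℝ) ≤ κ * k := by
    intro κ hκ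
    obtain ⟨c, h1, h2, -, h3⟩ := S.exists_low hσ ha hb hab hκ hab
    exact ⟨c, h1, h2, h3⟩
  obtain ⟨C₁, hC₁, hsum⟩ := hd.sum
  obtain ⟨γ, hγ, hup⟩ := volume_upper (S := S) hf hf' hc' hψ hψ' (le_of_usc hu) (le_of_usc hu')
    hd.leg hv' hC₁ hsum hd.bad hal hlb (S.exists_window hσ ha hb hal hlb) hG
  obtain ⟨A, hA⟩ := hd.growth
  have hlo := volume_lower (S := S) hf hab hc hlow hle hψ hu hd.cont hA hd.energy
    (show 0 < γ / 2 by positivity)
  obtain ⟨N, h1, h2, h3⟩ := (hlo.and_eventually (hup.and (eventually_ge_atTop 1))).exists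
  have h4 := h1.trans h2
  rw [Real.exp_le_exp] at h4
  have h5 : (1 : ℝ) ≤ N := by exact_mod_cast h3
  have h6 : (1 : ℝ) ≤ (N : ℝ) ^ 2 := one_le_pow₀ h5
  nlinarith

/-- the comparison lemma for a pair, in the case of a non trivial support -/
lemma le_of_le {β₀ : ℝ} {σ : Measure ℝ} [IsProbabilityMeasure σ] (hσ : WeakLim S.lam σ)
    {a b : ℝ} (ha : IsLeast σ.support a) (hb : IsGreatest σ.support b) (hab : a < b)
    {f f' : ℝ → ℝ} (hf : Antitone f) (hf' : Antitone f') {ψ ψ' h h' : ℂ → ℝ} (hψ : S.Conv f ψ)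
    (hψ' : S.Conv f' ψ') (hu : IsUscRegularisation ψ h) (hu' : IsUscRegularisation ψ' h')
    (hh : Continuous h)
    (hlim : ∀ β : ℝ, (∀ z, h' z ≤ h z + β) → β₀ ≤ β) {β : ℝ}
    (hβ : ∀ x, a < x → x ≤ b → f x - f' x ≤ β) : β₀ ≤ β := by
  have hcomp := S.comparison hf hf' hψ hψ' hh (le_of_usc hu) (β := β) (fun κ hκ => by
    obtain ⟨c, h1, h2, -, h3⟩ := S.exists_low hσ ha hb hab hκ hab
    refine ⟨c, h3, fun k i hk hi => ?_, hβ c h1 h2.le⟩
    exact hβ _ (by linarith) (S.lam_le hσ ha hb hk i))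
  refine le_of_forall_pos_le_add fun ε hε => hlim _ fun z => ?_
  -- `h'` is a limsup of `ψ'`
  have h1 : ∀ᶠ w in 𝓝 z, h w < h z + ε / 2 := hh.continuousAt.eventually (gt_mem_nhds (by linarith))
  obtain ⟨w, hw1, hw2⟩ := ((hu' z (ε / 2) (by positivity)).2.and_eventually h1).exists
  have := hcomp w
  linarith

theorem false_of_data {σ : Measure ℝ} [IsProbabilityMeasure σ] (hσ : WeakLim S.lam σ)
    {f₀ f₁ : ℝ → ℝ} (hf₀ : IsInC σ f₀) (hf₁ : IsInC σ f₁) {ψ₀ ψ₁ h₀ h₁ : ℂ → ℝ}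
    (hψ₀ : S.Conv f₀ ψ₀) (hψ₁ : S.Conv f₁ ψ₁) (hu₀ : IsUscRegularisation ψ₀ h₀)
    (hu₁ : IsUscRegularisation ψ₁ h₁) {v₀ v₁ : ℝ → ℝ} {e β₀ : ℝ} (hβ₀ : 0 < β₀)
    (hd₀ : Data h₀ v₀ v₁ e β₀) (hd₁ : Data h₁ v₁ v₀ e β₀)
    (hlim : ∀ β : ℝ, (∀ z, h₁ z ≤ h₀ z + β) → β₀ ≤ β)
    (hlim' : ∀ β : ℝ, (∀ z, h₀ z ≤ h₁ z + β) → β₀ ≤ β) : False := by
  obtain ⟨⟨a, ha⟩, ⟨b, hb⟩⟩ := S.support_compact hσ
  have hIcc : Set.Icc a b ⊆ σ.support := hf₀.convex.1.ordConnected.out ha.1 hb.1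
  have hc₀ : ConvexOn ℝ (Set.Icc a b) f₀ := hf₀.convex.subset hIcc (convex_Icc _ _)
  have hc₁ : ConvexOn ℝ (Set.Icc a b) f₁ := hf₁.convex.subset hIcc (convex_Icc _ _)
  have hab : a ≤ b := ha.2 hb.1
  rcases hab.lt_or_eq with hab | rfl
  · by_cases hp₀ : ∃ l, a < l ∧ l ≤ b ∧ β₀ ≤ f₀ l - f₁ l
    · obtain ⟨l, h1, h2, h3⟩ := hp₀
      exact S.contradiction_of_point hσ ha hb hab hf₀.antitone hf₁.antitone hc₀ hc₁ hψ₀ hψ₁ hu₀ hu₁
        hd₀ hd₁.leg h1 h2 h3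
    by_cases hp₁ : ∃ l, a < l ∧ l ≤ b ∧ β₀ ≤ f₁ l - f₀ l
    · obtain ⟨l, h1, h2, h3⟩ := hp₁
      exact S.contradiction_of_point hσ ha hb hab hf₁.antitone hf₀.antitone hc₁ hc₀ hψ₁ hψ₀ hu₁ hu₀
        hd₁ hd₀.leg h1 h2 h3
    push Not at hp₀ hp₁
    by_cases hL : sSup (f₀ '' Set.Ioi a) - sSup (f₁ '' Set.Ioi a) < β₀
    · obtain ⟨β, hβ, hβx⟩ := exists_sup_lt hf₀.antitone hf₁.antitone hab hc₀ hc₁ hp₀ hL
      have := S.le_of_le hσ ha hb hab hf₀.antitone hf₁.antitone hψ₀ hψ₁ hu₀ hu₁ hd₀.cont hlim hβx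
      linarith
    · have hL' : sSup (f₁ '' Set.Ioi a) - sSup (f₀ '' Set.Ioi a) < β₀ := by
        push Not at hL
        linarith
      obtain ⟨β, hβ, hβx⟩ := exists_sup_lt hf₁.antitone hf₀.antitone hab hc₁ hc₀ hp₁ hL'
      have := S.le_of_le hσ ha hb hab hf₁.antitone hf₀.antitone hψ₁ hψ₀ hu₁ hu₀ hd₁.cont hlim'
        hβx
      linarith
  · -- one point support
    have key : ∀ {f f' : ℝ → ℝ}, IsInC σ f → IsInC σ f' → ∀ {ψ ψ' h h' : ℂ → ℝ}, S.Conv f ψ →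
        S.Conv f' ψ' → IsUscRegularisation ψ h → IsUscRegularisation ψ' h' → Continuous h →
        (∀ β : ℝ, (∀ z, h' z ≤ h z + β) → β₀ ≤ β) → β₀ ≤ f a - f' a + β₀ / 4 + β₀ / 4 := by
      intro f f' hf hf' ψ ψ' h h' hψ hψ' hu hu' hh hlim
      have hcw : ContinuousWithinAt (fun x => f x - f' x) (Set.Iic a) a :=
        (hf.left_continuous a ha).sub (hf'.left_continuous a ha)
      have h2 : ∀ᶠ x in 𝓝[≤] a, f x - f' x < f a - f' a + β₀ / 4 :=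
        hcw.eventually (gt_mem_nhds (by linarith))
      rw [eventually_nhdsWithin_iff, Metric.eventually_nhds_iff] at h2
      obtain ⟨δ, hδ, hδx⟩ := h2
      have hcomp := S.comparison hf.antitone hf'.antitone hψ hψ' hh (le_of_usc hu)
        (β := f a - f' a + β₀ / 4) (fun κ hκ => by
          refine ⟨a - δ / 2, S.low_of_eq hσ ha (by linarith) hκ, fun k i hk hi => ?_, ?_⟩
          · have h3 := S.lam_le hσ ha hb hk i
            refine (hδx ?_ h3).le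
            rw [Real.dist_eq, abs_of_nonpos (by linarith)]
            linarith
          · refine (hδx ?_ (by simp only [Set.mem_Iic]; linarith)).le
            rw [Real.dist_eq, abs_of_nonpos (by linarith)]
            linarith)
      refine hlim _ fun z => ?_
      have h1 : ∀ᶠ w in 𝓝 z, h w < h z + β₀ / 8 :=
        hh.continuousAt.eventually (gt_mem_nhds (by linarith))
      obtain ⟨w, hw1, hw2⟩ := ((hu' z (β₀ / 8) (by positivity)).2.and_eventually h1).exists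
      have := hcomp w
      linarith
    have k1 := key hf₀ hf₁ hψ₀ hψ₁ hu₀ hu₁ hd₀.cont hlim
    have k2 := key hf₁ hf₀ hψ₁ hψ₀ hu₁ hu₀ hd₁.cont hlim'
    linarith

end Sys

end Pool.Agent.Lib.MP_ab0522
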