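import Mathlib
import Pool.Agent.Lib.MP_ab0522.Abstract

/-!
# Radial weights given by a concave function on `[0, 1]`
-/

namespace Pool.Agent.Lib.MP_ab0522

open Polynomial MeasureTheory Filter Topology Metric

/-- `h` is the radial weight with conjugate `v`: it dominates the functions
`x log |z|² + v x`. -/
structure Dominates (h : ℂ → ℝ) (v : ℝ → ℝ) : Prop where
  lower : ∀ z : ℂ, z ≠ 0 → ∀ x : ℝ, 0 ≤ x → x ≤ 1 → x * Real.log (‖z‖ ^ 2) + v x ≤ h z
  zero : v 0 ≤ h 0

/-- trapezoidal sums -/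
noncomputable def trap (v : ℝ → ℝ) (p : ℕ) : ℝ :=
  (∑ i ∈ Finset.range p, (v ((i : ℝ) / p) + v (((i : ℝ) + 1) / p))) / (2 * p)

/-- logarithmic radii -/
noncomputable def yv (v : ℝ → ℝ) (p i : ℕ) : ℝ := p * (v ((i : ℝ) / p) - v (((i : ℝ) + 1) / p))

/-- the `M`-th roots of `R ^ M` -/
lemma exists_roots {M : ℕ} (hM : 1 ≤ M) {R : ℝ} (hR : 0 < R) :
    ∃ w : Fin M → ℂ, (∀ l, ‖w l‖ = R) ∧ ∀ q : ℂ, ∏ l, (q - w l) = q ^ M - (R : ℂ) ^ M := by
  have hζ := Complex.isPrimitiveRoot_exp M (by omega)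
  set ζ := Complex.exp (2 * Real.pi * Complex.I / M) with hζ'
  have hprod := X_pow_sub_C_eq_prod hζ (α := (R : ℂ)) (a := (R : ℂ) ^ M) hM rfl
  refine ⟨fun l => ζ ^ (l : ℕ) * R, fun l => ?_, fun q => ?_⟩
  · rw [norm_mul, norm_pow, hζ.norm'_eq_one (by omega), one_pow, one_mul, Complex.norm_real,
      Real.norm_of_nonneg hR.le]
  · have := congrArg (eval q) hprod
    rw [eval_prod, Finset.prod_range] at this
    simpa using this.symm

lemma yv_mono {v : ℝ → ℝ} (hv : ConcaveOn ℝ (Set.Icc 0 1) v) {p : ℕ} {i j : ℕ}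
    (hij : i ≤ j) (hj : j < p) : yv v p i ≤ yv v p j := by
  induction j, hij using Nat.le_induction with
  | base => exact le_rfl
  | succ j hij ih =>
    refine (ih (by omega)).trans ?_
    have hp' : (0 : ℝ) < p := by exact_mod_cast (by omega : 0 < p)
    have hj2 : ((j : ℝ) + 1) + 1 ≤ p := by exact_mod_cast hj
    have hm1 : (j : ℝ) / p ∈ Set.Icc (0 : ℝ) 1 :=
      ⟨by positivity, by rw [div_le_one hp']; linarith⟩
    have hm2 : (((j : ℝ) + 1) + 1) / p ∈ Set.Icc (0 : ℝ) 1 :=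
      ⟨by positivity, by rw [div_le_one hp']; exact hj2⟩
    have h1 := hv.2 hm1 hm2 (show (0 : ℝ) ≤ 1 / 2 by norm_num) (show (0 : ℝ) ≤ 1 / 2 by norm_num)
      (by norm_num)
    simp only [smul_eq_mul] at h1
    have e : 1 / 2 * ((j : ℝ) / p) + 1 / 2 * ((((j : ℝ) + 1) + 1) / p) = ((j : ℝ) + 1) / p := by
      field_simp; ring
    rw [e] at h1
    unfold yv
    push_cast
    apply mul_le_mul_of_nonneg_left _ hp'.le
    linarith

lemma sum_ite_yv (v : ℝ → ℝ) {p : ℕ} (y : ℝ) (m q : ℕ) :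
    ∑ i ∈ Finset.range q, (if i < m then y else yv v p i) =
      (min q m : ℕ) * y + p * (v (((min q m : ℕ) : ℝ) / p) - v ((q : ℝ) / p)) := by
  induction q with
  | zero => simp
  | succ q ih =>
    rw [Finset.sum_range_succ, ih]
    by_cases h : q < m
    · rw [if_pos h, min_eq_left h.le, min_eq_left (by omega : q + 1 ≤ m)]
      push_cast
      ring
    · rw [if_neg h, min_eq_right (by omega : m ≤ q), min_eq_right (by omega : m ≤ q + 1)]
      unfold yv
      push_cast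
      ring

/-- the key inequality for the discretised equilibrium measure -/
lemma sum_max_yv {h : ℂ → ℝ} {v : ℝ → ℝ} (hd : Dominates h v)
    (hv : ConcaveOn ℝ (Set.Icc 0 1) v) {p : ℕ} (hp : 1 ≤ p) {q : ℂ} (hq : q ≠ 0) :
    ∑ i ∈ Finset.range p, max (Real.log (‖q‖ ^ 2)) (yv v p i) ≤ p * (h q - v 1) := by
  classical
  have hp' : (0 : ℝ) < p := by exact_mod_cast hp
  set y := Real.log (‖q‖ ^ 2) with hy
  have hex : ∃ m : ℕ, p ≤ m ∨ y ≤ yv v p m := ⟨p, Or.inl le_rfl⟩
  set m := Nat.find hex with hm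
  have hmp : m ≤ p := Nat.find_min' hex (Or.inl le_rfl)
  have hlow : ∀ i < m, yv v p i < y := by
    intro i hi
    have := Nat.find_min hex hi
    push Not at this
    exact this.2
  have hhigh : ∀ i, m ≤ i → i < p → y ≤ yv v p i := by
    intro i hmi hip
    rcases Nat.find_spec hex with h1 | h1
    · exact absurd h1 (by omega)
    · exact h1.trans (yv_mono hv hmi hip)
  have h1 : ∑ i ∈ Finset.range p, max y (yv v p i) =
      ∑ i ∈ Finset.range p, (if i < m then y else yv v p i) := by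
    refine Finset.sum_congr rfl fun i hi => ?_
    rw [Finset.mem_range] at hi
    by_cases h : i < m
    · rw [if_pos h, max_eq_left (hlow i h).le]
    · rw [if_neg h, max_eq_right (hhigh i (by omega) hi)]
  rw [h1, sum_ite_yv v, min_eq_right hmp, div_self hp'.ne']
  have hmp' : (m : ℝ) ≤ p := by exact_mod_cast hmp
  have h2 := hd.lower q hq ((m : ℝ) / p) (by positivity) (by rw [div_le_one hp']; exact hmp')
  rw [← hy] at h2
  have h3 := mul_le_mul_of_nonneg_left h2 hp'.le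
  have e : (p : ℝ) * ((m : ℝ) / p * y + v ((m : ℝ) / p)) = m * y + p * v ((m : ℝ) / p) := by
    field_simp
  rw [e] at h3
  linarith

/-- one circle -/
lemma circle_factor {M : ℕ} {R : ℝ} (hR : 0 < R) {q : ℂ} {b : ℝ} (h1 : ‖q‖ ^ 2 ≤ Real.exp b)
    (h2 : R ^ 2 ≤ Real.exp b) : ‖q ^ M - (R : ℂ) ^ M‖ ^ 2 ≤ 4 * Real.exp (M * b) := by
  have h3 : ‖q ^ M - (R : ℂ) ^ M‖ ≤ ‖q‖ ^ M + R ^ M := by
    refine (norm_sub_le _ _).trans ?_
    rw [norm_pow, norm_pow, Complex.norm_real, Real.norm_of_nonneg hR.le]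
  set B := Real.exp b with hB
  have h4 : (‖q‖ ^ M) ^ 2 ≤ B ^ M := by
    rw [← pow_mul, mul_comm, pow_mul]; gcongr
  have h5 : (R ^ M) ^ 2 ≤ B ^ M := by
    rw [← pow_mul, mul_comm, pow_mul]; gcongr
  have h6 : B ^ M = Real.exp (M * b) := by rw [hB, ← Real.exp_nat_mul]
  rw [← h6]
  calc ‖q ^ M - (R : ℂ) ^ M‖ ^ 2 ≤ (‖q‖ ^ M + R ^ M) ^ 2 := by gcongr
    _ ≤ 4 * B ^ M := by nlinarith [sq_nonneg (‖q‖ ^ M - R ^ M)]

lemma sum_energy (v : ℝ → ℝ) {p : ℕ} (hp : 1 ≤ p) (m : ℕ) :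
    ∑ i ∈ Finset.range m, ((i : ℝ) / p * yv v p i + v ((i : ℝ) / p)) =
      ∑ i ∈ Finset.range m, (v ((i : ℝ) / p) + v (((i : ℝ) + 1) / p)) - m * v ((m : ℝ) / p) := by
  have hp' : (0 : ℝ) < p := by exact_mod_cast hp
  induction m with
  | zero => simp
  | succ m ih =>
    rw [Finset.sum_range_succ, Finset.sum_range_succ, ih]
    have e : (m : ℝ) / p * yv v p m = m * (v ((m : ℝ) / p) - v (((m : ℝ) + 1) / p)) := by
      unfold yv; field_simp
    rw [e]
    push_cast
    ring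

theorem hasEnergy_of_dominates {h : ℂ → ℝ} {v : ℝ → ℝ} (hd : Dominates h v)
    (hv : ConcaveOn ℝ (Set.Icc 0 1) v) {e : ℝ}
    (he : ∀ ε : ℝ, 0 < ε → ∃ p : ℕ, 1 ≤ p ∧ e - ε ≤ trap v p) : HasEnergy h (2 * e) := by
  intro ε hε
  obtain ⟨p, hp1, hp2⟩ := he (ε / 2) (by positivity)
  obtain ⟨M, hM1, hM2⟩ : ∃ M : ℕ, 1 ≤ M ∧ Real.log 4 / ε ≤ M := by
    obtain ⟨M, hM⟩ := exists_nat_ge (max 1 (Real.log 4 / ε))
    exact ⟨M, by exact_mod_cast (le_max_left _ _).trans hM, (le_max_right _ _).trans hM⟩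
  have hp' : (0 : ℝ) < p := by exact_mod_cast hp1
  have hM' : (0 : ℝ) < M := by exact_mod_cast hM1
  choose w hwn hwp using fun i : Fin p => exists_roots hM1 (Real.exp_pos (yv v p i / 2))
  have hR2 : ∀ i : Fin p, Real.exp (yv v p i / 2) ^ 2 = Real.exp (yv v p i) := by
    intro i
    rw [← Real.exp_nat_mul]; congr 1; push_cast; ring
  refine ⟨p * M, Nat.one_le_iff_ne_zero.2 (by positivity),
    fun r => w (finProdFinEquiv.symm r).1 (finProdFinEquiv.symm r).2, v 1, fun q => ?_, ?_⟩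
  · rw [Equiv.prod_comp finProdFinEquiv.symm (fun x : Fin p × Fin M => (q - w x.1 x.2)),
      Fintype.prod_prod_type]
    simp only [hwp]
    rw [norm_prod, ← Finset.prod_pow]
    -- exponents
    obtain ⟨b, hb1, hb2, hb3⟩ : ∃ b : Fin p → ℝ, (∀ i, ‖q‖ ^ 2 ≤ Real.exp (b i)) ∧
        (∀ i : Fin p, yv v p i ≤ b i) ∧ ∑ i, b i ≤ p * (h q - v 1) := by
      by_cases hq : q = 0
      · refine ⟨fun i => yv v p i, fun i => ?_, fun i => le_rfl, ?_⟩
        · rw [hq]
          simp only [norm_zero, ne_eq, OfNat.ofNat_ne_zero, not_false_eq_true, zero_pow]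
          positivity
        · have h1 := sum_ite_yv v (p := p) 0 0 p
          simp only [not_lt_zero, if_false, Nat.min_zero, Nat.cast_zero, zero_mul, zero_div,
            zero_add] at h1
          rw [Finset.sum_range, div_self hp'.ne'] at h1
          rw [h1, hq]
          apply mul_le_mul_of_nonneg_left _ hp'.le
          have := hd.zero
          linarith
      · refine ⟨fun i => max (Real.log (‖q‖ ^ 2)) (yv v p i), fun i => ?_,
          fun i => le_max_right _ _, ?_⟩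
        · have hqpos : 0 < ‖q‖ ^ 2 := by
            have := norm_pos_iff.2 hq
            positivity
          rw [← Real.log_le_iff_le_exp hqpos]
          exact le_max_left _ _
        · have := sum_max_yv hd hv hp1 hq
          rwa [Finset.sum_range] at this
    have hfac : ∀ i : Fin p, ‖q ^ M - ((Real.exp (yv v p i / 2) : ℝ) : ℂ) ^ M‖ ^ 2 ≤
        4 * Real.exp (M * b i) := fun i =>
      circle_factor (Real.exp_pos _) (hb1 i) (by rw [hR2]; exact Real.exp_le_exp.2 (hb2 i))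
    calc Real.exp (((p * M : ℕ) : ℝ) * v 1) *
          ∏ i : Fin p, ‖q ^ M - ((Real.exp (yv v p i / 2) : ℝ) : ℂ) ^ M‖ ^ 2 ≤
        Real.exp (((p * M : ℕ) : ℝ) * v 1) * ∏ i : Fin p, (4 * Real.exp (M * b i)) := by
          apply mul_le_mul_of_nonneg_left _ (Real.exp_pos _).le
          exact Finset.prod_le_prod (fun _ _ => by positivity) fun i _ => hfac i
      _ ≤ Real.exp (((p * M : ℕ) : ℝ) * (h q + ε)) := by
          rw [Finset.prod_mul_distrib, Finset.prod_const, Finset.card_univ, Fintype.card_fin,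
            ← Real.exp_sum, ← Finset.mul_sum]
          have h4 : (4 : ℝ) ^ p = Real.exp (p * Real.log 4) := by
            rw [Real.exp_nat_mul, Real.exp_log (by norm_num)]
          rw [h4, ← Real.exp_add, ← Real.exp_add, Real.exp_le_exp]
          have h8 := mul_le_mul_of_nonneg_left hb3 hM'.le
          have h9 : Real.log 4 ≤ M * ε := by
            rw [div_le_iff₀ hε] at hM2; exact hM2
          have h10 := mul_le_mul_of_nonneg_left h9 hp'.le
          push_cast
          linarith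
  · rw [Equiv.sum_comp finProdFinEquiv.symm (fun x : Fin p × Fin M => h (w x.1 x.2)),
      Fintype.sum_prod_type]
    have h1 : ∀ i : Fin p, M * (((i : ℕ) : ℝ) / p * yv v p i + v (((i : ℕ) : ℝ) / p)) ≤
        ∑ l, h (w i l) := by
      intro i
      have hi : (((i : ℕ) : ℝ)) ≤ p := by
        have : (i : ℕ) ≤ p := i.2.le
        exact_mod_cast this
      have h2 : ∀ l, ((i : ℕ) : ℝ) / p * yv v p i + v (((i : ℕ) : ℝ) / p) ≤ h (w i l) := by
        intro l
        have hw0 : w i l ≠ 0 := by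
          rw [← norm_pos_iff, hwn]; exact Real.exp_pos _
        have := hd.lower (w i l) hw0 (((i : ℕ) : ℝ) / p) (by positivity)
          (by rw [div_le_one hp']; exact hi)
        rwa [hwn, hR2, Real.log_exp] at this
      calc M * (((i : ℕ) : ℝ) / p * yv v p i + v (((i : ℕ) : ℝ) / p)) =
          ∑ _l : Fin M, (((i : ℕ) : ℝ) / p * yv v p i + v (((i : ℕ) : ℝ) / p)) := by
            rw [Finset.sum_const, Finset.card_univ, Fintype.card_fin, nsmul_eq_mul]
        _ ≤ _ := Finset.sum_le_sum fun l _ => h2 l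
    have h2 : M * ∑ i : Fin p, (((i : ℕ) : ℝ) / p * yv v p i + v (((i : ℕ) : ℝ) / p)) ≤
        ∑ i : Fin p, ∑ l, h (w i l) := by
      rw [Finset.mul_sum]
      exact Finset.sum_le_sum fun i _ => h1 i
    have h3 := sum_energy v hp1 p
    rw [Finset.sum_range, div_self hp'.ne'] at h3
    rw [h3] at h2
    have h4 : 2 * e - ε ≤ (∑ i ∈ Finset.range p, (v ((i : ℝ) / p) + v (((i : ℝ) + 1) / p))) / p := by
      have h5 : trap v p * 2 =
          (∑ i ∈ Finset.range p, (v ((i : ℝ) / p) + v (((i : ℝ) + 1) / p))) / p := by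
        unfold trap; field_simp
      rw [← h5]
      linarith
    rw [le_div_iff₀ hp'] at h4
    have h5 : 2 * e - ε - v 1 ≤ (∑ i : Fin p, ∑ l, h (w i l)) / ((p * M : ℕ) : ℝ) := by
      push_cast
      rw [le_div_iff₀ (by positivity)]
      have := mul_le_mul_of_nonneg_left h4 hM'.le
      linarith
    linarith

lemma sum_trap (a : ℕ → ℝ) (m : ℕ) : ∑ c ∈ Finset.range (m + 1), a c =
    (∑ i ∈ Finset.range m, (a i + a (i + 1))) / 2 + (a 0 + a m) / 2 := by
  induction m with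
  | zero => simp
  | succ m ih =>
    rw [Finset.sum_range_succ, ih, Finset.sum_range_succ]
    ring

lemma sum_le_of_trap {v : ℝ → ℝ} {e : ℝ} (he : ∀ p : ℕ, 1 ≤ p → trap v p ≤ e) :
    ∃ C₁ : ℝ, 0 ≤ C₁ ∧ ∀ k : ℕ, 1 ≤ k → ∑ c : Fin (k + 1), v ((c : ℕ) / k) ≤ e * k + C₁ := by
  refine ⟨|(v 0 + v 1) / 2|, abs_nonneg _, fun k hk => ?_⟩
  have hk' : (0 : ℝ) < k := by exact_mod_cast hk
  have h1 := sum_trap (fun c => v ((c : ℝ) / k)) k
  rw [Finset.sum_range] at h1
  rw [h1]
  simp only [Nat.cast_zero, zero_div, div_self hk'.ne']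
  have h2 := he k hk
  have h3 : (∑ i ∈ Finset.range k, (v ((i : ℝ) / k) + v (((i + 1 : ℕ) : ℝ) / k))) / 2 =
      trap v k * k := by
    unfold trap
    push_cast
    field_simp
  rw [h3]
  have h4 := mul_le_mul_of_nonneg_right h2 hk'.le
  have h5 := le_abs_self ((v 0 + v 1) / 2)
  linarith

lemma trap_reflect (v : ℝ → ℝ) {p : ℕ} (hp : 1 ≤ p) : trap (fun x => v (1 - x)) p = trap v p := by
  have hp' : (0 : ℝ) < p := by exact_mod_cast hp
  unfold trap
  congr 1
  rw [← Finset.sum_range_reflect]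
  refine Finset.sum_congr rfl fun i hi => ?_
  rw [Finset.mem_range] at hi
  have h1 : ((p - 1 - i : ℕ) : ℝ) = p - 1 - i := by
    rw [Nat.cast_sub (by omega), Nat.cast_sub hp]; push_cast; ring
  simp only [h1]
  have e1 : 1 - ((p : ℝ) - 1 - i) / p = ((i : ℝ) + 1) / p := by field_simp; ring
  have e2 : 1 - ((p : ℝ) - 1 - i + 1) / p = (i : ℝ) / p := by field_simp; ring
  rw [e1, e2, add_comm]

end Pool.Agent.Lib.MP_ab0522
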