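import Mathlib
import Pool.Agent.Lib.MP_ab0522.Toric

/-!
# The two explicit real-analytic metrics
-/

namespace Pool.Agent.Lib.MP_ab0522

open Polynomial MeasureTheory Filter Topology Metric
open scoped ContDiff

/-- the weight `h₀(z) = log ((1 + r) / 2) + 1 / (1 + r) - 1 / 2`, `r = √(1 + 4 |z|⁴)` -/
noncomputable def h0 (z : ℂ) : ℝ :=
  Real.log ((1 + Real.sqrt (1 + 4 * (‖z‖ ^ 2) ^ 2)) / 2) +
    1 / (1 + Real.sqrt (1 + 4 * (‖z‖ ^ 2) ^ 2)) - 1 / 2

/-- the weight `h₁(z) = log ((|z|² + ρ) / 2) + |z|² / (|z|² + ρ) - 1 / 2`, `ρ = √(4 + |z|⁴)` -/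
noncomputable def h1 (z : ℂ) : ℝ :=
  Real.log ((‖z‖ ^ 2 + Real.sqrt (4 + (‖z‖ ^ 2) ^ 2)) / 2) +
    ‖z‖ ^ 2 / (‖z‖ ^ 2 + Real.sqrt (4 + (‖z‖ ^ 2) ^ 2)) - 1 / 2

lemma h0_contDiff : ContDiff ℝ ω h0 := by
  have hT : ContDiff ℝ ω fun z : ℂ => ‖z‖ ^ 2 := contDiff_norm_sq ℝ
  have hr : ContDiff ℝ ω fun z : ℂ => Real.sqrt (1 + 4 * (‖z‖ ^ 2) ^ 2) := by
    refine ContDiff.sqrt (contDiff_const.add (contDiff_const.mul (hT.pow 2))) fun z => ?_
    positivity
  unfold h0
  refine ((ContDiff.log ?_ fun z => ?_).add (ContDiff.div contDiff_const ?_ fun z => ?_)).sub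
    contDiff_const
  · exact (contDiff_const.add hr).div_const 2
  · positivity
  · exact contDiff_const.add hr
  · positivity

lemma rho_pos (t : ℝ) : 0 < Real.sqrt (4 + t ^ 2) := Real.sqrt_pos.2 (by positivity)

lemma h1_contDiff : ContDiff ℝ ω h1 := by
  have hT : ContDiff ℝ ω fun z : ℂ => ‖z‖ ^ 2 := contDiff_norm_sq ℝ
  have hr : ContDiff ℝ ω fun z : ℂ => Real.sqrt (4 + (‖z‖ ^ 2) ^ 2) := by
    refine ContDiff.sqrt (contDiff_const.add (hT.pow 2)) fun z => ?_
    positivity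
  have hpos : ∀ z : ℂ, 0 < ‖z‖ ^ 2 + Real.sqrt (4 + (‖z‖ ^ 2) ^ 2) := fun z => by
    have := rho_pos (‖z‖ ^ 2)
    positivity
  unfold h1
  refine ((ContDiff.log ?_ fun z => ?_).add (ContDiff.div hT ?_ fun z => ?_)).sub contDiff_const
  · exact (hT.add hr).div_const 2
  · have := hpos z
    positivity
  · exact hT.add hr
  · exact (hpos z).ne'

lemma h0_continuous : Continuous h0 := h0_contDiff.continuous

lemma h1_continuous : Continuous h1 := h1_contDiff.continuous

lemma h0_zero : h0 0 = 0 := by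
  unfold h0; norm_num

lemma h1_zero : h1 0 = -(1 / 2) := by
  unfold h1
  have : Real.sqrt 4 = 2 := by
    rw [show (4 : ℝ) = 2 ^ 2 by norm_num, Real.sqrt_sq (by norm_num)]
  norm_num [this]

lemma h1_of_ne {z : ℂ} (hz : z ≠ 0) : h1 z = h0 z⁻¹ + Real.log (‖z‖ ^ 2) := by
  have hzpos : 0 < ‖z‖ := norm_pos_iff.2 hz
  unfold h0 h1
  rw [norm_inv, inv_pow]
  set t := ‖z‖ ^ 2 with ht
  have htpos : 0 < t := by positivity
  have hρ := rho_pos t
  set ρ := Real.sqrt (4 + t ^ 2) with hρ'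
  have h1 : Real.sqrt (1 + 4 * t⁻¹ ^ 2) = ρ / t := by
    have : 1 + 4 * t⁻¹ ^ 2 = (4 + t ^ 2) / t ^ 2 := by field_simp; ring
    rw [this, Real.sqrt_div (by positivity), Real.sqrt_sq htpos.le]
  rw [h1]
  have h2 : (1 + ρ / t) / 2 = (t + ρ) / 2 / t := by field_simp
  have h3 : 1 / (1 + ρ / t) = t / (t + ρ) := by field_simp
  rw [h2, h3, Real.log_div (by positivity) htpos.ne']
  ring

lemma h0_of_ne {z : ℂ} (hz : z ≠ 0) : h0 z = h1 z⁻¹ + Real.log (‖z‖ ^ 2) := by
  rw [h1_of_ne (inv_ne_zero hz), inv_inv, norm_inv, inv_pow, Real.log_inv]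
  ring

/-! ### the conjugate functions -/

/-- the conjugate of `h0` -/
noncomputable def v0 (x : ℝ) : ℝ := 1 / 2 * Real.negMulLog x + Real.negMulLog (1 - x) - x / 2

/-- the conjugate of `h1` -/
noncomputable def v1 (x : ℝ) : ℝ := v0 (1 - x)

lemma v0_zero : v0 0 = 0 := by simp [v0]

lemma v0_one : v0 1 = -(1 / 2) := by simp [v0]

lemma nml_le {x ξ : ℝ} (hx : 0 ≤ x) (hξ : 0 < ξ) :
    Real.negMulLog x + x * Real.log ξ ≤ ξ - x := by
  rcases hx.eq_or_lt with h0 | hx
  · rw [← h0]; simp; exact hξ.le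
  · have h1 := Real.log_le_sub_one_of_pos (show 0 < ξ / x by positivity)
    rw [Real.log_div hξ.ne' hx.ne'] at h1
    have h2 := mul_le_mul_of_nonneg_left h1 hx.le
    have h3 : x * (ξ / x - 1) = ξ - x := by field_simp
    rw [h3] at h2
    unfold Real.negMulLog
    linarith

/-- the parametrisation of `h0` by its slope `ξ` -/
lemma exists_slope {t : ℝ} (ht : 0 < t) : ∃ ξ : ℝ, 0 < ξ ∧ ξ < 1 ∧
    Real.log t = 1 / 2 * Real.log ξ - Real.log (1 - ξ) ∧
    Real.log ((1 + Real.sqrt (1 + 4 * t ^ 2)) / 2) + 1 / (1 + Real.sqrt (1 + 4 * t ^ 2)) - 1 / 2 =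
      -Real.log (1 - ξ) - ξ / 2 := by
  have hr2 := Real.sq_sqrt (show 0 ≤ 1 + 4 * t ^ 2 by positivity)
  have hr0 := Real.sqrt_nonneg (1 + 4 * t ^ 2)
  set r := Real.sqrt (1 + 4 * t ^ 2) with hr
  have hr1 : 1 < r := by
    by_contra h
    push Not at h
    have : r ^ 2 ≤ 1 := pow_le_one₀ hr0 h
    have : 0 < t ^ 2 := by positivity
    linarith
  have hrp : 0 < r + 1 := by linarith
  have hrm : 0 < r - 1 := by linarith
  have e1 : 1 - (r - 1) / (r + 1) = 2 / (r + 1) := by field_simp; ring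
  refine ⟨(r - 1) / (r + 1), by positivity, by rw [div_lt_one hrp]; linarith, ?_, ?_⟩
  · rw [e1]
    have h1 : t ^ 2 = (r - 1) / (r + 1) / (2 / (r + 1)) ^ 2 := by
      field_simp
      nlinarith
    have h2 : 2 * Real.log t = Real.log ((r - 1) / (r + 1)) - 2 * Real.log (2 / (r + 1)) := by
      have h3 := congrArg Real.log h1
      rw [Real.log_pow, Real.log_div (by positivity) (by positivity), Real.log_pow] at h3
      push_cast at h3
      exact h3
    linarith
  · rw [e1]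
    have h1 : (1 + r) / 2 = (2 / (r + 1))⁻¹ := by field_simp; ring
    rw [h1, Real.log_inv]
    have h2 : 1 / (1 + r) - 1 / 2 = -((r - 1) / (r + 1) / 2) := by field_simp; ring
    linarith

lemma h0_slope {z : ℂ} (hz : z ≠ 0) : ∃ ξ : ℝ, 0 < ξ ∧ ξ < 1 ∧
    Real.log (‖z‖ ^ 2) = 1 / 2 * Real.log ξ - Real.log (1 - ξ) ∧
    h0 z = -Real.log (1 - ξ) - ξ / 2 := by
  have : 0 < ‖z‖ ^ 2 := by
    have := norm_pos_iff.2 hz
    positivity
  exact exists_slope this

lemma dominates0 : Dominates h0 v0 where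
  lower := by
    intro z hz x hx0 hx1
    obtain ⟨ξ, hξ0, hξ1, hlog, hh⟩ := h0_slope hz
    rw [hlog, hh]
    have h1 := nml_le hx0 hξ0
    have h2 := nml_le (show 0 ≤ 1 - x by linarith) (show 0 < 1 - ξ by linarith)
    unfold v0
    nlinarith
  zero := by rw [v0_zero, h0_zero]

lemma h0_attained {z : ℂ} (hz : z ≠ 0) : ∃ x : ℝ, 0 ≤ x ∧ x ≤ 1 ∧
    h0 z = x * Real.log (‖z‖ ^ 2) + v0 x := by
  obtain ⟨ξ, hξ0, hξ1, hlog, hh⟩ := h0_slope hz
  refine ⟨ξ, hξ0.le, hξ1.le, ?_⟩
  rw [hlog, hh]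
  unfold v0 Real.negMulLog
  ring

lemma dominates1 : Dominates h1 v1 where
  lower := by
    intro z hz x hx0 hx1
    rw [h1_of_ne hz]
    have h2 := dominates0.lower z⁻¹ (inv_ne_zero hz) (1 - x) (by linarith) (by linarith)
    rw [norm_inv, inv_pow, Real.log_inv] at h2
    unfold v1
    linarith
  zero := by
    rw [h1_zero]
    unfold v1
    rw [sub_zero, v0_one]

lemma h1_attained {z : ℂ} (hz : z ≠ 0) : ∃ x : ℝ, 0 ≤ x ∧ x ≤ 1 ∧
    h1 z = x * Real.log (‖z‖ ^ 2) + v1 x := by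
  obtain ⟨x, hx0, hx1, hx⟩ := h0_attained (inv_ne_zero hz)
  refine ⟨1 - x, by linarith, by linarith, ?_⟩
  rw [h1_of_ne hz, hx, norm_inv, inv_pow, Real.log_inv]
  unfold v1
  have : 1 - (1 - x) = x := by ring
  rw [this]
  ring

/-! ### subharmonicity -/

/-- a criterion for subharmonicity -/
lemma subMean_of_affine {h : ℂ → ℝ} (hcont : Continuous h)
    (hh : ∀ z, ∃ x : ℝ, ∃ c : ℝ, 0 ≤ x ∧ (z = 0 → x = 0) ∧ h z = x * Real.log (‖z‖ ^ 2) + c ∧
      ∀ w, w ≠ 0 → x * Real.log (‖w‖ ^ 2) + c ≤ h w) : SubMean h := by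
  intro z r hr
  obtain ⟨x, c, hx, hz0, hz, hw⟩ := hh z
  have hci : CircleIntegrable h z r := hcont.continuousOn.circleIntegrable hr.le
  -- the affine function
  set u : ℂ → ℝ := fun w => (2 * x) • Real.log ‖w - 0‖ + c with hu
  have hint : CircleIntegrable (fun w : ℂ => Real.log ‖w - 0‖) z r :=
    circleIntegrable_log_norm_sub_const r
  have hint2 : CircleIntegrable (fun w : ℂ => (2 * x) • Real.log ‖w - 0‖) z r := hint.const_smul
  have hui : CircleIntegrable u z r := hint2.add (circleIntegrable_const c z r)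
  have havg : Real.circleAverage u z r =
      (2 * x) * (Real.log r + Real.posLog (r⁻¹ * ‖z - 0‖)) + c := by
    rw [hu, Real.circleAverage_fun_add hint2 (circleIntegrable_const c z r),
      Real.circleAverage_fun_smul, Real.circleAverage_const,
      circleAverage_log_norm_sub_const_eq_log_radius_add_posLog hr.ne', smul_eq_mul]
  have h1 : h z ≤ Real.circleAverage u z r := by
    rw [havg, hz]
    have hlog : x = 0 ∨ Real.log (‖z‖ ^ 2) ≤
        2 * (Real.log r + Real.posLog (r⁻¹ * ‖z - 0‖)) := by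
      by_cases hz' : z = 0
      · left; exact hz0 hz'
      · right
        have hzpos : 0 < ‖z‖ := norm_pos_iff.2 hz'
        rw [Real.log_pow, sub_zero, Real.posLog_apply]
        have h2 : Real.log (r⁻¹ * ‖z‖) ≤ max 0 (Real.log (r⁻¹ * ‖z‖)) := le_max_right _ _
        have h3 : Real.log (r⁻¹ * ‖z‖) = -Real.log r + Real.log ‖z‖ := by
          rw [Real.log_mul (by positivity) hzpos.ne', Real.log_inv]
        push_cast
        linarith
    rcases hlog with h | h
    · rw [h]; simp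
    · have := mul_le_mul_of_nonneg_left h hx
      linarith
  refine h1.trans ?_
  classical
  have hcod : {w : ℂ | w ≠ 0} ∈ codiscreteWithin (Metric.sphere z |r|) := by
    apply codiscreteWithin_iff_locallyFiniteComplementWithin.2
    intro w _
    refine ⟨Set.univ, univ_mem, ?_⟩
    apply Set.Subsingleton.finite
    intro w₁ hw₁ w₂ hw₂
    have e1 : w₁ = 0 := by
      by_contra hne
      exact hw₁.2.2 hne
    have e2 : w₂ = 0 := by
      by_contra hne
      exact hw₂.2.2 hne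
    rw [e1, e2]
  have hev : u =ᶠ[codiscreteWithin (Metric.sphere z |r|)] fun w => if w = 0 then h 0 else u w := by
    filter_upwards [hcod] with w hw'
    have hw0 : w ≠ 0 := hw'
    simp [hw0]
  rw [Real.circleAverage_congr_codiscreteWithin hev hr.ne']
  have hi2 : CircleIntegrable (fun w => if w = 0 then h 0 else u w) z r :=
    hui.congr_codiscreteWithin hev
  apply Real.circleAverage_mono hi2 hci
  intro w _
  by_cases hw0 : w = 0
  · simp [hw0]
  · simp only [hw0, if_false, hu]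
    have := hw w hw0
    rw [Real.log_pow] at this
    simp only [sub_zero, smul_eq_mul]
    push_cast at this
    linarith

lemma h0_subMean : SubMean h0 := by
  refine subMean_of_affine h0_continuous fun z => ?_
  by_cases hz : z = 0
  · refine ⟨0, 0, le_rfl, fun _ => rfl, by rw [hz, h0_zero]; simp, fun w hw => ?_⟩
    have := dominates0.lower w hw 0 le_rfl zero_le_one
    rwa [v0_zero] at this
  · obtain ⟨x, hx0, hx1, hx⟩ := h0_attained hz
    exact ⟨x, v0 x, hx0, fun h => absurd h hz, hx, fun w hw => dominates0.lower w hw x hx0 hx1⟩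

lemma h1_subMean : SubMean h1 := by
  refine subMean_of_affine h1_continuous fun z => ?_
  by_cases hz : z = 0
  · refine ⟨0, -(1 / 2), le_rfl, fun _ => rfl, by rw [hz, h1_zero]; simp, fun w hw => ?_⟩
    have := dominates1.lower w hw 0 le_rfl zero_le_one
    unfold v1 at this
    rwa [sub_zero, v0_one] at this
  · obtain ⟨x, hx0, hx1, hx⟩ := h1_attained hz
    exact ⟨x, v1 x, hx0, fun h => absurd h hz, hx, fun w hw => dominates1.lower w hw x hx0 hx1⟩

/-- the first metric -/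
noncomputable def metric0 : PositiveMetric where
  wt := h0
  wtInf := h1
  continuous_wt := h0_continuous
  continuous_wtInf := h1_continuous
  subMean_wt := h0_subMean
  subMean_wtInf := h1_subMean
  compat := fun _ hz => h0_of_ne hz

/-- the second metric -/
noncomputable def metric1 : PositiveMetric where
  wt := h1
  wtInf := h0
  continuous_wt := h1_continuous
  continuous_wtInf := h0_continuous
  subMean_wt := h1_subMean
  subMean_wtInf := h0_subMean
  compat := fun _ hz => h1_of_ne hz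

/-- both metrics are invariant under rotations -/
lemma rotation_invariant (z : ℂ) :
    metric0.wt z = metric0.wt ‖z‖ ∧ metric1.wt z = metric1.wt ‖z‖ := by
  constructor
  · change h0 z = h0 (‖z‖ : ℂ)
    simp [h0]
  · change h1 z = h1 (‖z‖ : ℂ)
    simp [h1]

end Pool.Agent.Lib.MP_ab0522
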