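import Mathlib
import Pool.Agent.Lib.MP_ab0522.Explicit

/-!
# The data of the two explicit metrics
-/

namespace Pool.Agent.Lib.MP_ab0522

open Polynomial MeasureTheory Filter Topology Metric

lemma PositiveMetric.growth (φ : PositiveMetric) :
    ∃ A : ℝ, ∀ z : ℂ, 1 + ‖z‖ ^ 2 ≤ Real.exp A * Real.exp (φ.wt z) := by
  have hcpt : IsCompact (closedBall (0 : ℂ) 1) := isCompact_closedBall _ _
  have hne : (closedBall (0 : ℂ) 1).Nonempty := ⟨0, by simp⟩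
  obtain ⟨z₁, -, hz₁⟩ := hcpt.exists_isMinOn hne φ.continuous_wt.continuousOn
  obtain ⟨z₂, -, hz₂⟩ := hcpt.exists_isMinOn hne φ.continuous_wtInf.continuousOn
  refine ⟨Real.log 2 + max (-φ.wt z₁) (-φ.wtInf z₂), fun z => ?_⟩
  rw [Real.exp_add, Real.exp_log (by norm_num)]
  rcases le_total ‖z‖ 1 with h | h
  · have h1 : φ.wt z₁ ≤ φ.wt z := hz₁ (by simpa using h)
    have h2 : (1 : ℝ) ≤ Real.exp (max (-φ.wt z₁) (-φ.wtInf z₂)) * Real.exp (φ.wt z) := by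
      rw [← Real.exp_add]
      apply Real.one_le_exp
      have := le_max_left (-φ.wt z₁) (-φ.wtInf z₂)
      linarith
    have h3 : ‖z‖ ^ 2 ≤ 1 := pow_le_one₀ (norm_nonneg _) h
    linarith
  · have hz0 : z ≠ 0 := by
      rintro rfl
      simp at h
      linarith
    have hpos : 0 < ‖z‖ ^ 2 := by
      have := norm_pos_iff.2 hz0
      positivity
    have h1 : φ.wtInf z₂ ≤ φ.wtInf z⁻¹ := hz₂ (by
      simp only [mem_closedBall, dist_zero_right, norm_inv]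
      exact inv_le_one_of_one_le₀ h)
    rw [φ.compat z hz0, Real.exp_add, Real.exp_log hpos]
    have h2 : (1 : ℝ) ≤ Real.exp (max (-φ.wt z₁) (-φ.wtInf z₂)) * Real.exp (φ.wtInf z⁻¹) := by
      rw [← Real.exp_add]
      apply Real.one_le_exp
      have := le_max_right (-φ.wt z₁) (-φ.wtInf z₂)
      linarith
    have h3 : 1 ≤ ‖z‖ ^ 2 := one_le_pow₀ h
    have h4 := mul_le_mul_of_nonneg_right h2 hpos.le
    linarith

/-! ### concavity and the constant `e` -/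

lemma v0_concave : ConcaveOn ℝ (Set.Icc 0 1) v0 := by
  refine ⟨convex_Icc _ _, ?_⟩
  intro x hx y hy a b ha hb hab
  have h1 := Real.concaveOn_negMulLog.2 (show x ∈ Set.Ici (0 : ℝ) from hx.1)
    (show y ∈ Set.Ici (0 : ℝ) from hy.1) ha hb hab
  have h2 := Real.concaveOn_negMulLog.2 (show 1 - x ∈ Set.Ici (0 : ℝ) by
    simp only [Set.mem_Ici]; linarith [hx.2]) (show 1 - y ∈ Set.Ici (0 : ℝ) by
    simp only [Set.mem_Ici]; linarith [hy.2]) ha hb hab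
  simp only [smul_eq_mul] at h1 h2 ⊢
  have e : a * (1 - x) + b * (1 - y) = 1 - (a * x + b * y) := by
    have : a + b = 1 := hab
    linear_combination this
  rw [e] at h2
  unfold v0
  linarith

lemma v1_concave : ConcaveOn ℝ (Set.Icc 0 1) v1 := by
  refine ⟨convex_Icc _ _, ?_⟩
  intro x hx y hy a b ha hb hab
  have h2 := v0_concave.2 (show 1 - x ∈ Set.Icc (0 : ℝ) 1 from
    ⟨by linarith [hx.2], by linarith [hx.1]⟩) (show 1 - y ∈ Set.Icc (0 : ℝ) 1 from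
    ⟨by linarith [hy.2], by linarith [hy.1]⟩) ha hb hab
  simp only [smul_eq_mul] at h2 ⊢
  have e : a * (1 - x) + b * (1 - y) = 1 - (a * x + b * y) := by
    have : a + b = 1 := hab
    linear_combination this
  rw [e] at h2
  unfold v1
  exact h2

lemma nml_le_one_sub {x : ℝ} (hx : 0 ≤ x) : Real.negMulLog x ≤ 1 - x := by
  have := nml_le hx one_pos
  simpa using this

lemma v0_le {x : ℝ} (hx0 : 0 ≤ x) (hx1 : x ≤ 1) : v0 x ≤ 1 / 2 := by
  have h1 := nml_le_one_sub hx0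
  have h2 := nml_le_one_sub (show 0 ≤ 1 - x by linarith)
  unfold v0
  linarith

lemma trap_le (p : ℕ) (hp : 1 ≤ p) : trap v0 p ≤ 1 / 2 := by
  have hp' : (0 : ℝ) < p := by exact_mod_cast hp
  unfold trap
  rw [div_le_iff₀ (by positivity)]
  have h1 : ∀ i ∈ Finset.range p, v0 ((i : ℝ) / p) + v0 (((i : ℝ) + 1) / p) ≤ 1 := by
    intro i hi
    rw [Finset.mem_range] at hi
    have hi' : (i : ℝ) + 1 ≤ p := by exact_mod_cast hi
    have h2 := v0_le (x := (i : ℝ) / p) (by positivity) (by rw [div_le_one hp']; linarith)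
    have h3 := v0_le (x := ((i : ℝ) + 1) / p) (by positivity) (by rw [div_le_one hp']; exact hi')
    linarith
  refine (Finset.sum_le_sum h1).trans ?_
  rw [Finset.sum_const, Finset.card_range, nsmul_eq_mul]
  linarith

/-- the integral of `v0` over `[0, 1]`, as a supremum of trapezoidal sums -/
noncomputable def ee : ℝ := sSup {x | ∃ p : ℕ, 1 ≤ p ∧ x = trap v0 p}

lemma ee_bdd : BddAbove {x | ∃ p : ℕ, 1 ≤ p ∧ x = trap v0 p} := by
  refine ⟨1 / 2, ?_⟩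
  rintro x ⟨p, hp, rfl⟩
  exact trap_le p hp

lemma trap_le_ee (p : ℕ) (hp : 1 ≤ p) : trap v0 p ≤ ee := le_csSup ee_bdd ⟨p, hp, rfl⟩

lemma exists_trap {ε : ℝ} (hε : 0 < ε) : ∃ p : ℕ, 1 ≤ p ∧ ee - ε ≤ trap v0 p := by
  obtain ⟨x, ⟨p, hp, rfl⟩, hx⟩ := exists_lt_of_lt_csSup
    (s := {x | ∃ p : ℕ, 1 ≤ p ∧ x = trap v0 p}) ⟨_, 1, le_rfl, rfl⟩
    (show ee - ε < sSup {x | ∃ p : ℕ, 1 ≤ p ∧ x = trap v0 p} by rw [ee]; linarith)
  exact ⟨p, hp, hx.le⟩

/-! ### the Legendre condition -/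

lemma leg_h0 : Leg h0 v0 := by
  intro x hx0 hx1 ε hε
  rcases hx0.eq_or_lt with h | hx0'
  · -- `x = 0`
    rw [← h, v0_zero]
    have hc := Metric.continuous_iff.1 h0_continuous 0 ε hε
    obtain ⟨δ, hδ, hδb⟩ := hc
    refine ⟨δ / 2, by positivity, fun z hz => ?_⟩
    have h1 := hδb z (by rw [dist_zero_right, hz]; linarith)
    rw [h0_zero, Real.dist_eq] at h1
    have := (abs_lt.1 h1).2
    linarith
  rcases hx1.eq_or_lt with h | hx1'
  · -- `x = 1`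
    rw [h, v0_one]
    have hc := Metric.continuous_iff.1 h1_continuous 0 ε hε
    obtain ⟨δ, hδ, hδb⟩ := hc
    refine ⟨2 / δ, by positivity, fun z hz => ?_⟩
    have hz0 : z ≠ 0 := by rw [← norm_pos_iff, hz]; positivity
    have h1 := hδb z⁻¹ (by
      rw [dist_zero_right, norm_inv, hz, inv_div]; linarith)
    rw [h1_zero, Real.dist_eq] at h1
    have h2 := (abs_lt.1 h1).2
    rw [h0_of_ne hz0, hz]
    linarith
  · -- `0 < x < 1`
    have hx1m : 0 < 1 - x := by linarith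
    have hsx : 0 < Real.sqrt x := Real.sqrt_pos.2 hx0'
    have hsx2 := Real.sq_sqrt hx0'.le
    set T := Real.sqrt x / (1 - x) with hT
    have hTpos : 0 < T := by positivity
    refine ⟨Real.sqrt T, Real.sqrt_pos.2 hTpos, fun z hz => ?_⟩
    have hz2 : ‖z‖ ^ 2 = T := by rw [hz, Real.sq_sqrt hTpos.le]
    rw [Real.sq_sqrt hTpos.le]
    have h1 : Real.sqrt (1 + 4 * T ^ 2) = (1 + x) / (1 - x) := by
      have : 1 + 4 * T ^ 2 = ((1 + x) / (1 - x)) ^ 2 := by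
        rw [hT, div_pow, hsx2]; field_simp; ring
      rw [this, Real.sqrt_sq (by positivity)]
    have h2 : h0 z = -Real.log (1 - x) - x / 2 := by
      unfold h0
      rw [hz2, h1]
      have e1 : (1 + (1 + x) / (1 - x)) / 2 = (1 - x)⁻¹ := by field_simp; ring
      have e2 : 1 / (1 + (1 + x) / (1 - x)) = (1 - x) / 2 := by field_simp; ring
      rw [e1, e2, Real.log_inv]; ring
    have h3 : Real.log T = 1 / 2 * Real.log x - Real.log (1 - x) := by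
      rw [hT, Real.log_div hsx.ne' hx1m.ne', Real.log_sqrt hx0'.le]
      ring
    rw [h2, h3]
    have h4 : -Real.log (1 - x) - x / 2 - x * (1 / 2 * Real.log x - Real.log (1 - x)) = v0 x := by
      unfold v0 Real.negMulLog; ring
    rw [h4]
    linarith

lemma leg_h1 : Leg h1 v1 := by
  intro x hx0 hx1 ε hε
  obtain ⟨R, hR, hRz⟩ := leg_h0 (1 - x) (by linarith) (by linarith) ε hε
  refine ⟨R⁻¹, by positivity, fun z hz => ?_⟩
  have hz0 : z ≠ 0 := by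
    rw [← norm_pos_iff, hz]; positivity
  have h2 := hRz z⁻¹ (by rw [norm_inv, hz, inv_inv])
  rw [h1_of_ne hz0, hz]
  unfold v1
  rw [inv_pow, Real.log_inv]
  linarith

/-! ### bad columns -/

/-- the number of columns `c ≤ k` with `c / k < s` -/
lemma exists_cols (k : ℕ) (hk : 1 ≤ k) (s : ℝ) (hs : 0 < s) : ∃ T : Finset (Fin (k + 1)),
    (T.card : ℝ) ≤ s * k + 1 ∧ ∀ c ∉ T, s ≤ ((c : ℕ) : ℝ) / k := by
  classical
  have hk' : (0 : ℝ) < k := by exact_mod_cast hk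
  refine ⟨Finset.univ.filter fun c => ((c : ℕ) : ℝ) < s * k, ?_, fun c hc => ?_⟩
  · have h1 : ((Finset.univ.filter fun c : Fin (k + 1) => ((c : ℕ) : ℝ) < s * k).card) ≤
        ⌈s * k⌉₊ := by
      have h2 : (Finset.univ.filter fun c : Fin (k + 1) => ((c : ℕ) : ℝ) < s * k).map
          Fin.valEmbedding ⊆ Finset.range ⌈s * k⌉₊ := by
        intro n hn
        rw [Finset.mem_map] at hn
        obtain ⟨c, hc, rfl⟩ := hn
        rw [Finset.mem_filter] at hc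
        rw [Finset.mem_range, Fin.valEmbedding_apply]
        exact Nat.lt_ceil.2 hc.2
      have h3 := Finset.card_le_card h2
      rwa [Finset.card_map, Finset.card_range] at h3
    have h4 : (⌈s * (k : ℝ)⌉₊ : ℝ) < s * k + 1 := Nat.ceil_lt_add_one (by positivity)
    have h5 : ((Finset.univ.filter fun c : Fin (k + 1) => ((c : ℕ) : ℝ) < s * k).card : ℝ) ≤
        (⌈s * (k : ℝ)⌉₊ : ℝ) := by exact_mod_cast h1
    linarith
  · simp only [Finset.mem_filter, Finset.mem_univ, true_and, not_lt] at hc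
    rw [le_div_iff₀ hk']
    exact hc

lemma exists_cols' (k : ℕ) (hk : 1 ≤ k) (s : ℝ) (hs : 0 < s) : ∃ T : Finset (Fin (k + 1)),
    (T.card : ℝ) ≤ s * k + 1 ∧ ∀ c ∉ T, s ≤ 1 - ((c : ℕ) : ℝ) / k := by
  classical
  have hk' : (0 : ℝ) < k := by exact_mod_cast hk
  obtain ⟨T, hT, hTc⟩ := exists_cols k hk s hs
  refine ⟨T.map Fin.revPerm.toEmbedding, by rwa [Finset.card_map], fun c hc => ?_⟩
  have h1 : c.rev ∉ T := by
    intro h
    apply hc
    rw [Finset.mem_map]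
    exact ⟨c.rev, h, by simp⟩
  have h2 := hTc _ h1
  rw [Fin.val_rev] at h2
  have h3 : k + 1 - ((c : ℕ) + 1) = k - c := by omega
  have h4 : (c : ℕ) ≤ k := by omega
  rw [h3, Nat.cast_sub h4] at h2
  have e2 : ((k : ℝ) - (c : ℕ)) / k = 1 - ((c : ℕ) : ℝ) / k := by field_simp
  rwa [e2] at h2

/-- the gain near the ends of `[0, 1]` -/
lemma exists_gain {ε₀ : ℝ} (hε₀ : 0 < ε₀) : ∃ δ₁ : ℝ, 0 < δ₁ ∧ ∀ δ : ℝ, 0 < δ → δ < δ₁ →
    ∀ τ : ℝ, ε₀ * δ ≤ τ → τ ≤ 1 → δ ≤ 1 / 2 * (Real.negMulLog τ + τ) := by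
  refine ⟨Real.exp (1 - 2 / ε₀) / ε₀, by positivity, fun δ hδ hδ1 τ hτ hτ1 => ?_⟩
  rw [lt_div_iff₀ hε₀, mul_comm] at hδ1
  set τ₀ := ε₀ * δ with hτ₀
  have hτ₀pos : 0 < τ₀ := by positivity
  have hτpos : 0 < τ := by linarith
  have h1 : Real.log τ₀ ≤ 1 - 2 / ε₀ := by
    rw [Real.log_le_iff_le_exp hτ₀pos]
    exact hδ1.le
  -- the value at `τ₀`
  have h2 : 2 * δ ≤ τ₀ * (1 - Real.log τ₀) := by
    have h3 : τ₀ * (2 / ε₀) = 2 * δ := by rw [hτ₀]; field_simp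
    have h4 : 2 / ε₀ ≤ 1 - Real.log τ₀ := by linarith
    have := mul_le_mul_of_nonneg_left h4 hτ₀pos.le
    linarith
  -- monotonicity
  have h3 := nml_le hτ₀pos.le hτpos
  have h4 : Real.log τ ≤ 0 := Real.log_nonpos hτpos.le hτ1
  have h5 : τ * Real.log τ ≤ τ₀ * Real.log τ := mul_le_mul_of_nonpos_right hτ h4
  unfold Real.negMulLog at h3 ⊢
  linarith

lemma v_diff_le {x : ℝ} (hx0 : 0 ≤ x) :
    v1 x - v0 x ≤ 1 / 2 - 1 / 2 * (Real.negMulLog (1 - x) + (1 - x)) := by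
  have h1 := nml_le_one_sub hx0
  unfold v1 v0
  have e : 1 - (1 - x) = x := by ring
  rw [e]
  linarith

lemma bad_v0 (ε₀ : ℝ) (hε₀ : 0 < ε₀) : ∃ δ₁ : ℝ, 0 < δ₁ ∧ ∀ δ : ℝ, 0 < δ → δ < δ₁ →
    ∀ k : ℕ, 1 ≤ k → ∃ T : Finset (Fin (k + 1)), (T.card : ℝ) ≤ ε₀ * δ * k + 1 ∧
        ∀ c ∉ T, v1 (((c : ℕ) : ℝ) / k) - v0 (((c : ℕ) : ℝ) / k) ≤ 1 / 2 - δ := by
  obtain ⟨δ₁, hδ₁, h⟩ := exists_gain hε₀
  refine ⟨δ₁, hδ₁, fun δ hδ hδ1 k hk => ?_⟩
  have hk' : (0 : ℝ) < k := by exact_mod_cast hk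
  obtain ⟨T, hT, hTc⟩ := exists_cols' k hk (ε₀ * δ) (by positivity)
  refine ⟨T, hT, fun c hc => ?_⟩
  have hck : ((c : ℕ) : ℝ) ≤ k := by
    have : (c : ℕ) ≤ k := by omega
    exact_mod_cast this
  have hx0 : 0 ≤ ((c : ℕ) : ℝ) / k := by positivity
  have hx1 : ((c : ℕ) : ℝ) / k ≤ 1 := by rw [div_le_one hk']; exact hck
  have h1 := h δ hδ hδ1 _ (hTc c hc) (by linarith)
  have h2 := v_diff_le hx0
  linarith

lemma bad_v1 (ε₀ : ℝ) (hε₀ : 0 < ε₀) : ∃ δ₁ : ℝ, 0 < δ₁ ∧ ∀ δ : ℝ, 0 < δ → δ < δ₁ →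
    ∀ k : ℕ, 1 ≤ k → ∃ T : Finset (Fin (k + 1)), (T.card : ℝ) ≤ ε₀ * δ * k + 1 ∧
        ∀ c ∉ T, v0 (((c : ℕ) : ℝ) / k) - v1 (((c : ℕ) : ℝ) / k) ≤ 1 / 2 - δ := by
  obtain ⟨δ₁, hδ₁, h⟩ := exists_gain hε₀
  refine ⟨δ₁, hδ₁, fun δ hδ hδ1 k hk => ?_⟩
  have hk' : (0 : ℝ) < k := by exact_mod_cast hk
  obtain ⟨T, hT, hTc⟩ := exists_cols k hk (ε₀ * δ) (by positivity)
  refine ⟨T, hT, fun c hc => ?_⟩
  have hck : ((c : ℕ) : ℝ) ≤ k := by
    have : (c : ℕ) ≤ k := by omega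
    exact_mod_cast this
  have hx0 : 0 ≤ ((c : ℕ) : ℝ) / k := by positivity
  have hx1 : ((c : ℕ) : ℝ) / k ≤ 1 := by rw [div_le_one hk']; exact hck
  have h1 := h δ hδ hδ1 _ (hTc c hc) hx1
  have h2 := v_diff_le (x := 1 - ((c : ℕ) : ℝ) / k) (by linarith)
  unfold v1 at h2 ⊢
  have e : 1 - (1 - ((c : ℕ) : ℝ) / k) = ((c : ℕ) : ℝ) / k := by ring
  rw [e] at h2
  linarith

lemma data0 : Data h0 v0 v1 ee (1 / 2) where
  cont := h0_continuous
  growth := metric0.growth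
  energy := hasEnergy_of_dominates dominates0 v0_concave fun _ hε => exists_trap hε
  leg := leg_h0
  sum := sum_le_of_trap trap_le_ee
  bad := bad_v0

lemma data1 : Data h1 v1 v0 ee (1 / 2) where
  cont := h1_continuous
  growth := metric1.growth
  energy := hasEnergy_of_dominates dominates1 v1_concave fun ε hε => by
    obtain ⟨p, hp, h⟩ := exists_trap hε
    refine ⟨p, hp, ?_⟩
    have := trap_reflect v0 hp
    unfold v1
    rw [this]
    exact h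
  leg := leg_h1
  sum := sum_le_of_trap fun p hp => by
    have := trap_reflect v0 hp
    unfold v1
    rw [this]
    exact trap_le_ee p hp
  bad := bad_v1

/-! ### the extreme values of `h₁ - h₀` -/

lemma half_le_of_h0_le {β : ℝ} (h : ∀ z, h0 z ≤ h1 z + β) : 1 / 2 ≤ β := by
  have := h 0
  rw [h0_zero, h1_zero] at this
  linarith

lemma half_le_of_h1_le {β : ℝ} (h : ∀ z, h1 z ≤ h0 z + β) : 1 / 2 ≤ β := by
  -- for `w ≠ 0` we have `h0 w ≤ h1 w + β`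
  have h2 : ∀ w : ℂ, w ≠ 0 → h0 w ≤ h1 w + β := by
    intro w hw
    have h3 := h w⁻¹
    rw [h0_of_ne hw, h1_of_ne hw]
    linarith
  have h3 : h0 0 ≤ h1 0 + β := by
    have hc0 : Tendsto h0 (𝓝[≠] 0) (𝓝 (h0 0)) :=
      h0_continuous.continuousAt.tendsto.mono_left nhdsWithin_le_nhds
    have hc1 : Tendsto (fun w => h1 w + β) (𝓝[≠] 0) (𝓝 (h1 0 + β)) :=
      (h1_continuous.add continuous_const).continuousAt.tendsto.mono_left nhdsWithin_le_nhds
    refine le_of_tendsto_of_tendsto hc0 hc1 ?_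
    filter_upwards [self_mem_nhdsWithin] with w hw
    exact h2 w hw
  rw [h0_zero, h1_zero] at h3
  linarith

end Pool.Agent.Lib.MP_ab0522
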