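import Mathlib
import Pool.Agent.Lib.MP_ab0522.ExplicitData

/-!
# The analytic part : integrability, Parseval, coordinates in an adapted orthonormal basis
-/

namespace Pool.Agent.Lib.MP_ab0522

open Polynomial MeasureTheory Filter Topology Metric

lemma VolumeForm.exists_bound (dV : VolumeForm) :
    ∃ M : ℝ, 0 < M ∧ ∀ z : ℂ, dV.dens z ≤ M * (1 + ‖z‖) ^ (-(4 : ℝ)) := by
  have hcpt : IsCompact (closedBall (0 : ℂ) 1) := isCompact_closedBall _ _
  have hne : (closedBall (0 : ℂ) 1).Nonempty := ⟨0, by simp⟩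
  obtain ⟨z₁, -, hz₁⟩ := hcpt.exists_isMaxOn hne dV.continuous_dens.continuousOn
  obtain ⟨z₂, -, hz₂⟩ := hcpt.exists_isMaxOn hne dV.continuous_densInf.continuousOn
  have hp1 := dV.dens_pos z₁
  have hp2 := dV.densInf_pos z₂
  refine ⟨16 * (dV.dens z₁ + dV.densInf z₂), by positivity, fun z => ?_⟩
  have hpow : (1 + ‖z‖) ^ (-(4 : ℝ)) = ((1 + ‖z‖) ^ 4)⁻¹ := by
    rw [Real.rpow_neg (by positivity)]
    congr 1
    exact_mod_cast Real.rpow_natCast (1 + ‖z‖) 4
  rw [hpow, ← div_eq_mul_inv, le_div_iff₀ (by positivity)]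
  rcases le_total ‖z‖ 1 with h | h
  · have h1 : dV.dens z ≤ dV.dens z₁ := hz₁ (by simpa using h)
    have h2 : (1 + ‖z‖) ^ 4 ≤ 2 ^ 4 := by gcongr; linarith
    have h3 : 0 < dV.dens z := dV.dens_pos z
    calc dV.dens z * (1 + ‖z‖) ^ 4 ≤ dV.dens z₁ * 2 ^ 4 := by gcongr
      _ ≤ _ := by nlinarith
  · have hz0 : z ≠ 0 := by
      rintro rfl
      simp at h
      linarith
    have hpos : 0 < ‖z‖ := norm_pos_iff.2 hz0
    have h1 : dV.densInf z⁻¹ ≤ dV.densInf z₂ := hz₂ (by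
      simp only [mem_closedBall, dist_zero_right, norm_inv]
      exact inv_le_one_of_one_le₀ h)
    rw [dV.compat z hz0, div_mul_eq_mul_div, div_le_iff₀ (by positivity)]
    have h2 : (1 + ‖z‖) ^ 4 ≤ (2 * ‖z‖) ^ 4 := by gcongr; linarith
    have h3 : 0 < dV.densInf z⁻¹ := dV.densInf_pos _
    calc dV.densInf z⁻¹ * (1 + ‖z‖) ^ 4 ≤ dV.densInf z₂ * (2 * ‖z‖) ^ 4 := by gcongr
      _ = 16 * dV.densInf z₂ * ‖z‖ ^ 4 := by ring
      _ ≤ _ := by
        apply mul_le_mul_of_nonneg_right _ (by positivity)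
        linarith

lemma VolumeForm.integrable (dV : VolumeForm) : Integrable dV.dens := by
  obtain ⟨M, hM, hMb⟩ := dV.exists_bound
  have h1 : Integrable (fun z : ℂ => M * (1 + ‖z‖) ^ (-(4 : ℝ))) := by
    apply Integrable.const_mul
    apply integrable_one_add_norm
    rw [Complex.finrank_real_complex]
    norm_num
  refine h1.mono' dV.continuous_dens.aestronglyMeasurable (Eventually.of_forall fun z => ?_)
  rw [Real.norm_of_nonneg (dV.dens_pos z).le]
  exact hMb z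

/-- the weight of the `L²` norm -/
noncomputable def wgt (φ : PositiveMetric) (dV : VolumeForm) (k : ℕ) (z : ℂ) : ℝ :=
  Real.exp (-(k * φ.wt z)) * dV.dens z

lemma wgt_pos (φ : PositiveMetric) (dV : VolumeForm) (k : ℕ) (z : ℂ) : 0 < wgt φ dV k z :=
  mul_pos (Real.exp_pos _) (dV.dens_pos z)

lemma wgt_continuous (φ : PositiveMetric) (dV : VolumeForm) (k : ℕ) :
    Continuous (wgt φ dV k) := by
  have h1 := φ.continuous_wt
  have h2 := dV.continuous_dens
  unfold wgt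
  fun_prop

lemma poly_bound' {n : ℕ} {u : ℂ[X]} (hu : u ∈ V n) : ∃ M : ℝ, 0 < M ∧
    ∀ z, ‖u.eval z‖ ≤ M * (1 + ‖z‖) ^ n := Sys.poly_bound hu

lemma prod_wgt_bound (φ : PositiveMetric) (dV : VolumeForm) {k : ℕ} {p q : ℂ[X]} (hp : p ∈ V k)
    (hq : q ∈ V k) : ∃ M : ℝ, ∀ z, ‖p.eval z‖ * ‖q.eval z‖ * wgt φ dV k z ≤ M * dV.dens z := by
  obtain ⟨A, hA⟩ := φ.growth
  obtain ⟨Mp, hMp, hp'⟩ := poly_bound' hp
  obtain ⟨Mq, hMq, hq'⟩ := poly_bound' hq
  refine ⟨Mp * Mq * (2 * Real.exp A) ^ k, fun z => ?_⟩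
  have h1 : (1 + ‖z‖) ^ 2 ≤ 2 * Real.exp A * Real.exp (φ.wt z) := by
    have := hA z
    nlinarith [sq_nonneg (1 - ‖z‖)]
  have hd := dV.dens_pos z
  calc ‖p.eval z‖ * ‖q.eval z‖ * wgt φ dV k z ≤
      (Mp * (1 + ‖z‖) ^ k) * (Mq * (1 + ‖z‖) ^ k) * (Real.exp (-(k * φ.wt z)) * dV.dens z) := by
        unfold wgt
        gcongr
        · exact hp' z
        · exact hq' z
    _ = Mp * Mq * ((1 + ‖z‖) ^ 2) ^ k * Real.exp (-(k * φ.wt z)) * dV.dens z := by
        rw [← pow_mul, mul_comm 2 k, pow_mul]; ring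
    _ ≤ Mp * Mq * (2 * Real.exp A * Real.exp (φ.wt z)) ^ k * Real.exp (-(k * φ.wt z)) *
        dV.dens z := by gcongr
    _ = Mp * Mq * (2 * Real.exp A) ^ k * dV.dens z := by
        rw [mul_pow (2 * Real.exp A), ← Real.exp_nat_mul, Real.exp_neg]
        field_simp

lemma integrable_prod (φ : PositiveMetric) (dV : VolumeForm) {k : ℕ} {p q : ℂ[X]} (hp : p ∈ V k)
    (hq : q ∈ V k) : Integrable (fun z => p.eval z * (starRingEnd ℂ) (q.eval z) *
      ((wgt φ dV k z : ℝ) : ℂ)) := by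
  obtain ⟨M, hM⟩ := prod_wgt_bound φ dV hp hq
  refine (dV.integrable.const_mul M).mono' ?_ (Eventually.of_forall fun z => ?_)
  · apply Continuous.aestronglyMeasurable
    have := wgt_continuous φ dV k
    fun_prop
  · rw [norm_mul, norm_mul, RCLike.norm_conj, Complex.norm_real,
      Real.norm_of_nonneg (wgt_pos φ dV k z).le]
    exact hM z

lemma integrable_sq (φ : PositiveMetric) (dV : VolumeForm) {k : ℕ} {p : ℂ[X]} (hp : p ∈ V k) :
    Integrable (fun z => ‖p.eval z‖ ^ 2 * wgt φ dV k z) := by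
  obtain ⟨M, hM⟩ := prod_wgt_bound φ dV hp hp
  refine (dV.integrable.const_mul M).mono' ?_ (Eventually.of_forall fun z => ?_)
  · apply Continuous.aestronglyMeasurable
    have := wgt_continuous φ dV k
    fun_prop
  · rw [Real.norm_of_nonneg (mul_nonneg (by positivity) (wgt_pos φ dV k z).le), sq]
    exact hM z

lemma innerProd_def (φ : PositiveMetric) (dV : VolumeForm) (k : ℕ) (s t : ℂ[X]) :
    innerProd φ dV k s t = ∫ z : ℂ, s.eval z * (starRingEnd ℂ) (t.eval z) *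
      ((wgt φ dV k z : ℝ) : ℂ) := rfl

lemma innerProd_self (φ : PositiveMetric) (dV : VolumeForm) (k : ℕ) (s : ℂ[X]) :
    innerProd φ dV k s s = ((∫ z : ℂ, ‖s.eval z‖ ^ 2 * wgt φ dV k z : ℝ) : ℂ) := by
  rw [innerProd_def, ← integral_complex_ofReal]
  congr 1
  funext z
  rw [Complex.mul_conj, Complex.normSq_eq_norm_sq]
  push_cast
  ring

lemma innerProd_sum_left (φ : PositiveMetric) (dV : VolumeForm) {k n : ℕ} (s : Fin n → ℂ[X])
    (hs : ∀ i, s i ∈ V k) (a : Fin n → ℂ) {t : ℂ[X]} (ht : t ∈ V k) :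
    innerProd φ dV k (∑ i, a i • s i) t = ∑ i, a i * innerProd φ dV k (s i) t := by
  simp only [innerProd_def]
  have h1 : ∀ z : ℂ, (∑ i, a i • s i).eval z * (starRingEnd ℂ) (t.eval z) *
      ((wgt φ dV k z : ℝ) : ℂ) = ∑ i, a i * ((s i).eval z * (starRingEnd ℂ) (t.eval z) *
      ((wgt φ dV k z : ℝ) : ℂ)) := by
    intro z
    rw [eval_finsetSum, Finset.sum_mul, Finset.sum_mul]
    refine Finset.sum_congr rfl fun i _ => ?_
    rw [eval_smul, smul_eq_mul]
    ring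
  simp only [h1]
  rw [integral_finsetSum _ fun i _ => (integrable_prod φ dV (hs i) ht).const_mul _]
  refine Finset.sum_congr rfl fun i _ => ?_
  rw [integral_const_mul]

lemma innerProd_conj (φ : PositiveMetric) (dV : VolumeForm) (k : ℕ) (s t : ℂ[X]) :
    innerProd φ dV k t s = (starRingEnd ℂ) (innerProd φ dV k s t) := by
  rw [innerProd_def, innerProd_def, ← integral_conj]
  congr 1
  funext z
  simp only [map_mul, Complex.conj_conj, Complex.conj_ofReal]
  ring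

namespace AdaptedBasis

variable {φ : PositiveMetric} {dV : VolumeForm} {F : GradedFiltration} {k : ℕ}
  (B : AdaptedBasis φ dV F k)

lemma s_mem_F (i : Fin (k + 1)) : B.s i ∈ F.F k (B.lam i) := by
  rw [B.adapted]
  exact Submodule.subset_span ⟨i, by simp, rfl⟩

lemma s_mem (i : Fin (k + 1)) : B.s i ∈ V k := F.le_V _ _ (B.s_mem_F i)

lemma exists_coord {u : ℂ[X]} (hu : u ∈ V k) : ∃ a : Fin (k + 1) → ℂ, u = ∑ i, a i • B.s i := by
  obtain ⟨C, hC⟩ := F.bounded
  have h1 := (hC k).1 _ le_rfl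
  rw [B.adapted] at h1
  rw [← h1] at hu
  have h2 : u ∈ Submodule.span ℂ (Set.range B.s) :=
    Submodule.span_mono (Set.image_subset_range _ _) hu
  obtain ⟨a, ha⟩ := (Submodule.mem_span_range_iff_exists_fun ℂ).1 h2
  exact ⟨a, ha.symm⟩

lemma coord_eq (a : Fin (k + 1) → ℂ) (i : Fin (k + 1)) :
    innerProd φ dV k (∑ j, a j • B.s j) (B.s i) = a i := by
  rw [innerProd_sum_left φ dV _ B.s_mem _ (B.s_mem i)]
  simp only [B.orthonormal]
  simp

lemma parseval (a : Fin (k + 1) → ℂ) :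
    ∫ z : ℂ, ‖(∑ j, a j • B.s j).eval z‖ ^ 2 * wgt φ dV k z = ∑ i, ‖a i‖ ^ 2 := by
  have hu : (∑ j, a j • B.s j) ∈ V k :=
    Submodule.sum_mem _ fun j _ => Submodule.smul_mem _ _ (B.s_mem j)
  have h1 := innerProd_self φ dV k (∑ j, a j • B.s j)
  have h2 : innerProd φ dV k (∑ j, a j • B.s j) (∑ j, a j • B.s j) =
      ((∑ i, ‖a i‖ ^ 2 : ℝ) : ℂ) := by
    rw [innerProd_sum_left φ dV _ B.s_mem _ hu]
    push_cast
    refine Finset.sum_congr rfl fun i _ => ?_
    rw [innerProd_conj, B.coord_eq, Complex.mul_conj, Complex.normSq_eq_norm_sq]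
    push_cast
    ring
  rw [h2] at h1
  exact_mod_cast h1.symm

lemma coord_eq_zero {a : Fin (k + 1) → ℂ} {t : ℝ} (hu : (∑ i, a i • B.s i) ∈ F.F k t)
    {i : Fin (k + 1)} (hi : B.lam i < t) : a i = 0 := by
  rw [B.adapted] at hu
  -- the functional `u ↦ innerProd u (s i)` vanishes on the span
  have key : ∀ u ∈ Submodule.span ℂ (B.s '' {j | t ≤ B.lam j}),
      u ∈ V k ∧ innerProd φ dV k u (B.s i) = 0 := by
    intro u hu
    induction hu using Submodule.span_induction with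
    | mem x hx =>
      obtain ⟨j, hj, rfl⟩ := hx
      refine ⟨B.s_mem j, ?_⟩
      rw [B.orthonormal, if_neg]
      rintro rfl
      exact absurd hj (not_le.2 hi)
    | zero =>
      refine ⟨Submodule.zero_mem _, ?_⟩
      rw [innerProd_def]; simp
    | add x y _ _ hx hy =>
      refine ⟨Submodule.add_mem _ hx.1 hy.1, ?_⟩
      have ex := hx.2
      have ey := hy.2
      rw [innerProd_def] at ex ey ⊢
      have h1 : ∀ z : ℂ, (x + y).eval z * (starRingEnd ℂ) ((B.s i).eval z) *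
          ((wgt φ dV k z : ℝ) : ℂ) = x.eval z * (starRingEnd ℂ) ((B.s i).eval z) *
          ((wgt φ dV k z : ℝ) : ℂ) + y.eval z * (starRingEnd ℂ) ((B.s i).eval z) *
          ((wgt φ dV k z : ℝ) : ℂ) := by
        intro z; rw [eval_add]; ring
      simp only [h1]
      rw [integral_add (integrable_prod φ dV hx.1 (B.s_mem i))
        (integrable_prod φ dV hy.1 (B.s_mem i)), ex, ey, add_zero]
    | smul c x _ hx =>
      refine ⟨Submodule.smul_mem _ _ hx.1, ?_⟩
      rw [innerProd_def]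
      have h1 : ∀ z : ℂ, (c • x).eval z * (starRingEnd ℂ) ((B.s i).eval z) *
          ((wgt φ dV k z : ℝ) : ℂ) = c * (x.eval z * (starRingEnd ℂ) ((B.s i).eval z) *
          ((wgt φ dV k z : ℝ) : ℂ)) := by
        intro z; rw [eval_smul, smul_eq_mul]; ring
      simp only [h1]
      rw [integral_const_mul, ← innerProd_def, hx.2, mul_zero]
  have h1 := (key _ hu).2
  rwa [B.coord_eq] at h1

lemma integral_s (i : Fin (k + 1)) : ∫ z : ℂ, ‖(B.s i).eval z‖ ^ 2 * wgt φ dV k z = 1 := by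
  have h1 := innerProd_self φ dV k (B.s i)
  rw [B.orthonormal, if_pos rfl] at h1
  exact_mod_cast h1.symm

/-- coordinates of a section of square norm at most `e^{k φ}` -/
lemma exists_dual {u : ℂ[X]} (hu : u ∈ V k)
    (hb : ∀ z, ‖u.eval z‖ ^ 2 ≤ Real.exp (k * φ.wt z)) :
    ∃ a : Fin (k + 1) → ℂ, u = ∑ i, a i • B.s i ∧
      (∀ i, ‖a i‖ ^ 2 ≤ (∫ z, dV.dens z) + 1) ∧
      ∀ t, u ∈ F.F k t → ∀ i, B.lam i < t → a i = 0 := by
  obtain ⟨a, ha⟩ := B.exists_coord hu
  refine ⟨a, ha, fun i => ?_, fun t ht i hi => ?_⟩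
  · have h1 : ‖a i‖ ^ 2 ≤ ∑ j, ‖a j‖ ^ 2 :=
      Finset.single_le_sum (f := fun j => ‖a j‖ ^ 2) (fun _ _ => by positivity)
        (Finset.mem_univ i)
    rw [← B.parseval, ← ha] at h1
    have h2 : ∫ z : ℂ, ‖u.eval z‖ ^ 2 * wgt φ dV k z ≤ ∫ z, dV.dens z := by
      apply integral_mono (integrable_sq φ dV hu) dV.integrable
      intro z
      simp only
      have hd := dV.dens_pos z
      calc ‖u.eval z‖ ^ 2 * wgt φ dV k z ≤ Real.exp (k * φ.wt z) * wgt φ dV k z := by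
            apply mul_le_mul_of_nonneg_right (hb z) (wgt_pos φ dV k z).le
        _ = dV.dens z := by
            unfold wgt
            rw [← mul_assoc, ← Real.exp_add]
            simp
    linarith
  · rw [ha] at ht
    exact B.coord_eq_zero ht hi

end AdaptedBasis

end Pool.Agent.Lib.MP_ab0522
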