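import Mathlib
import Pool.Agent.Lib.MP_ab0522.Analytic

/-!
# The Bernstein-Markov inequality
-/

namespace Pool.Agent.Lib.MP_ab0522

open Polynomial MeasureTheory Filter Topology Metric

/-- powers integrate to zero over a centred disc -/
lemma integral_pow_ball {n : ℕ} (hn : 1 ≤ n) (δ : ℝ) :
    ∫ w in ball (0 : ℂ) δ, w ^ n = 0 := by
  have hn' : (n : ℂ) ≠ 0 := by exact_mod_cast (by omega : n ≠ 0)
  -- a rotation `u` with `u ^ n = -1`
  set u : Circle := Circle.exp (Real.pi / n) with hu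
  have hun : (u : ℂ) ^ n = -1 := by
    rw [hu, Circle.coe_exp, ← Complex.exp_nat_mul]
    have : (n : ℂ) * (((Real.pi / n : ℝ) : ℂ) * Complex.I) = Real.pi * Complex.I := by
      push_cast; field_simp
    rw [this, Complex.exp_pi_mul_I]
  have hmp : MeasurePreserving (rotation u) (volume : Measure ℂ) volume :=
    (rotation u).measurePreserving
  have hemb : MeasurableEmbedding (rotation u) :=
    (rotation u).toHomeomorph.measurableEmbedding
  have h1 := hmp.setIntegral_preimage_emb hemb (fun w : ℂ => w ^ n) (ball 0 δ)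
  have h2 : (rotation u) ⁻¹' (ball (0 : ℂ) δ) = ball 0 δ := by
    ext w
    rw [Set.mem_preimage, mem_ball_zero_iff, mem_ball_zero_iff, LinearIsometryEquiv.norm_map]
  rw [h2] at h1
  simp only [rotation_apply, mul_pow, hun] at h1
  rw [integral_const_mul] at h1
  have h3 : (2 : ℂ) * ∫ w in ball (0 : ℂ) δ, w ^ n = 0 := by linear_combination -h1
  simpa using h3

lemma integrableOn_ball_of_continuous {E : Type*} [NormedAddCommGroup E] {f : ℂ → E}
    (hf : Continuous f) (z : ℂ) (δ : ℝ) : IntegrableOn f (ball z δ) :=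
  (hf.continuousOn.integrableOn_compact (isCompact_closedBall z δ)).mono_set ball_subset_closedBall

/-- the mean value inequality over a centred disc -/
lemma sq_norm_mul_volume_le (p : ℂ[X]) (δ : ℝ) :
    ‖p.eval 0‖ ^ 2 * (volume (ball (0 : ℂ) δ)).toReal ≤ ∫ w in ball (0 : ℂ) δ, ‖p.eval w‖ ^ 2 := by
  -- `∫ (p - p 0) = 0`
  have h1 : ∫ w in ball (0 : ℂ) δ, (p.eval w - p.eval 0) = 0 := by
    have h2 : ∀ w : ℂ, p.eval w - p.eval 0 =
        ∑ i ∈ Finset.range p.natDegree, p.coeff (i + 1) * w ^ (i + 1) := by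
      intro w
      rw [eval_eq_sum_range, Finset.sum_range_succ', ← coeff_zero_eq_eval_zero]
      simp
    simp only [h2]
    rw [integral_finsetSum]
    · refine Finset.sum_eq_zero fun i _ => ?_
      rw [integral_const_mul, integral_pow_ball (by omega), mul_zero]
    · intro i _
      exact integrableOn_ball_of_continuous (by fun_prop) _ _
  have h3 : ∀ w : ℂ, ‖p.eval 0‖ ^ 2 +
      2 * ((starRingEnd ℂ) (p.eval 0) * (p.eval w - p.eval 0)).re ≤ ‖p.eval w‖ ^ 2 := by
    intro w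
    have h4 : ‖p.eval w‖ ^ 2 = ‖p.eval 0‖ ^ 2 +
        2 * ((starRingEnd ℂ) (p.eval 0) * (p.eval w - p.eval 0)).re +
          ‖p.eval w - p.eval 0‖ ^ 2 := by
      rw [← Complex.normSq_eq_norm_sq, ← Complex.normSq_eq_norm_sq, ← Complex.normSq_eq_norm_sq]
      simp only [Complex.normSq_apply, Complex.mul_re, Complex.conj_re, Complex.conj_im,
        Complex.sub_re, Complex.sub_im]
      ring
    rw [h4]
    have : 0 ≤ ‖p.eval w - p.eval 0‖ ^ 2 := by positivity
    linarith
  have hvol : volume (ball (0 : ℂ) δ) ≠ ⊤ := measure_ball_lt_top.ne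
  have h5 : ∫ w in ball (0 : ℂ) δ, (‖p.eval 0‖ ^ 2 +
      2 * ((starRingEnd ℂ) (p.eval 0) * (p.eval w - p.eval 0)).re) =
      ‖p.eval 0‖ ^ 2 * (volume (ball (0 : ℂ) δ)).toReal := by
    have hi2 : IntegrableOn (fun w => (starRingEnd ℂ) (p.eval 0) * (p.eval w - p.eval 0))
        (ball (0 : ℂ) δ) := integrableOn_ball_of_continuous (by fun_prop) _ _
    have hc : Continuous fun w : ℂ =>
        2 * ((starRingEnd ℂ) (p.eval 0) * (p.eval w - p.eval 0)).re :=
      continuous_const.mul (Complex.continuous_re.comp (by fun_prop))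
    rw [integral_add (integrableOn_ball_of_continuous continuous_const _ _)
      (integrableOn_ball_of_continuous hc _ _), integral_const_mul]
    have h6 : ∫ w in ball (0 : ℂ) δ, ((starRingEnd ℂ) (p.eval 0) * (p.eval w - p.eval 0)).re =
        (∫ w in ball (0 : ℂ) δ, (starRingEnd ℂ) (p.eval 0) * (p.eval w - p.eval 0)).re :=
      integral_re hi2
    rw [h6, integral_const_mul, h1, mul_zero]
    simp [Measure.real, mul_comm]
  rw [← h5]
  have hc1 : Continuous fun w : ℂ => ‖p.eval 0‖ ^ 2 +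
      2 * ((starRingEnd ℂ) (p.eval 0) * (p.eval w - p.eval 0)).re :=
    continuous_const.add (continuous_const.mul (Complex.continuous_re.comp (by fun_prop)))
  have hc2 : Continuous fun w : ℂ => ‖p.eval w‖ ^ 2 := by fun_prop
  exact setIntegral_mono (integrableOn_ball_of_continuous hc1 _ _)
    (integrableOn_ball_of_continuous hc2 _ _) h3

/-- the mean value inequality over a disc -/
lemma sq_norm_mul_volume_le' (p : ℂ[X]) (z : ℂ) (δ : ℝ) :
    ‖p.eval z‖ ^ 2 * (volume (ball (0 : ℂ) δ)).toReal ≤ ∫ w in ball z δ, ‖p.eval w‖ ^ 2 := by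
  have h1 := sq_norm_mul_volume_le (p.comp (X + C z)) δ
  have h2 := (measurePreserving_add_right (volume : Measure ℂ) z).setIntegral_preimage_emb
    (measurableEmbedding_addRight z) (fun w => ‖p.eval w‖ ^ 2) (ball z δ)
  have h3 : (fun x => x + z) ⁻¹' (ball z δ) = ball 0 δ := by
    ext w
    simp [dist_eq_norm]
  rw [h3] at h2
  simp only [eval_comp, eval_add, eval_X, eval_C, zero_add] at h1
  rw [← h2]
  exact h1

/-- the Bernstein-Markov inequality in a large disc -/
lemma bm_disc (φ : PositiveMetric) (dV : VolumeForm) (R : ℝ) {ε : ℝ} (hε : 0 < ε) :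
    ∃ C : ℝ, 0 < C ∧ ∀ k : ℕ, ∀ p ∈ V k, ∫ z : ℂ, ‖p.eval z‖ ^ 2 * wgt φ dV k z = 1 →
      ∀ z : ℂ, ‖z‖ ≤ R → ‖p.eval z‖ ^ 2 ≤ C * Real.exp (ε * k) * Real.exp (k * φ.wt z) := by
  have hcpt : IsCompact (closedBall (0 : ℂ) (|R| + 1)) := isCompact_closedBall _ _
  have hne : (closedBall (0 : ℂ) (|R| + 1)).Nonempty := ⟨0, by simp; positivity⟩
  obtain ⟨z₁, -, hz₁⟩ := hcpt.exists_isMinOn hne dV.continuous_dens.continuousOn
  have hm := dV.dens_pos z₁
  set m := dV.dens z₁ with hmdef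
  have huc : UniformContinuousOn φ.wt (closedBall (0 : ℂ) (|R| + 1)) :=
    hcpt.uniformContinuousOn_of_continuous φ.continuous_wt.continuousOn
  rw [Metric.uniformContinuousOn_iff] at huc
  obtain ⟨δ₀, hδ₀, hδ₀b⟩ := huc ε hε
  set δ := min δ₀ 1 with hδ
  have hδpos : 0 < δ := lt_min hδ₀ one_pos
  set v := (volume (ball (0 : ℂ) δ)).toReal with hv
  have hvpos : 0 < v := ENNReal.toReal_pos (measure_ball_pos _ _ hδpos).ne' measure_ball_lt_top.ne
  refine ⟨1 / (m * v), by positivity, fun k p hp hint z hz => ?_⟩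
  have h1 := sq_norm_mul_volume_le' p z δ
  have hkey : ∀ w ∈ ball z δ, ‖p.eval w‖ ^ 2 ≤
      ‖p.eval w‖ ^ 2 * wgt φ dV k w * (Real.exp (ε * k) * Real.exp (k * φ.wt z) / m) := by
    intro w hw
    have hw' : dist w z < δ := hw
    have hzm : z ∈ closedBall (0 : ℂ) (|R| + 1) := by
      rw [mem_closedBall_zero_iff]
      have := le_abs_self R
      linarith
    have hwm : w ∈ closedBall (0 : ℂ) (|R| + 1) := by
      rw [mem_closedBall_zero_iff]
      have h2 := le_abs_self R
      have h3 : ‖w‖ ≤ ‖z‖ + dist w z := by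
        have := norm_add_le z (w - z)
        rw [dist_eq_norm]
        simpa using this
      have h4 : δ ≤ 1 := min_le_right _ _
      linarith
    have h2 : dist (φ.wt w) (φ.wt z) < ε :=
      hδ₀b w hwm z hzm (hw'.trans_le (min_le_left _ _))
    rw [Real.dist_eq] at h2
    have h3 : m ≤ dV.dens w := hz₁ hwm
    have h4 : 1 ≤ wgt φ dV k w * (Real.exp (ε * k) * Real.exp (k * φ.wt z) / m) := by
      unfold wgt
      have h5 : 1 ≤ Real.exp (-(k * φ.wt w)) * (Real.exp (ε * k) * Real.exp (k * φ.wt z)) := by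
        rw [← Real.exp_add, ← Real.exp_add]
        apply Real.one_le_exp
        have h6 := (abs_lt.1 h2).2
        have hk : (0 : ℝ) ≤ k := by positivity
        nlinarith
      have h6 : 1 ≤ dV.dens w / m := by rw [le_div_iff₀ hm]; linarith
      calc (1 : ℝ) = 1 * 1 := by ring
        _ ≤ (Real.exp (-(k * φ.wt w)) * (Real.exp (ε * k) * Real.exp (k * φ.wt z))) *
            (dV.dens w / m) := by gcongr
        _ = _ := by ring
    calc ‖p.eval w‖ ^ 2 = ‖p.eval w‖ ^ 2 * 1 := by ring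
      _ ≤ ‖p.eval w‖ ^ 2 * (wgt φ dV k w * (Real.exp (ε * k) * Real.exp (k * φ.wt z) / m)) := by
        gcongr
      _ = _ := by ring
  set Q := Real.exp (ε * k) * Real.exp (k * φ.wt z) / m with hQ
  have hQpos : 0 < Q := by positivity
  have hisq := integrable_sq φ dV hp
  have h2 : ∫ w in ball z δ, ‖p.eval w‖ ^ 2 ≤ Q := by
    calc ∫ w in ball z δ, ‖p.eval w‖ ^ 2 ≤
        ∫ w in ball z δ, ‖p.eval w‖ ^ 2 * wgt φ dV k w * Q := by
          apply setIntegral_mono_on
          · exact integrableOn_ball_of_continuous (by fun_prop) _ _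
          · exact (hisq.mul_const Q).integrableOn
          · exact measurableSet_ball
          · exact hkey
      _ = (∫ w in ball z δ, ‖p.eval w‖ ^ 2 * wgt φ dV k w) * Q := integral_mul_const _ _
      _ ≤ 1 * Q := by
          apply mul_le_mul_of_nonneg_right _ hQpos.le
          rw [← hint]
          apply setIntegral_le_integral hisq
          exact Eventually.of_forall fun w => mul_nonneg (by positivity) (wgt_pos φ dV k w).le
      _ = Q := one_mul _
  have h3 := h1.trans h2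
  rw [← le_div_iff₀ hvpos] at h3
  refine h3.trans (le_of_eq ?_)
  rw [hQ]
  field_simp

/-- the Bernstein-Markov inequality -/
theorem bm (φ : PositiveMetric) (dV : VolumeForm) {ε : ℝ} (hε : 0 < ε) :
    ∃ C : ℝ, 0 < C ∧ ∀ k : ℕ, ∀ p ∈ V k, ∫ z : ℂ, ‖p.eval z‖ ^ 2 * wgt φ dV k z = 1 →
      ∀ z : ℂ, ‖p.eval z‖ ^ 2 ≤ C * Real.exp (ε * k) * Real.exp (k * φ.wt z) := by
  -- a small disc at infinity
  have hc0 : ∀ᶠ w in 𝓝 (0 : ℂ), |φ.wtInf w - φ.wtInf 0| < ε / 3 := by
    have := φ.continuous_wtInf.continuousAt (x := (0 : ℂ))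
    have h := Metric.continuousAt_iff.1 this (ε / 3) (by positivity)
    obtain ⟨δ, hδ, hδb⟩ := h
    filter_upwards [ball_mem_nhds (0 : ℂ) hδ] with w hw
    have := hδb (x := w) hw
    rwa [Real.dist_eq] at this
  obtain ⟨ρ₀, hρ₀, hρ₀b⟩ := Metric.eventually_nhds_iff.1 hc0
  set ρ := ρ₀ / 2 with hρ
  have hρpos : 0 < ρ := by positivity
  have hosc : ∀ w : ℂ, ‖w‖ ≤ ρ → |φ.wtInf w - φ.wtInf 0| < ε / 3 := by
    intro w hw
    apply hρ₀b
    rw [dist_zero_right]
    linarith
  obtain ⟨C, hC, hdisc⟩ := bm_disc φ dV ρ⁻¹ (show 0 < ε / 3 by positivity)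
  refine ⟨C, hC, fun k p hp hint z => ?_⟩
  have hk : (0 : ℝ) ≤ k := by positivity
  by_cases hz : ‖z‖ ≤ ρ⁻¹
  · refine (hdisc k p hp hint z hz).trans ?_
    gcongr
    linarith
  · push Not at hz
    have hzpos : 0 < ‖z‖ := lt_trans (by positivity) hz
    have hz0 : z ≠ 0 := norm_pos_iff.1 hzpos
    -- the reversed polynomial
    set q := p.reflect k with hq
    have hqval : ∀ x : ℂ, x ≠ 0 → q.eval x⁻¹ * x ^ k = p.eval x := by
      intro x hx
      have := invertibleOfNonzero hx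
      have h1 := eval₂_reflect_mul_pow (RingHom.id ℂ) x k p (mem_V.1 hp)
      rw [invOf_eq_inv] at h1
      exact h1
    set M := C * Real.exp (ε / 3 * k) * Real.exp (k * (φ.wtInf 0 + ε / 3)) with hM
    have hMpos : 0 < M := by positivity
    have hfront : ∀ w ∈ frontier (ball (0 : ℂ) ρ), ‖q.eval w‖ ≤ Real.sqrt M := by
      intro w hw
      rw [frontier_ball _ hρpos.ne', mem_sphere_zero_iff_norm] at hw
      have hw0 : w ≠ 0 := by rw [← norm_pos_iff, hw]; exact hρpos
      apply Real.le_sqrt_of_sq_le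
      have h1 := hqval w⁻¹ (inv_ne_zero hw0)
      rw [inv_inv] at h1
      have h2 := hdisc k p hp hint w⁻¹ (by rw [norm_inv, hw])
      rw [← h1, norm_mul, mul_pow, norm_pow, norm_inv, hw] at h2
      have h3 : φ.wt w⁻¹ = φ.wtInf w + Real.log (ρ⁻¹ ^ 2) := by
        rw [φ.compat _ (inv_ne_zero hw0), inv_inv, norm_inv, hw]
      have h4 : Real.exp (k * φ.wt w⁻¹) = Real.exp (k * φ.wtInf w) * (ρ⁻¹ ^ k) ^ 2 := by
        rw [h3, mul_add, Real.exp_add, Real.exp_nat_mul, Real.exp_nat_mul,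
          Real.exp_log (by positivity), ← pow_mul, ← pow_mul, mul_comm 2 k]
      rw [h4] at h2
      have h5 : 0 < (ρ⁻¹ ^ k) ^ 2 := by positivity
      have h6 : ‖q.eval w‖ ^ 2 ≤ C * Real.exp (ε / 3 * k) * Real.exp (k * φ.wtInf w) := by
        refine le_of_mul_le_mul_right ?_ h5
        linarith
      refine h6.trans ?_
      rw [hM]
      have h7 := (abs_lt.1 (hosc w hw.le)).2
      gcongr
      linarith
    have hmem : z⁻¹ ∈ closure (ball (0 : ℂ) ρ) := by
      rw [closure_ball _ hρpos.ne', mem_closedBall_zero_iff, norm_inv]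
      rw [inv_le_comm₀ hzpos hρpos]
      exact hz.le
    have hdiff : DiffContOnCl ℂ (fun x => q.eval x) (ball (0 : ℂ) ρ) :=
      q.differentiable.diffContOnCl
    have hmax := Complex.norm_le_of_forall_mem_frontier_norm_le isBounded_ball hdiff hfront hmem
    have h1 : ‖q.eval z⁻¹‖ ^ 2 ≤ M := by
      have h2 := pow_le_pow_left₀ (norm_nonneg _) hmax 2
      rwa [Real.sq_sqrt hMpos.le] at h2
    have hzinv : ‖z⁻¹‖ ≤ ρ := by
      rw [norm_inv, inv_le_comm₀ hzpos hρpos]; exact hz.le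
    have h2 := (abs_lt.1 (hosc z⁻¹ hzinv)).1
    have h3 : Real.exp (k * φ.wt z) = Real.exp (k * φ.wtInf z⁻¹) * (‖z‖ ^ k) ^ 2 := by
      rw [φ.compat z hz0, mul_add, Real.exp_add, Real.exp_nat_mul, Real.exp_nat_mul,
        Real.exp_log (by positivity), ← pow_mul, ← pow_mul, mul_comm 2 k]
    rw [← hqval z hz0, norm_mul, mul_pow, norm_pow, h3]
    calc ‖q.eval z⁻¹‖ ^ 2 * (‖z‖ ^ k) ^ 2 ≤ M * (‖z‖ ^ k) ^ 2 := by gcongr
      _ ≤ (C * Real.exp (ε * k) * Real.exp (k * φ.wtInf z⁻¹)) * (‖z‖ ^ k) ^ 2 := by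
          gcongr
          rw [hM, mul_assoc, mul_assoc, ← Real.exp_add, ← Real.exp_add]
          apply mul_le_mul_of_nonneg_left _ hC.le
          rw [Real.exp_le_exp]
          nlinarith
      _ = _ := by ring

end Pool.Agent.Lib.MP_ab0522
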