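import Mathlib
import Pool.Agent.Lib.MP_ab0522.BM
import Pool.Agent.Lib.MP_ab0522.ExplicitData

/-!
# The main theorem
-/

namespace Pool.Agent.Lib.MP_ab0522

open Polynomial MeasureTheory Filter Topology Metric

variable {φ : PositiveMetric} {dV : VolumeForm} {F : GradedFiltration}

/-- the abstract system attached to a family of adapted orthonormal bases -/
noncomputable def mkSys (B : (k : ℕ) → AdaptedBasis φ dV F k) : Sys where
  φ := φ.wt
  A := φ.growth.choose
  growth := φ.growth.choose_spec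
  F := F
  lam := fun k => (B k).lam
  s := fun k => (B k).s
  jumping := fun k => (B k).jumping
  adapted := fun k => (B k).adapted
  bm := by
    intro ε hε
    obtain ⟨C, hC, h⟩ := bm φ dV hε
    exact ⟨C, hC, fun k i z => h k _ ((B k).s_mem i) ((B k).integral_s i) z⟩
  C₀ := (∫ z, dV.dens z) + 1
  C₀_pos := by
    have : 0 ≤ ∫ z, dV.dens z := integral_nonneg fun z => (dV.dens_pos z).le
    linarith
  dual := fun k _ hu hb => (B k).exists_dual hu hb

/-- the sums `K` of two adapted orthonormal bases are comparable -/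
lemma K_le (B B' : (k : ℕ) → AdaptedBasis φ dV F k) {k : ℕ} (hk : 1 ≤ k) {f : ℝ → ℝ}
    (hf : Antitone f) (z : ℂ) :
    (mkSys B').K k f z ≤ ((k : ℝ) + 1) ^ 2 * (mkSys B).K k f z := by
  have hk' : (0 : ℝ) < k := by exact_mod_cast hk
  have hterm : ∀ i : Fin (k + 1), ‖((B' k).s i).eval z‖ ^ 2 *
      Real.exp (-(k * f ((B' k).lam i / k))) ≤ ((k : ℝ) + 1) * (mkSys B).K k f z := by
    intro i
    obtain ⟨a, ha⟩ := (B k).exists_coord ((B' k).s_mem i)
    have hpars := (B k).parseval a
    rw [← ha, (B' k).integral_s i] at hpars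
    have ha1 : ∀ j, ‖a j‖ ^ 2 ≤ 1 := by
      intro j
      rw [hpars]
      exact Finset.single_le_sum (f := fun j => ‖a j‖ ^ 2) (fun _ _ => by positivity)
        (Finset.mem_univ j)
    have hmem := (B' k).s_mem_F i
    rw [ha] at hmem
    have h1 : ((B' k).s i).eval z = ∑ j, a j * ((B k).s j).eval z := by
      conv_lhs => rw [ha]
      simp [eval_finsetSum]
    have h2 : ‖((B' k).s i).eval z‖ ^ 2 ≤
        ((k : ℝ) + 1) * ∑ j, ‖a j‖ ^ 2 * ‖((B k).s j).eval z‖ ^ 2 := by
      rw [h1]
      calc ‖∑ j, a j * ((B k).s j).eval z‖ ^ 2 ≤ (∑ j, ‖a j * ((B k).s j).eval z‖) ^ 2 := by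
            gcongr; exact norm_sum_le _ _
        _ ≤ (Finset.univ : Finset (Fin (k + 1))).card *
            ∑ j, ‖a j * ((B k).s j).eval z‖ ^ 2 := sq_sum_le_card_mul_sum_sq
        _ = ((k : ℝ) + 1) * ∑ j, ‖a j‖ ^ 2 * ‖((B k).s j).eval z‖ ^ 2 := by
            simp [mul_pow]
    calc ‖((B' k).s i).eval z‖ ^ 2 * Real.exp (-(k * f ((B' k).lam i / k))) ≤
        (((k : ℝ) + 1) * ∑ j, ‖a j‖ ^ 2 * ‖((B k).s j).eval z‖ ^ 2) *
          Real.exp (-(k * f ((B' k).lam i / k))) := by gcongr
      _ = ((k : ℝ) + 1) * ∑ j, ‖a j‖ ^ 2 * ‖((B k).s j).eval z‖ ^ 2 *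
          Real.exp (-(k * f ((B' k).lam i / k))) := by
          rw [mul_assoc, Finset.sum_mul]
      _ ≤ ((k : ℝ) + 1) * (mkSys B).K k f z := by
          apply mul_le_mul_of_nonneg_left _ (by positivity)
          refine Finset.sum_le_sum fun j _ => ?_
          by_cases hj : (B k).lam j < (B' k).lam i
          · rw [(B k).coord_eq_zero hmem hj]
            simp only [norm_zero, ne_eq, OfNat.ofNat_ne_zero, not_false_eq_true, zero_pow,
              zero_mul]
            positivity
          · push Not at hj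
            have h3 : f ((B k).lam j / k) ≤ f ((B' k).lam i / k) := hf (by gcongr)
            have h4 : Real.exp (-(k * f ((B' k).lam i / k))) ≤
                Real.exp (-(k * f ((B k).lam j / k))) := by
              rw [Real.exp_le_exp]
              nlinarith
            calc ‖a j‖ ^ 2 * ‖((B k).s j).eval z‖ ^ 2 * Real.exp (-(k * f ((B' k).lam i / k))) ≤
                1 * ‖((B k).s j).eval z‖ ^ 2 * Real.exp (-(k * f ((B k).lam j / k))) := by
                  gcongr
                  exact ha1 j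
              _ = _ := by rw [one_mul]; rfl
  calc (mkSys B').K k f z = ∑ i : Fin (k + 1), ‖((B' k).s i).eval z‖ ^ 2 *
        Real.exp (-(k * f ((B' k).lam i / k))) := rfl
    _ ≤ ∑ _i : Fin (k + 1), ((k : ℝ) + 1) * (mkSys B).K k f z :=
        Finset.sum_le_sum fun i _ => hterm i
    _ = ((k : ℝ) + 1) ^ 2 * (mkSys B).K k f z := by
        rw [Finset.sum_const, Finset.card_univ, Fintype.card_fin, nsmul_eq_mul]
        push_cast
        ring

lemma phi_le (B B' : (k : ℕ) → AdaptedBasis φ dV F k) {k : ℕ} (hk : 1 ≤ k) {f : ℝ → ℝ}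
    (hf : Antitone f) (z : ℂ) :
    (mkSys B').phi k f z ≤ (mkSys B).phi k f z + 2 * (Real.log (((k : ℝ) + 1) * 1) / k) := by
  have hk' : (0 : ℝ) < k := by exact_mod_cast hk
  have h1 := (mkSys B).K_pos hk hf z
  have h2 := (mkSys B').K_pos hk hf z
  have h3 := Real.log_le_log h2 (K_le B B' hk hf z)
  rw [Real.log_mul (by positivity) h1.ne', Real.log_pow] at h3
  unfold Sys.phi
  have h4 := mul_le_mul_of_nonneg_left h3 (inv_nonneg.2 hk'.le)
  refine h4.trans (le_of_eq ?_)
  push_cast
  rw [mul_one]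
  field_simp
  ring

/-- the upper limit does not change under a perturbation tending to `0` -/
lemma isUpperLimit_of_tendsto {x y : ℕ → ℝ} {v : ℝ}
    (h : Tendsto (fun k => y k - x k) atTop (𝓝 0)) (hx : IsUpperLimit x v) :
    IsUpperLimit y v := by
  intro ε hε
  have h1 : ∀ᶠ k in atTop, |y k - x k| < ε / 2 := by
    rw [Metric.tendsto_nhds] at h
    filter_upwards [h (ε / 2) (by positivity)] with k hk
    simpa [Real.dist_eq] using hk
  obtain ⟨h2, h3⟩ := hx (ε / 2) (by positivity)
  constructor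
  · filter_upwards [h1, h2] with k hk1 hk2
    have := (abs_lt.1 hk1).2
    linarith
  · refine (h3.and_eventually h1).mono fun k hk => ?_
    have := (abs_lt.1 hk.2).1
    linarith [hk.1]

/-- the limit does not depend on the choice of the adapted orthonormal bases -/
lemma conv_of_conv (B B' : (k : ℕ) → AdaptedBasis φ dV F k) {f : ℝ → ℝ} (hf : Antitone f)
    {ψ : ℂ → ℝ} (h : (mkSys B').Conv f ψ) : (mkSys B).Conv f ψ := by
  intro z
  refine isUpperLimit_of_tendsto ?_ (h z)
  have h2 : Tendsto (fun k : ℕ => 2 * (Real.log (((k : ℝ) + 1) * 1) / k)) atTop (𝓝 0) := by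
    have := (tendsto_log_div_nat (C := 1) one_pos).const_mul 2
    simpa using this
  refine squeeze_zero_norm' ?_ h2
  filter_upwards [eventually_ge_atTop 1] with k hk
  rw [Real.norm_eq_abs, abs_le]
  have h3 := phi_le B B' hk hf z
  have h4 := phi_le B' B hk hf z
  constructor <;> linarith

/-- The main theorem: the two explicit metrics do not lie in a common flat cone. -/
theorem not_inCommonFlatCone (dV : VolumeForm) : ¬ InCommonFlatCone dV metric0 metric1 := by
  rintro ⟨φ, F, σ, f₀, f₁, ⟨hfin, hσ⟩, hf₀, hf₁, ⟨B, ψ₀, hψ₀, hu₀⟩, ⟨B', ψ₁, hψ₁, hu₁⟩⟩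
  have hw : WeakLim (mkSys B).lam σ := hσ _ fun k => (mkSys B).jumping k
  have hprob : IsProbabilityMeasure σ := measure_univ_eq_one hw
  have hc₀ : (mkSys B).Conv f₀ ψ₀ := hψ₀
  have hc₁' : (mkSys B').Conv f₁ ψ₁ := hψ₁
  have hc₁ := conv_of_conv B B' hf₁.antitone hc₁'
  exact (mkSys B).false_of_data hw hf₀ hf₁ hc₀ hc₁ hu₀ hu₁ (by norm_num : (0 : ℝ) < 1 / 2)
    data0 data1 (fun β h => half_le_of_h1_le h) (fun β h => half_le_of_h0_le h)

end Pool.Agent.Lib.MP_ab0522
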